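import Pool.Agent.LOE.Defs

/-!
# LOE / VEL: Taylor coefficients

`coef` is additive and homogeneous, depends only on the germ at `0`; the Cauchy product for
functions holomorphic on `Dk` (`iteratedDeriv_mul` or power series `HasFPowerSeriesOnBall.mul`);
`coef k (z * deriv g z) = k * coef k g`.
-/

set_option autoImplicit false

open Metric Set Filter Topology

namespace Pool.Agent.LOE

private theorem vel_nhds : Dk ∈ 𝓝 (0 : ℂ) := by
  unfold Dk
  exact Metric.ball_mem_nhds 0 one_pos

private theorem vel_cd {g : ℂ → ℂ} (hg : DifferentiableOn ℂ g Dk) (n : WithTop ℕ∞) :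
    ContDiffAt ℂ n g 0 := (hg.analyticAt vel_nhds).contDiffAt

private theorem vel_coef_congr {f g : ℂ → ℂ} (h : f =ᶠ[𝓝 0] g) (k : ℕ) : coef k f = coef k g := by
  unfold coef
  rw [h.iteratedDeriv_eq k]

private theorem vel_mul {g p : ℂ → ℂ} (hg : ContDiffAt ℂ (⊤ : ℕ∞) g 0)
    (hp : ContDiffAt ℂ (⊤ : ℕ∞) p 0) (k : ℕ) :
    coef k (fun z => g z * p z) = ∑ i ∈ Finset.range (k + 1), coef i g * coef (k - i) p := by
  unfold coef
  rw [iteratedDeriv_fun_mul (hg.of_le (by exact_mod_cast le_top))
    (hp.of_le (by exact_mod_cast le_top)), Finset.sum_div]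
  refine Finset.sum_congr rfl fun i hi => ?_
  have hik : i ≤ k := Nat.lt_succ_iff.1 (Finset.mem_range.1 hi)
  have h1 : ((k.choose i : ℕ) : ℂ) * (i.factorial : ℂ) * ((k - i).factorial : ℂ)
      = (k.factorial : ℂ) := by
    exact_mod_cast Nat.choose_mul_factorial_mul_factorial hik
  have h2 : (i.factorial : ℂ) ≠ 0 := by exact_mod_cast i.factorial_ne_zero
  have h3 : ((k - i).factorial : ℂ) ≠ 0 := by exact_mod_cast (k - i).factorial_ne_zero
  have h4 : (k.factorial : ℂ) ≠ 0 := by exact_mod_cast k.factorial_ne_zero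
  rw [← h1] at h4 ⊢
  have h5 : ((k.choose i : ℕ) : ℂ) ≠ 0 := by
    intro h
    rw [h] at h4
    simp at h4
  field_simp

theorem coef_mul {g p : ℂ → ℂ} (hg : DifferentiableOn ℂ g Dk) (hp : DifferentiableOn ℂ p Dk)
    (k : ℕ) : coef k (fun z => g z * p z) = ∑ i ∈ Finset.range (k + 1), coef i g * coef (k - i) p :=
  vel_mul (vel_cd hg _) (vel_cd hp _) k

private theorem vel_coef_id (k : ℕ) : coef k (fun z : ℂ => z) = if k = 1 then 1 else 0 := by
  unfold coef
  rw [iteratedDeriv_fun_id_zero]
  split_ifs with h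
  · subst h
    simp
  · simp

theorem coef_zderiv {g : ℂ → ℂ} (hg : DifferentiableOn ℂ g Dk) (k : ℕ) :
    coef k (fun z => z * deriv g z) = k * coef k g := by
  have h1 : ContDiffAt ℂ (⊤ : ℕ∞) (deriv g) 0 :=
    ((hg.analyticAt vel_nhds).deriv).contDiffAt
  have h0 : ContDiffAt ℂ (⊤ : ℕ∞) (fun z : ℂ => z) 0 := contDiffAt_id
  rw [vel_mul h0 h1]
  rcases k with _ | k
  · simp [vel_coef_id]
  · rw [Finset.sum_eq_single 1]
    · rw [vel_coef_id]
      simp only [if_true, one_mul, Nat.add_sub_cancel]
      unfold coef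
      rw [iteratedDeriv_succ', Nat.factorial_succ]
      push_cast
      have h2 : ((k : ℂ) + 1) ≠ 0 := by exact_mod_cast k.succ_ne_zero
      have h3 : (k.factorial : ℂ) ≠ 0 := by exact_mod_cast k.factorial_ne_zero
      field_simp
    · intro b _ hb
      rw [vel_coef_id]
      simp [hb]
    · intro h
      exact absurd (Finset.mem_range.2 (by omega)) h

theorem coef_add {g p : ℂ → ℂ} (hg : DifferentiableOn ℂ g Dk) (hp : DifferentiableOn ℂ p Dk)
    (k : ℕ) : coef k (fun z => g z + p z) = coef k g + coef k p := by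
  unfold coef
  rw [iteratedDeriv_fun_add (vel_cd hg _) (vel_cd hp _), add_div]

theorem coef_smul {g : ℂ → ℂ} (hg : DifferentiableOn ℂ g Dk) (c : ℂ) (k : ℕ) :
    coef k (fun z => c * g z) = c * coef k g := by
  unfold coef
  rw [iteratedDeriv_const_mul c (vel_cd hg _), mul_div_assoc]

private theorem vel_zd {g : ℂ → ℂ} (hg : DifferentiableOn ℂ g Dk) :
    DifferentiableOn ℂ (fun z => z * deriv g z) Dk := by
  have h1 : DifferentiableOn ℂ (deriv g) Dk := hg.deriv (by unfold Dk; exact isOpen_ball)
  exact differentiableOn_id.mul h1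

theorem coef_vel {g p : ℂ → ℂ} (hg : DifferentiableOn ℂ g Dk) (hp : DifferentiableOn ℂ p Dk)
    (k : ℕ) : coef k (vel g p) =
      ∑ i ∈ Finset.range (k + 1), (i : ℂ) * coef i g * coef (k - i) p - coef k g := by
  have h1 := vel_zd hg
  have h2 : DifferentiableOn ℂ (fun z => z * deriv g z * p z) Dk := h1.mul hp
  have h3 : vel g p = fun z => (z * deriv g z * p z) + (-1) * g z := by
    funext z
    unfold vel
    ring
  rw [h3, coef_add h2 (hg.const_mul (-1)), coef_smul hg, coef_mul h1 hp]
  have h4 : ∀ i ∈ Finset.range (k + 1), coef i (fun z => z * deriv g z) * coef (k - i) p =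
      (i : ℂ) * coef i g * coef (k - i) p := fun i _ => by rw [coef_zderiv hg]
  rw [Finset.sum_congr rfl h4]
  ring

private theorem vel_const (c : ℂ) (k : ℕ) : coef k (fun _ : ℂ => c) = if k = 0 then c else 0 := by
  unfold coef
  rw [iteratedDeriv_const]
  split_ifs with h
  · subst h
    simp
  · simp

private theorem vel_lin (a b : ℂ) (k : ℕ) :
    coef k (fun z : ℂ => a + b * z) = if k = 0 then a else if k = 1 then b else 0 := by
  have h1 : DifferentiableOn ℂ (fun _ : ℂ => a) Dk := differentiableOn_const a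
  have h2 : DifferentiableOn ℂ (fun z : ℂ => z) Dk := differentiableOn_id
  rw [coef_add h1 (h2.const_mul b), coef_smul h2, vel_const, vel_coef_id]
  split_ifs with h h' h'
  · omega
  · simp
  · simp
  · simp

theorem coef_kernel {κ : ℂ} (hκ : ‖κ‖ = 1) (k : ℕ) :
    coef k (fun z => (1 + κ * z) / (1 - κ * z)) = if k = 0 then 1 else 2 * κ ^ k := by
  have hne : ∀ z ∈ Dk, 1 - κ * z ≠ 0 := by
    intro z hz h
    have h1 : κ * z = 1 := (sub_eq_zero.1 h).symm
    have h2 : ‖z‖ = 1 := by
      have h3 := congrArg norm h1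
      rw [norm_mul, hκ, one_mul, norm_one] at h3
      exact h3
    unfold Dk at hz
    rw [mem_ball_zero_iff] at hz
    linarith
  have hp : DifferentiableOn ℂ (fun z => (1 + κ * z) / (1 - κ * z)) Dk := by
    refine DifferentiableOn.div ?_ ?_ hne
    · exact (differentiableOn_const 1).add (differentiableOn_id.const_mul κ)
    · exact (differentiableOn_const 1).sub (differentiableOn_id.const_mul κ)
  have hq : DifferentiableOn ℂ (fun z => 1 + (-κ) * z) Dk :=
    (differentiableOn_const 1).add (differentiableOn_id.const_mul (-κ))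
  have key : ∀ k : ℕ, ∑ i ∈ Finset.range (k + 1), coef i (fun z => 1 + (-κ) * z) *
      coef (k - i) (fun z => (1 + κ * z) / (1 - κ * z)) =
      if k = 0 then 1 else if k = 1 then κ else 0 := by
    intro k
    rw [← coef_mul hq hp, ← vel_lin 1 κ k]
    refine vel_coef_congr ?_ k
    filter_upwards [vel_nhds] with z hz
    have := hne z hz
    have h1 : 1 + (-κ) * z = 1 - κ * z := by ring
    rw [h1]
    field_simp
  have h0 : coef 0 (fun z => (1 + κ * z) / (1 - κ * z)) = 1 := by
    have h := key 0
    simp only [zero_add, Finset.sum_range_one, vel_lin, if_true, one_mul, Nat.sub_zero] at h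
    exact h
  have hs : ∀ k : ℕ, coef (k + 1) (fun z => (1 + κ * z) / (1 - κ * z)) =
      κ * coef k (fun z => (1 + κ * z) / (1 - κ * z)) + if k = 0 then κ else 0 := by
    intro k
    have h := key (k + 1)
    rw [Finset.sum_range_succ', Finset.sum_range_succ'] at h
    rw [Finset.sum_eq_zero] at h
    · simp only [vel_lin, if_true, Nat.sub_zero, zero_add, one_mul, Nat.add_sub_cancel,
        Nat.succ_ne_zero, one_ne_zero, if_false, add_eq_right] at h
      rw [← h]
      ring
    · intro i _
      rw [vel_lin]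
      simp
  have hall : ∀ k : ℕ, coef (k + 1) (fun z => (1 + κ * z) / (1 - κ * z)) = 2 * κ ^ (k + 1) := by
    intro k
    induction k with
    | zero =>
      rw [hs 0, h0]
      simp
      ring
    | succ n ih =>
      rw [hs (n + 1), ih]
      simp
      ring
  rcases k with _ | k
  · simpa using h0
  · simpa using hall k

end Pool.Agent.LOE
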