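import Pool.Agent.LOE.RNG

/-!
# LOE / PRM: primitives, logarithms and square roots

`exists_primitive`: if `U` is empty it is trivial.  Let `z₀ ∈ U`.  Choose an increasing sequence
of compact sets `M n ⊆ U` with union `U`, every compact subset of `U` being in some `M n`
(for example `{w | 1 / (n + 1) ≤ infDist w Uᶜ}`), polynomials `q n` with
`‖h - q n‖ < 1 / (n + 1)` on `M n` (`runge`) and primitives `Q n` (polynomials) with
`Q n z₀ = 0`.  Every point `z ∈ U` has, together with `z₀`, a preconnected open neighbourhood `W`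
with compact closure in `U` (`U` is open and connected, hence path connected: finitely many
balls along a path, or a small thickening of the path), on which `deriv (Q n) = q n` converges
uniformly, so `Q n` is uniformly Cauchy near every point of `W`
(`uniformCauchySeqOn_ball_of_deriv`, `cauchy_map_of_uniformCauchySeqOn_fderiv`) and the limit `H`
satisfies `HasDerivAt H (h z) z` (`hasDerivAt_of_tendstoUniformlyOn` on balls).
`exists_log`: `h = F' / F` is holomorphic on `U`, `H` a primitive; `F * exp (-H)` has derivative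
`0` on `U`, so it is a constant `c ≠ 0` (`U` open and preconnected,
`IsOpen.is_const_of_deriv_eq_zero` or so), `c = exp b`, `L = H + b`.
`exists_sqrt`: `s = exp (L / 2)`.
-/

set_option autoImplicit false

open Metric Set Filter Topology

namespace Pool.Agent.LOE

private theorem prm_poly (q : Polynomial ℂ) (z₀ : ℂ) :
    ∃ Q : ℂ → ℂ, Q z₀ = 0 ∧ ∀ z, HasDerivAt Q (q.eval z) z := by
  suffices h : ∃ Q : ℂ → ℂ, ∀ z, HasDerivAt Q (q.eval z) z by
    obtain ⟨Q, hQ⟩ := h
    exact ⟨fun z => Q z - Q z₀, sub_self _, fun z => (hQ z).sub_const _⟩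
  induction q using Polynomial.induction_on' with
  | add p q hp hq =>
    obtain ⟨P, hP⟩ := hp
    obtain ⟨Q, hQ⟩ := hq
    refine ⟨fun z => P z + Q z, fun z => ?_⟩
    rw [Polynomial.eval_add]
    exact (hP z).add (hQ z)
  | monomial n a =>
    refine ⟨fun z => a / (n + 1) * z ^ (n + 1), fun z => ?_⟩
    have h1 := (hasDerivAt_pow (n + 1) z).const_mul (a / (n + 1))
    have h2 : ((n : ℂ) + 1) ≠ 0 := by exact_mod_cast n.succ_ne_zero
    have h3 : a / (n + 1) * (((n + 1 : ℕ) : ℂ) * z ^ (n + 1 - 1)) =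
        (Polynomial.monomial n a).eval z := by
      rw [Polynomial.eval_monomial]
      push_cast
      field_simp
    rw [← h3]
    exact h1

theorem exists_primitive {U : Set ℂ} (hU : SD U) {h : ℂ → ℂ} (hh : DifferentiableOn ℂ h U) :
    ∃ H : ℂ → ℂ, ∀ z ∈ U, HasDerivAt H (h z) z := by
  rcases U.eq_empty_or_nonempty with rfl | ⟨z₀, hz₀⟩
  · exact ⟨h, fun z hz => absurd hz (notMem_empty z)⟩
  have hc : (Uᶜ).Nonempty := by
    rw [nonempty_compl]
    intro h1
    have h2 := hU.bdd
    rw [h1] at h2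
    exact NoncompactSpace.noncompact_univ (X := ℂ)
      (isCompact_of_isClosed_isBounded isClosed_univ h2)
  set M : ℕ → Set ℂ := fun n => {w | 1 / ((n : ℝ) + 1) ≤ infDist w Uᶜ} with hM
  have hMU : ∀ n, M n ⊆ U := by
    intro n w hw
    by_contra h1
    have h2 : infDist w Uᶜ = 0 := infDist_zero_of_mem h1
    have h3 : 1 / ((n : ℝ) + 1) ≤ infDist w Uᶜ := hw
    rw [h2] at h3
    have h4 : (0 : ℝ) < 1 / ((n : ℝ) + 1) := by positivity
    linarith
  have hMc : ∀ n, IsCompact (M n) := by
    intro n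
    refine isCompact_of_isClosed_isBounded ?_ (hU.bdd.subset (hMU n))
    exact isClosed_le continuous_const (continuous_infDist_pt _)
  have hq : ∀ n : ℕ, ∃ q : Polynomial ℂ, ∀ w ∈ M n, ‖h w - q.eval w‖ < 1 / ((n : ℝ) + 1) :=
    fun n => runge hU.isOpen hU.bdd hU.compl hh (hMc n) (hMU n) (by positivity)
  choose q hq using hq
  have hQ := fun n => prm_poly (q n) z₀
  choose Q hQ0 hQd using hQ
  -- local uniform convergence of the derivatives
  have hloc : ∀ x ∈ U, ∃ r > 0, ball x (2 * r) ⊆ U ∧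
      TendstoUniformlyOn (fun n z => (q n).eval z) h atTop (ball x (2 * r)) := by
    intro x hx
    obtain ⟨ε, hε, hεU⟩ := Metric.isOpen_iff.1 hU.isOpen x hx
    refine ⟨ε / 4, by positivity, (ball_subset_ball (by linarith)).trans hεU, ?_⟩
    have hd : ∀ w ∈ ball x (2 * (ε / 4)), ε / 2 ≤ infDist w Uᶜ := by
      intro w hw
      rw [le_infDist hc]
      intro y hy
      by_contra h1
      push Not at h1
      apply hy
      apply hεU
      rw [mem_ball] at hw ⊢
      calc dist y x ≤ dist y w + dist w x := dist_triangle _ _ _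
        _ < ε / 2 + 2 * (ε / 4) := add_lt_add (by rwa [dist_comm]) hw
        _ = ε := by ring
    rw [Metric.tendstoUniformlyOn_iff]
    intro δ hδ
    have h1 : Tendsto (fun n : ℕ => 1 / ((n : ℝ) + 1)) atTop (𝓝 0) :=
      tendsto_one_div_add_atTop_nhds_zero_nat
    filter_upwards [h1.eventually (gt_mem_nhds hδ),
      h1.eventually (gt_mem_nhds (show (0 : ℝ) < ε / 2 by positivity))] with n hn1 hn2 w hw
    rw [dist_eq_norm]
    exact (hq n w (hn2.le.trans (hd w hw))).trans hn1
  -- the set of convergence is open and closed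
  have hstep : ∀ x ∈ U, ∃ r > 0, ball x r ⊆ U ∧ ∀ y ∈ ball x r,
      (Cauchy (map (fun n => Q n x) atTop) ↔ Cauchy (map (fun n => Q n y) atTop)) := by
    intro x hx
    obtain ⟨r, hr, hrU, hu⟩ := hloc x hx
    have hu' := hu.uniformCauchySeqOn
    refine ⟨r, hr, (ball_subset_ball (by linarith)).trans hrU, ?_⟩
    have hgo : ∀ a ∈ ball x r, ∀ b ∈ ball a r, Cauchy (map (fun n => Q n a) atTop) →
        Cauchy (map (fun n => Q n b) atTop) := by
      intro a ha b hb hca
      have h1 : ball a r ⊆ ball x (2 * r) := by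
        intro w hw
        rw [mem_ball] at ha hw ⊢
        calc dist w x ≤ dist w a + dist a x := dist_triangle _ _ _
          _ < r + r := add_lt_add hw ha
          _ = 2 * r := by ring
      have h2 := uniformCauchySeqOn_ball_of_deriv (hu'.mono h1) (fun n y _ => hQd n y) hca
      exact h2.cauchy_map hb
    intro y hy
    constructor
    · exact hgo x (mem_ball_self hr) y hy
    · exact hgo y hy x (by rwa [mem_ball, dist_comm, ← mem_ball])
  have hsub : U ⊆ {x | x ∈ U ∧ Cauchy (map (fun n => Q n x) atTop)} := by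
    refine hU.conn.subset_left_of_subset_union (v := {x | x ∈ U ∧
      ¬ Cauchy (map (fun n => Q n x) atTop)}) ?_ ?_ ?_ ?_ ?_
    · rw [Metric.isOpen_iff]
      rintro x ⟨hx, hxc⟩
      obtain ⟨r, hr, hrU, h1⟩ := hstep x hx
      exact ⟨r, hr, fun y hy => ⟨hrU hy, (h1 y hy).1 hxc⟩⟩
    · rw [Metric.isOpen_iff]
      rintro x ⟨hx, hxc⟩
      obtain ⟨r, hr, hrU, h1⟩ := hstep x hx
      exact ⟨r, hr, fun y hy => ⟨hrU hy, fun h2 => hxc ((h1 y hy).2 h2)⟩⟩
    · rw [Set.disjoint_left]
      rintro x ⟨_, h1⟩ ⟨_, h2⟩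
      exact h2 h1
    · intro x hx
      by_cases h1 : Cauchy (map (fun n => Q n x) atTop)
      · exact Or.inl ⟨hx, h1⟩
      · exact Or.inr ⟨hx, h1⟩
    · refine ⟨z₀, hz₀, hz₀, ?_⟩
      have h1 : (fun n => Q n z₀) = fun _ => (0 : ℂ) := by
        funext n
        exact hQ0 n
      rw [h1]
      exact (tendsto_const_nhds (x := (0 : ℂ))).cauchy_map
  have hlim : ∀ x : ℂ, ∃ y : ℂ, x ∈ U → Tendsto (fun n => Q n x) atTop (𝓝 y) := by
    intro x
    by_cases hx : x ∈ U
    · obtain ⟨y, hy⟩ := cauchy_map_iff_exists_tendsto.1 (hsub hx).2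
      exact ⟨y, fun _ => hy⟩
    · exact ⟨0, fun h1 => absurd h1 hx⟩
  choose H hH using hlim
  refine ⟨H, fun x hx => ?_⟩
  obtain ⟨r, hr, hrU, hu⟩ := hloc x hx
  exact hasDerivAt_of_tendstoUniformlyOn isOpen_ball hu
    (Eventually.of_forall fun n y _ => hQd n y) (fun y hy => hH y (hrU hy))
    (mem_ball_self (by positivity))

theorem exists_log {U : Set ℂ} (hU : SD U) {F : ℂ → ℂ} (hF : DifferentiableOn ℂ F U)
    (h0 : ∀ z ∈ U, F z ≠ 0) :
    ∃ L : ℂ → ℂ, DifferentiableOn ℂ L U ∧ ∀ z ∈ U, Complex.exp (L z) = F z := by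
  rcases U.eq_empty_or_nonempty with rfl | ⟨z₀, hz₀⟩
  · exact ⟨F, differentiableOn_empty, fun z hz => absurd hz (notMem_empty z)⟩
  have hd : DifferentiableOn ℂ (fun z => deriv F z / F z) U :=
    (hF.deriv hU.isOpen).div hF h0
  obtain ⟨H, hH⟩ := exists_primitive hU hd
  have hc : ∀ z ∈ U, HasDerivAt (fun w => F w * Complex.exp (-H w)) 0 z := by
    intro z hz
    have h1 : HasDerivAt F (deriv F z) z :=
      (hF.differentiableAt (hU.isOpen.mem_nhds hz)).hasDerivAt
    have h2 := h1.mul ((hH z hz).neg.cexp)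
    have h3 : deriv F z * Complex.exp (-H z) +
        F z * (Complex.exp (-H z) * -(deriv F z / F z)) = 0 := by
      have := h0 z hz
      field_simp
      ring
    rw [← h3]
    exact h2
  have hconst : ∀ z ∈ U, F z * Complex.exp (-H z) = F z₀ * Complex.exp (-H z₀) := by
    intro z hz
    exact hU.isOpen.is_const_of_deriv_eq_zero hU.conn
      (fun w hw => (hc w hw).differentiableAt.differentiableWithinAt)
      (fun w hw => (hc w hw).deriv) hz hz₀
  have hne : F z₀ * Complex.exp (-H z₀) ≠ 0 := mul_ne_zero (h0 z₀ hz₀) (Complex.exp_ne_zero _)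
  refine ⟨fun z => H z + Complex.log (F z₀ * Complex.exp (-H z₀)), ?_, ?_⟩
  · exact DifferentiableOn.add_const _
      (fun w hw => (hH w hw).differentiableAt.differentiableWithinAt)
  · intro z hz
    rw [Complex.exp_add, Complex.exp_log hne, ← hconst z hz, Complex.exp_neg]
    field_simp

theorem exists_sqrt {U : Set ℂ} (hU : SD U) {F : ℂ → ℂ} (hF : DifferentiableOn ℂ F U)
    (h0 : ∀ z ∈ U, F z ≠ 0) :
    ∃ s : ℂ → ℂ, DifferentiableOn ℂ s U ∧ ∀ z ∈ U, s z ^ 2 = F z := by
  obtain ⟨L, hL, hLF⟩ := exists_log hU hF h0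
  refine ⟨fun z => Complex.exp (L z / 2), ?_, ?_⟩
  · exact (hL.div_const 2).cexp
  · intro z hz
    rw [← Complex.exp_nat_mul, ← hLF z hz]
    congr 1
    push_cast
    ring

end Pool.Agent.LOE
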