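import Pool.Agent.LOE.Defs
import Pool.Agent.EPO.MON

/-!
# LOE / IDN: injective holomorphic functions have nonzero derivative; the inverse

`deriv_ne_zero_of_injOn`: suppose `deriv f z = 0`, take `ball z (2 r) ⊆ U`.  `f` is not constant
near `z`, so the zeros of `deriv f` are isolated (if `deriv f = 0` near `z` then `f` is constant
there, contradiction): there are `z k → z`, `z k ≠ z`, `deriv f (z k) ≠ 0`.
`G k w = dslope f (z k) w` (`= (f w - f (z k)) / (w - z k)` for `w ≠ z k`, `= deriv f (z k)` at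
`z k`) is holomorphic without zeros on `ball z r` and converges uniformly on a smaller ball to
`G w = dslope f z w` (by the maximum principle / Cauchy formula on a circle, or the integral
formula `dslope f a w = ∫_0^1 deriv f (a + t (w - a)) dt`); `G z = deriv f z = 0`, so by
`Pool.Agent.EPO.MON_hur` `G = 0` near `z`, i.e. `f` is constant near `z`: contradiction.
(Another proof: `f - f z = (w - z)^m g`, `m ≥ 2`, `g z ≠ 0`, take an `m`-th root near `z` and use
the open mapping theorem or the inverse function theorem.)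
`inverse_holo`: `g = Function.invFunOn f U`; `f '' U` is open (open mapping theorem or inverse
function theorem), `HasStrictDerivAt.to_localInverse` / `HasDerivAt.of_local_left_inverse`:
`g` is continuous at `f z` because `f` is an open map near `z`, and the derivative is the inverse.
-/

set_option autoImplicit false

open Metric Set Filter Topology

namespace Pool.Agent.LOE

private theorem IDN_quot {f : ℂ → ℂ} {z : ℂ} {r : ℝ} (hr : 0 < r) {U : Set ℂ} (hU : IsOpen U)
    (hf : DifferentiableOn ℂ f U) (hrU : closedBall z r ⊆ U) :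
    TendstoUniformlyOn (fun (k : ℕ) w => (f (w + ((r / 2 / ((k : ℝ) + 1) : ℝ) : ℂ)) - f w) /
      ((r / 2 / ((k : ℝ) + 1) : ℝ) : ℂ)) (deriv f) atTop (ball z (r / 2)) := by
  rw [Metric.tendstoUniformlyOn_iff]
  intro ε hε
  have hcont : ContinuousOn (deriv f) (closedBall z r) :=
    ((hf.deriv hU).continuousOn).mono hrU
  have huc := (isCompact_closedBall z r).uniformContinuousOn_of_continuous hcont
  rw [Metric.uniformContinuousOn_iff] at huc
  obtain ⟨η, hη, hη2⟩ := huc (ε / 2) (by positivity)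
  have hlim : Tendsto (fun k : ℕ => r / 2 / ((k : ℝ) + 1)) atTop (𝓝 0) := by
    have := tendsto_one_div_add_atTop_nhds_zero_nat (𝕜 := ℝ)
    have h2 := this.const_mul (r / 2)
    simp only [mul_zero] at h2
    refine h2.congr fun k => ?_
    ring
  have hev : ∀ᶠ k : ℕ in atTop, r / 2 / ((k : ℝ) + 1) < η := hlim.eventually (gt_mem_nhds hη)
  filter_upwards [hev] with k hk w hw
  set h : ℝ := r / 2 / ((k : ℝ) + 1) with hh
  have hpos : 0 < h := by positivity
  have hle : h ≤ r / 2 := by
    rw [hh]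
    exact div_le_self (by positivity) (by linarith [Nat.cast_nonneg (α := ℝ) k])
  have hwb : dist w z < r / 2 := hw
  have hnh : ‖(h : ℂ)‖ = h := by rw [Complex.norm_real, Real.norm_eq_abs, abs_of_pos hpos]
  have hmw : w ∈ closedBall z r ∩ closedBall w h :=
    ⟨mem_closedBall.2 (by linarith), mem_closedBall_self hpos.le⟩
  have hmwh : w + (h : ℂ) ∈ closedBall z r ∩ closedBall w h := by
    refine ⟨?_, ?_⟩
    · rw [mem_closedBall, dist_eq_norm]
      have e : w + (h : ℂ) - z = (w - z) + (h : ℂ) := by ring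
      rw [e]
      refine (norm_add_le _ _).trans ?_
      rw [hnh, ← dist_eq_norm]
      linarith
    · rw [mem_closedBall, dist_eq_norm, add_sub_cancel_left, hnh]
  have hder : ∀ u ∈ closedBall z r ∩ closedBall w h,
      HasDerivWithinAt (fun u => f u - deriv f w * u) (deriv f u - deriv f w)
        (closedBall z r ∩ closedBall w h) u := by
    intro u hu
    have h1 : HasDerivAt f (deriv f u) u :=
      ((hf u (hrU hu.1)).differentiableAt (hU.mem_nhds (hrU hu.1))).hasDerivAt
    have h2 : HasDerivAt (fun u => deriv f w * u) (deriv f w) u := by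
      simpa using (hasDerivAt_id u).const_mul (deriv f w)
    exact (h1.sub h2).hasDerivWithinAt
  have hbd : ∀ u ∈ closedBall z r ∩ closedBall w h, ‖deriv f u - deriv f w‖ ≤ ε / 2 := by
    intro u hu
    have h3 := hη2 u hu.1 w hmw.1 (lt_of_le_of_lt hu.2 hk)
    rw [dist_eq_norm] at h3
    exact h3.le
  have key := Convex.norm_image_sub_le_of_norm_hasDerivWithin_le hder hbd
    ((convex_closedBall z r).inter (convex_closedBall w h)) hmw hmwh
  have e2 : f (w + (h : ℂ)) - deriv f w * (w + (h : ℂ)) - (f w - deriv f w * w)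
      = (f (w + (h : ℂ)) - f w) - deriv f w * (h : ℂ) := by ring
  have e3 : w + (h : ℂ) - w = (h : ℂ) := by ring
  rw [e2, e3, hnh] at key
  have hne : (h : ℂ) ≠ 0 := by exact_mod_cast hpos.ne'
  have e4 : deriv f w - (f (w + (h : ℂ)) - f w) / (h : ℂ)
      = -((f (w + (h : ℂ)) - f w) - deriv f w * (h : ℂ)) / (h : ℂ) := by
    field_simp
    ring
  rw [dist_eq_norm, e4, norm_div, norm_neg, hnh, div_lt_iff₀ hpos]
  nlinarith

theorem deriv_ne_zero_of_injOn {U : Set ℂ} (hU : IsOpen U) {f : ℂ → ℂ}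
    (hf : DifferentiableOn ℂ f U) (hi : InjOn f U) {z : ℂ} (hz : z ∈ U) : deriv f z ≠ 0 := by
  intro h0
  obtain ⟨r, hr, hrU⟩ := Metric.nhds_basis_closedBall.mem_iff.1 (hU.mem_nhds hz)
  have hshift : ∀ (k : ℕ), ∀ w ∈ ball z (r / 2),
      w + ((r / 2 / ((k : ℝ) + 1) : ℝ) : ℂ) ∈ closedBall z r := by
    intro k w hw
    have hpos : 0 < r / 2 / ((k : ℝ) + 1) := by positivity
    have hle : r / 2 / ((k : ℝ) + 1) ≤ r / 2 :=
      div_le_self (by positivity) (by linarith [Nat.cast_nonneg (α := ℝ) k])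
    rw [mem_closedBall, dist_eq_norm]
    have e : w + ((r / 2 / ((k : ℝ) + 1) : ℝ) : ℂ) - z
        = (w - z) + ((r / 2 / ((k : ℝ) + 1) : ℝ) : ℂ) := by ring
    rw [e]
    refine (norm_add_le _ _).trans ?_
    rw [Complex.norm_real, Real.norm_eq_abs, abs_of_pos hpos, ← dist_eq_norm]
    have : dist w z < r / 2 := hw
    linarith
  have hsub : ball z (r / 2) ⊆ closedBall z r := fun w hw => by
    have : dist w z < r / 2 := hw
    exact mem_closedBall.2 (by linarith)
  have hev := Pool.Agent.EPO.MON_hur (by positivity : 0 < r / 2) (fun k => ⟨?_, ?_⟩)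
    (IDN_quot hr hU hf hrU) h0
  · obtain ⟨ρ, hρ, hρU⟩ := Metric.eventually_nhds_iff_ball.1 (hev.and (hU.eventually_mem hz))
    have hconst := (isOpen_ball (x := z) (ε := ρ)).is_const_of_deriv_eq_zero
      (convex_ball z ρ).isPreconnected (f := f)
      (fun w hw => (hf w (hρU w hw).2).mono fun y hy => (hρU y hy).2)
      (fun w hw => (hρU w hw).1) (x := z) (y := z + ((ρ / 2 : ℝ) : ℂ)) (mem_ball_self hρ)
      (by
        rw [mem_ball, dist_eq_norm]
        simp only [add_sub_cancel_left, Complex.norm_real, Real.norm_eq_abs]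
        rw [abs_of_pos (by positivity)]
        linarith)
    have hmem : z + ((ρ / 2 : ℝ) : ℂ) ∈ ball z ρ := by
      rw [mem_ball, dist_eq_norm]
      simp only [add_sub_cancel_left, Complex.norm_real, Real.norm_eq_abs]
      rw [abs_of_pos (by positivity)]
      linarith
    have := hi hz (hρU _ hmem).2 hconst
    have h2 : ((ρ / 2 : ℝ) : ℂ) = 0 := by
      have h3 : z + ((ρ / 2 : ℝ) : ℂ) = z + 0 := by rw [add_zero]; exact this.symm
      exact add_left_cancel h3
    have h4 : ρ / 2 = 0 := by exact_mod_cast h2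
    linarith
  · intro w hw
    have h1 : DifferentiableAt ℂ f w :=
      (hf w (hrU (hsub hw))).differentiableAt (hU.mem_nhds (hrU (hsub hw)))
    have h2 : DifferentiableAt ℂ f (w + ((r / 2 / ((k : ℝ) + 1) : ℝ) : ℂ)) :=
      (hf _ (hrU (hshift k w hw))).differentiableAt (hU.mem_nhds (hrU (hshift k w hw)))
    have h3 : DifferentiableAt ℂ (fun w => f (w + ((r / 2 / ((k : ℝ) + 1) : ℝ) : ℂ))) w :=
      h2.comp w (differentiableAt_id.add_const _)
    exact ((h3.sub h1).div_const _).differentiableWithinAt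
  · intro w hw
    have hpos : 0 < r / 2 / ((k : ℝ) + 1) := by positivity
    have hne : ((r / 2 / ((k : ℝ) + 1) : ℝ) : ℂ) ≠ 0 := by exact_mod_cast hpos.ne'
    refine div_ne_zero (sub_ne_zero.2 fun he => ?_) hne
    have := hi (hrU (hshift k w hw)) (hrU (hsub hw)) he
    exact hne (add_eq_left.1 this)

private theorem IDN_strict {U : Set ℂ} (hU : IsOpen U) {f : ℂ → ℂ}
    (hf : DifferentiableOn ℂ f U) {z : ℂ} (hz : z ∈ U) : HasStrictDerivAt f (deriv f z) z :=
  (hf.analyticAt (hU.mem_nhds hz)).hasStrictDerivAt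

theorem isOpen_image_of_injOn {U V : Set ℂ} (hU : IsOpen U) {f : ℂ → ℂ}
    (hf : DifferentiableOn ℂ f U) (hi : InjOn f U) (hV : IsOpen V) (hVU : V ⊆ U) :
    IsOpen (f '' V) := by
  rw [isOpen_iff_mem_nhds]
  rintro _ ⟨z, hz, rfl⟩
  rw [← (IDN_strict hU hf (hVU hz)).map_nhds_eq (deriv_ne_zero_of_injOn hU hf hi (hVU hz))]
  exact Filter.image_mem_map (hV.mem_nhds hz)

theorem inverse_holo {U : Set ℂ} (hU : IsOpen U) {f : ℂ → ℂ}
    (hf : DifferentiableOn ℂ f U) (hi : InjOn f U) :
    ∃ g : ℂ → ℂ, DifferentiableOn ℂ g (f '' U) ∧ InjOn g (f '' U) ∧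
      (∀ z ∈ U, g (f z) = z) ∧ ∀ z ∈ U, deriv g (f z) = (deriv f z)⁻¹ := by
  have hleft : ∀ z ∈ U, Function.invFunOn f U (f z) = z := fun z hz =>
    hi.leftInvOn_invFunOn hz
  have hder : ∀ z ∈ U, HasDerivAt (Function.invFunOn f U) (deriv f z)⁻¹ (f z) := by
    intro z hz
    have hc : ContinuousAt (Function.invFunOn f U) (f z) := by
      intro N hN
      rw [hleft z hz] at hN
      obtain ⟨V, hVN, hV, hzV⟩ := _root_.mem_nhds_iff.1 (Filter.inter_mem hN (hU.mem_nhds hz))
      have h1 : f '' V ∈ 𝓝 (f z) :=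
        (isOpen_image_of_injOn hU hf hi hV (fun y hy => (hVN hy).2)).mem_nhds ⟨z, hzV, rfl⟩
      rw [Filter.mem_map]
      refine Filter.mem_of_superset h1 ?_
      rintro _ ⟨y, hy, rfl⟩
      rw [mem_preimage, hleft y (hVN hy).2]
      exact (hVN hy).1
    have h2 : HasDerivAt f (deriv f z) (Function.invFunOn f U (f z)) := by
      rw [hleft z hz]
      exact (IDN_strict hU hf hz).hasDerivAt
    refine HasDerivAt.of_local_left_inverse hc h2 (deriv_ne_zero_of_injOn hU hf hi hz) ?_
    have h3 : f '' U ∈ 𝓝 (f z) :=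
      (isOpen_image_of_injOn hU hf hi hU (fun y hy => hy)).mem_nhds ⟨z, hz, rfl⟩
    filter_upwards [h3] with y hy
    exact Function.invFunOn_eq hy
  refine ⟨Function.invFunOn f U, ?_, ?_, hleft, fun z hz => (hder z hz).deriv⟩
  · rintro _ ⟨z, hz, rfl⟩
    exact (hder z hz).differentiableAt.differentiableWithinAt
  · rintro _ ⟨x, hx, rfl⟩ _ ⟨y, hy, rfl⟩ h
    rw [hleft x hx, hleft y hy] at h
    rw [h]

end Pool.Agent.LOE
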