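import Mathlib
import Pool.Agent.Helper42.KoebeDefs

/-!
# LOE: Loewner chains without slit maps.  Definitions
-/

set_option autoImplicit false

open Metric Set Filter Topology

namespace Pool.Agent.LOE

/-- The open unit disc. -/
def Dk : Set ℂ := ball 0 1

/-- Bounded connected open sets with connected complement. -/
structure SD (U : Set ℂ) : Prop where
  isOpen : IsOpen U
  conn : IsPreconnected U
  bdd : Bornology.IsBounded U
  compl : IsPreconnected Uᶜ

/-- Injective holomorphic self maps of the disc fixing `0` with positive derivative there. -/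
structure UM (f : ℂ → ℂ) : Prop where
  diff : DifferentiableOn ℂ f Dk
  inj : InjOn f Dk
  maps : MapsTo f Dk Dk
  zero : f 0 = 0
  pos : ∃ a : ℝ, 0 < a ∧ deriv f 0 = (a : ℂ)

/-- `φ = ψ ∘ χ` on the disc, all three in `UM`. -/
def Fac (φ ψ χ : ℂ → ℂ) : Prop := UM ψ ∧ UM χ ∧ ∀ z ∈ Dk, φ z = ψ (χ z)

/-- Caratheodory functions. -/
structure Carath (p : ℂ → ℂ) : Prop where
  diff : DifferentiableOn ℂ p Dk
  one : p 0 = 1
  pos : ∀ z ∈ Dk, 0 < (p z).re

/-- The `k`-th Taylor coefficient at `0`. -/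
noncomputable def coef (k : ℕ) (g : ℂ → ℂ) : ℂ := iteratedDeriv k g 0 / (k.factorial : ℂ)

/-- The Taylor coefficients `a_2, ..., a_(n+1)`. -/
noncomputable def cf (n : ℕ) (g : ℂ → ℂ) : Fin n → ℂ := fun i => coef ((i : ℕ) + 2) g

/-- The velocity `z g' p - g`. -/
noncomputable def vel (g p : ℂ → ℂ) : ℂ → ℂ := fun z => z * deriv g z * p z - g z

/-- The filled hull of a set `V ⊆ Dk`: the complement of the component of `1` in the
complement of `V`. -/
def hull (V : Set ℂ) : Set ℂ := (connectedComponentIn Vᶜ 1)ᶜ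

/-- The `∂̄` derivative. -/
noncomputable def dbar (g : ℂ → ℂ) (z : ℂ) : ℂ :=
  (fderiv ℝ g z 1 + Complex.I * fderiv ℝ g z Complex.I) / 2

end Pool.Agent.LOE
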