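import Pool.Agent.LOE.TRN
import Pool.Agent.LOE.VEL

/-!
# LOE / HGZ: Herglotz: real linear inequalities for Caratheodory functions

For `0 < ρ < 1` and `k ≥ 1`: `coef k p * ρ ^ k = (1 / π) ∫_0^{2π} Re p (ρ e^{iθ}) e^{-ikθ} dθ`
(Cauchy formula for `p`, and `∫ conj p (ρ e^{iθ}) e^{-ikθ} dθ = 0` for `k ≥ 1`), and
`(1 / 2π) ∫ Re p (ρ e^{iθ}) dθ = 1`.  So
`A + Re ∑ B_k coef (k+1) p ρ^(k+1)
 = (1 / 2π) ∫ Re p (ρ e^{iθ}) (A + Re ∑ B_k 2 κ^(k+1)) dθ ≥ 0`, `κ = e^{-iθ}`.  Let `ρ → 1`.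
-/

set_option autoImplicit false

open Metric Set Filter Topology

namespace Pool.Agent.LOE

private theorem HGZ_sub {ρ : ℝ} (h1 : ρ < 1) : closedBall (0 : ℂ) ρ ⊆ Dk := by
  intro z hz
  have : ‖z‖ ≤ ρ := by simpa using hz
  simpa [Dk] using lt_of_le_of_lt this h1

private theorem HGZ_cm_ne {ρ : ℝ} (h0 : 0 < ρ) (θ : ℝ) : circleMap 0 ρ θ ≠ 0 :=
  circleMap_ne_center h0.ne'

/-- Cauchy formula for the coefficient -/
private theorem HGZ_coef {p : ℂ → ℂ} (hp : DifferentiableOn ℂ p Dk) {ρ : ℝ} (h0 : 0 < ρ)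
    (h1 : ρ < 1) (k : ℕ) :
    ∫ θ in (0 : ℝ)..2 * Real.pi, p (circleMap 0 ρ θ) * ((circleMap 0 ρ θ)⁻¹) ^ k =
      2 * Real.pi * coef k p := by
  have h := DifferentiableOn.circleIntegral_one_div_sub_center_pow_smul h0 k
    (hp.mono (HGZ_sub h1))
  rw [circleIntegral] at h
  have h2 : ∀ θ : ℝ, deriv (circleMap 0 ρ) θ • (1 / (circleMap 0 ρ θ - 0) ^ (k + 1)) •
      p (circleMap 0 ρ θ) = Complex.I * (p (circleMap 0 ρ θ) * ((circleMap 0 ρ θ)⁻¹) ^ k) := by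
    intro θ
    have hne := HGZ_cm_ne h0 θ
    rw [deriv_circleMap]
    simp only [smul_eq_mul, sub_zero, one_div, inv_pow]
    rw [pow_succ, mul_inv]
    field_simp
  simp only [h2] at h
  rw [intervalIntegral.integral_const_mul] at h
  have hI : Complex.I ≠ 0 := Complex.I_ne_zero
  apply mul_left_cancel₀ hI
  rw [h]
  simp only [smul_eq_mul, coef]
  ring

private theorem HGZ_zero {p : ℂ → ℂ} (hp : DifferentiableOn ℂ p Dk) {ρ : ℝ} (h0 : 0 < ρ)
    (h1 : ρ < 1) (k : ℕ) (hk : k ≠ 0) :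
    ∫ θ in (0 : ℝ)..2 * Real.pi, p (circleMap 0 ρ θ) * (circleMap 0 ρ θ) ^ k = 0 := by
  have hd : DifferentiableOn ℂ (fun z => p z * z ^ k) Dk :=
    hp.mul (differentiable_pow k).differentiableOn
  have h := HGZ_coef hd h0 h1 0
  simp only [pow_zero, mul_one] at h
  rw [h]
  simp [coef, hk]

private theorem HGZ_cont {p : ℂ → ℂ} (hp : DifferentiableOn ℂ p Dk) {ρ : ℝ} (h0 : 0 < ρ)
    (h1 : ρ < 1) : Continuous (fun θ : ℝ => p (circleMap 0 ρ θ)) := by
  rw [← continuousOn_univ]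
  refine hp.continuousOn.comp (continuous_circleMap 0 ρ).continuousOn fun θ _ => ?_
  exact HGZ_sub h1 (sphere_subset_closedBall (circleMap_mem_sphere 0 h0.le θ))

/-- the kernel identity for one power -/
private theorem HGZ_one {p : ℂ → ℂ} (hp : DifferentiableOn ℂ p Dk) {ρ : ℝ} (h0 : 0 < ρ)
    (h1 : ρ < 1) (k : ℕ) (hk : k ≠ 0) :
    ∫ θ in (0 : ℝ)..2 * Real.pi, ((p (circleMap 0 ρ θ)).re : ℂ) *
      (2 * ((ρ : ℂ) * (circleMap 0 ρ θ)⁻¹) ^ k) = 2 * Real.pi * (ρ ^ k * coef k p) := by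
  have hc := HGZ_cont hp h0 h1
  have hcm : Continuous (fun θ : ℝ => circleMap 0 ρ θ) := continuous_circleMap 0 ρ
  have hci : Continuous (fun θ : ℝ => (circleMap 0 ρ θ)⁻¹) := hcm.inv₀ (HGZ_cm_ne h0)
  have hid : ∀ θ : ℝ, ((p (circleMap 0 ρ θ)).re : ℂ) *
      (2 * ((ρ : ℂ) * (circleMap 0 ρ θ)⁻¹) ^ k) =
      (ρ : ℂ) ^ k * (p (circleMap 0 ρ θ) * ((circleMap 0 ρ θ)⁻¹) ^ k) +
      ((ρ : ℂ) ^ k)⁻¹ * (starRingEnd ℂ) (p (circleMap 0 ρ θ) * (circleMap 0 ρ θ) ^ k) := by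
    intro θ
    have hne := HGZ_cm_ne h0 θ
    have hρ : (ρ : ℂ) ≠ 0 := by exact_mod_cast h0.ne'
    have hre : ((p (circleMap 0 ρ θ)).re : ℂ) =
        (p (circleMap 0 ρ θ) + (starRingEnd ℂ) (p (circleMap 0 ρ θ))) / 2 := by
      rw [Complex.re_eq_add_conj]
    have hnorm : circleMap 0 ρ θ * (starRingEnd ℂ) (circleMap 0 ρ θ) = (ρ : ℂ) ^ 2 := by
      rw [Complex.mul_conj, Complex.normSq_eq_norm_sq, norm_circleMap_zero, abs_of_pos h0]
      push_cast; ring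
    have hconj : (starRingEnd ℂ) (circleMap 0 ρ θ) = (ρ : ℂ) ^ 2 * (circleMap 0 ρ θ)⁻¹ := by
      field_simp
      rw [mul_comm]; exact hnorm
    rw [map_mul, map_pow, hconj, hre]
    field_simp
    ring
  simp only [hid]
  rw [intervalIntegral.integral_add, intervalIntegral.integral_const_mul,
    intervalIntegral.integral_const_mul, intervalIntegral.intervalIntegral_conj, HGZ_coef hp h0 h1 k,
    HGZ_zero hp h0 h1 k hk]
  · simp only [map_zero, mul_zero, add_zero]; ring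
  · exact (continuous_const.mul (hc.mul (hci.pow k))).intervalIntegrable _ _
  · exact (continuous_const.mul (Complex.continuous_conj.comp
      (hc.mul (hcm.pow k)))).intervalIntegrable _ _

private theorem HGZ_re {p : ℂ → ℂ} (hp : Carath p) {ρ : ℝ} (h0 : 0 < ρ) (h1 : ρ < 1) :
    ∫ θ in (0 : ℝ)..2 * Real.pi, ((p (circleMap 0 ρ θ)).re : ℂ) = 2 * Real.pi := by
  have hc := HGZ_cont hp.diff h0 h1
  have h := HGZ_coef hp.diff h0 h1 0
  simp only [pow_zero, mul_one] at h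
  have hc0 : coef 0 p = 1 := by simp [coef, hp.one]
  rw [hc0, mul_one] at h
  have hid : ∀ θ : ℝ, ((p (circleMap 0 ρ θ)).re : ℂ) =
      (1 / 2 : ℂ) * p (circleMap 0 ρ θ) + (1 / 2 : ℂ) * (starRingEnd ℂ) (p (circleMap 0 ρ θ)) := by
    intro θ
    rw [Complex.re_eq_add_conj]; ring
  simp only [hid]
  rw [intervalIntegral.integral_add, intervalIntegral.integral_const_mul,
    intervalIntegral.integral_const_mul, intervalIntegral.intervalIntegral_conj, h]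
  · simp only [map_mul, Complex.conj_ofReal, map_ofNat]; ring
  · exact (continuous_const.mul hc).intervalIntegrable _ _
  · exact (continuous_const.mul (Complex.continuous_conj.comp hc)).intervalIntegrable _ _

private theorem HGZ_rho (n : ℕ) (A : ℝ) (B : Fin n → ℂ)
    (h : ∀ κ : ℂ, ‖κ‖ = 1 → 0 ≤ A + (∑ k : Fin n, B k * (2 * κ ^ ((k : ℕ) + 1))).re)
    {p : ℂ → ℂ} (hp : Carath p) {ρ : ℝ} (h0 : 0 < ρ) (h1 : ρ < 1) :
    0 ≤ A + (∑ k : Fin n, B k * ((ρ : ℂ) ^ ((k : ℕ) + 1) * coef ((k : ℕ) + 1) p)).re := by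
  have hc := HGZ_cont hp.diff h0 h1
  have hcm : Continuous (fun θ : ℝ => circleMap 0 ρ θ) := continuous_circleMap 0 ρ
  have hci : Continuous (fun θ : ℝ => (circleMap 0 ρ θ)⁻¹) := hcm.inv₀ (HGZ_cm_ne h0)
  have hcr : Continuous (fun θ : ℝ => ((p (circleMap 0 ρ θ)).re : ℂ)) :=
    Complex.continuous_ofReal.comp (Complex.continuous_re.comp hc)
  -- the integrand
  set F : ℝ → ℂ := fun θ => ((p (circleMap 0 ρ θ)).re : ℂ) *
    ((A : ℂ) + ∑ k : Fin n, B k * (2 * ((ρ : ℂ) * (circleMap 0 ρ θ)⁻¹) ^ ((k : ℕ) + 1))) with hF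
  have hFi : ∫ θ in (0 : ℝ)..2 * Real.pi, F θ =
      2 * Real.pi * ((A : ℂ) + ∑ k : Fin n, B k * ((ρ : ℂ) ^ ((k : ℕ) + 1) *
        coef ((k : ℕ) + 1) p)) := by
    have hid : ∀ θ, F θ = (A : ℂ) * ((p (circleMap 0 ρ θ)).re : ℂ) +
        ∑ k : Fin n, B k * (((p (circleMap 0 ρ θ)).re : ℂ) *
          (2 * ((ρ : ℂ) * (circleMap 0 ρ θ)⁻¹) ^ ((k : ℕ) + 1))) := by
      intro θ
      simp only [hF, mul_add, Finset.mul_sum]
      rw [mul_comm (A : ℂ)]
      congr 1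
      exact Finset.sum_congr rfl fun k _ => by ring
    simp only [hid]
    have hint : ∀ k : Fin n, Continuous fun θ : ℝ => B k * (((p (circleMap 0 ρ θ)).re : ℂ) *
        (2 * ((ρ : ℂ) * (circleMap 0 ρ θ)⁻¹) ^ ((k : ℕ) + 1))) := fun k =>
      continuous_const.mul (hcr.mul (continuous_const.mul ((continuous_const.mul hci).pow _)))
    rw [intervalIntegral.integral_add, intervalIntegral.integral_const_mul, HGZ_re hp h0 h1,
      intervalIntegral.integral_finsetSum]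
    · simp only [intervalIntegral.integral_const_mul]
      have : ∀ k : Fin n, ∫ θ in (0 : ℝ)..2 * Real.pi, ((p (circleMap 0 ρ θ)).re : ℂ) *
          (2 * ((ρ : ℂ) * (circleMap 0 ρ θ)⁻¹) ^ ((k : ℕ) + 1)) =
          2 * Real.pi * (ρ ^ ((k : ℕ) + 1) * coef ((k : ℕ) + 1) p) :=
        fun k => HGZ_one hp.diff h0 h1 _ (Nat.succ_ne_zero _)
      simp only [this, mul_add, Finset.mul_sum]
      rw [mul_comm (A : ℂ)]
      congr 1
      exact Finset.sum_congr rfl fun k _ => by ring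
    · intro k _
      exact (hint k).intervalIntegrable _ _
    · exact (continuous_const.mul hcr).intervalIntegrable _ _
    · exact (continuous_finsetSum _ fun k _ => hint k).intervalIntegrable _ _
  have hFc : Continuous F := hcr.mul (continuous_const.add (continuous_finsetSum _ fun k _ =>
    continuous_const.mul (continuous_const.mul ((continuous_const.mul hci).pow _))))
  have hRe : ∫ θ in (0 : ℝ)..2 * Real.pi, (F θ).re =
      (∫ θ in (0 : ℝ)..2 * Real.pi, F θ).re :=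
    Complex.reCLM.intervalIntegral_comp_comm (hFc.intervalIntegrable _ _)
  have hnn : 0 ≤ ∫ θ in (0 : ℝ)..2 * Real.pi, (F θ).re := by
    apply intervalIntegral.integral_nonneg (by positivity)
    intro θ _
    simp only [hF]
    rw [Complex.re_ofReal_mul, Complex.add_re, Complex.ofReal_re]
    apply mul_nonneg
    · exact (hp.pos _ (HGZ_sub h1 (sphere_subset_closedBall
        (circleMap_mem_sphere 0 h0.le θ)))).le
    · apply h
      rw [norm_mul, norm_inv, norm_circleMap_zero, abs_of_pos h0, Complex.norm_real,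
        Real.norm_of_nonneg h0.le]
      exact mul_inv_cancel₀ h0.ne'
  rw [hRe, hFi] at hnn
  have h2 : (2 * (Real.pi : ℂ) * ((A : ℂ) + ∑ k : Fin n, B k * ((ρ : ℂ) ^ ((k : ℕ) + 1) *
        coef ((k : ℕ) + 1) p))).re = 2 * Real.pi * (A + (∑ k : Fin n, B k *
        ((ρ : ℂ) ^ ((k : ℕ) + 1) * coef ((k : ℕ) + 1) p)).re) := by
    have : (2 * (Real.pi : ℂ)) = ((2 * Real.pi : ℝ) : ℂ) := by push_cast; ring
    rw [this, Complex.re_ofReal_mul, Complex.add_re, Complex.ofReal_re]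
  rw [h2] at hnn
  exact nonneg_of_mul_nonneg_right hnn (by positivity)

theorem herglotz_nonneg (n : ℕ) (A : ℝ) (B : Fin n → ℂ)
    (h : ∀ κ : ℂ, ‖κ‖ = 1 → 0 ≤ A + (∑ k : Fin n, B k * (2 * κ ^ ((k : ℕ) + 1))).re)
    {p : ℂ → ℂ} (hp : Carath p) :
    0 ≤ A + (∑ k : Fin n, B k * coef ((k : ℕ) + 1) p).re := by
  have hcont : Continuous fun ρ : ℝ => A + (∑ k : Fin n, B k * ((ρ : ℂ) ^ ((k : ℕ) + 1) *
      coef ((k : ℕ) + 1) p)).re := by
    refine continuous_const.add (Complex.continuous_re.comp (continuous_finsetSum _ fun k _ => ?_))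
    exact continuous_const.mul ((Complex.continuous_ofReal.pow _).mul continuous_const)
  have ht : Tendsto (fun ρ : ℝ => A + (∑ k : Fin n, B k * ((ρ : ℂ) ^ ((k : ℕ) + 1) *
      coef ((k : ℕ) + 1) p)).re) (𝓝[<] 1) (𝓝 (A + (∑ k : Fin n, B k * (((1 : ℝ) : ℂ) ^
      ((k : ℕ) + 1) * coef ((k : ℕ) + 1) p)).re)) :=
    (hcont.tendsto 1).mono_left nhdsWithin_le_nhds
  have hev : ∀ᶠ ρ : ℝ in 𝓝[<] 1, 0 ≤ A + (∑ k : Fin n, B k * ((ρ : ℂ) ^ ((k : ℕ) + 1) *
      coef ((k : ℕ) + 1) p)).re := by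
    filter_upwards [Ioo_mem_nhdsLT (show (0 : ℝ) < 1 from one_pos)] with ρ hρ
    exact HGZ_rho n A B h hp hρ.1 hρ.2
  have := ge_of_tendsto ht hev
  simpa using this

end Pool.Agent.LOE
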