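import Pool.Agent.LOE.LPD
import Pool.Agent.LOE.HGZ

/-!
# LOE / LPK: the Loewner principle with kernels

`loewner_principle`; for fixed `t, g` the real number `Φ' (t, cf n g) (1, cf n (vel g p))` is an
affine function `A + Re ∑_{k < n+1} B_k coef (k+1) p` (`coef_vel`; a real linear functional on
`Fin n → ℂ` is `c ↦ Re ∑ b_i c_i`), for `p` = kernel (which is a Caratheodory function, needs only
`coef_kernel`) it is nonnegative by hypothesis; `herglotz_nonneg`.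
-/

set_option autoImplicit false

open Metric Set Filter Topology
open Pool.Agent.Helper42.KoebeMeans (ClassS)

namespace Pool.Agent.LOE

private theorem lpk_lin {n : ℕ} (L : ℝ × (Fin n → ℂ) →L[ℝ] ℝ) :
    ∃ b : Fin n → ℂ, ∀ c : Fin n → ℂ, L (0, c) = (∑ i, b i * c i).re := by
  refine ⟨fun i => (L (0, Pi.single i 1) : ℂ) - Complex.I * (L (0, Pi.single i Complex.I) : ℂ),
    fun c => ?_⟩
  have h1 : ((0 : ℝ), c) = ∑ i, ((c i).re • ((0 : ℝ), (Pi.single i 1 : Fin n → ℂ)) +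
      (c i).im • ((0 : ℝ), (Pi.single i Complex.I : Fin n → ℂ))) := by
    refine Prod.ext ?_ ?_
    · simp [Prod.fst_sum]
    · rw [Prod.snd_sum]
      funext j
      simp only [Prod.snd_add, Prod.smul_snd, Finset.sum_apply, Pi.add_apply, Pi.smul_apply]
      rw [Finset.sum_eq_single j]
      · simp
      · intro i _ hij
        simp [Pi.single_eq_of_ne hij.symm]
      · intro h
        exact absurd (Finset.mem_univ j) h
  rw [h1, map_sum, Complex.re_sum]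
  refine Finset.sum_congr rfl fun i _ => ?_
  rw [map_add, map_smul, map_smul]
  simp only [smul_eq_mul, Complex.mul_re, Complex.sub_re, Complex.sub_im, Complex.ofReal_re,
    Complex.ofReal_im, Complex.I_re, Complex.I_im, Complex.mul_im]
  ring

private theorem lpk_sum (a q : ℕ → ℂ) (hq : q 0 = 1) (n i : ℕ) (hi : i < n) :
    ∑ j ∈ Finset.range (i + 2 + 1), (j : ℂ) * a j * q (i + 2 - j) - a (i + 2) =
      (((i + 2 : ℕ) : ℂ) * a (i + 2) - a (i + 2)) +
        ∑ k : Fin n, (((i + 1 - (k : ℕ) : ℕ) : ℂ) * a (i + 1 - (k : ℕ))) * q ((k : ℕ) + 1) := by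
  have h1 : ∑ j ∈ Finset.range (i + 2 + 1), (j : ℂ) * a j * q (i + 2 - j) =
      ∑ m ∈ Finset.range (i + 2 + 1), ((i + 2 - m : ℕ) : ℂ) * a (i + 2 - m) * q m := by
    rw [← Finset.sum_range_reflect]
    refine Finset.sum_congr rfl fun m hm => ?_
    have hm' : m ≤ i + 2 := Nat.lt_succ_iff.1 (Finset.mem_range.1 hm)
    have e1 : i + 2 + 1 - 1 - m = i + 2 - m := by omega
    have e2 : i + 2 - (i + 2 - m) = m := by omega
    rw [e1, e2]
  have h2 : ∑ m ∈ Finset.range (i + 2), ((i + 1 - m : ℕ) : ℂ) * a (i + 1 - m) * q (m + 1) =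
      ∑ k ∈ Finset.range n, ((i + 1 - k : ℕ) : ℂ) * a (i + 1 - k) * q (k + 1) := by
    have key : ∀ N, i + 1 ≤ N →
        ∑ m ∈ Finset.range N, ((i + 1 - m : ℕ) : ℂ) * a (i + 1 - m) * q (m + 1) =
        ∑ m ∈ Finset.range (i + 1), ((i + 1 - m : ℕ) : ℂ) * a (i + 1 - m) * q (m + 1) := by
      intro N hN
      symm
      apply Finset.sum_subset
      · intro x hx
        rw [Finset.mem_range] at hx ⊢
        omega
      · intro x _ hx
        have hx' : i + 1 - x = 0 := by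
          rw [Finset.mem_range] at hx
          omega
        rw [hx']
        simp
    rw [key (i + 2) (by omega), key n (by omega)]
  rw [h1, Finset.sum_range_succ']
  have h3 : ∀ m, i + 2 - (m + 1) = i + 1 - m := fun m => by omega
  simp only [h3]
  rw [h2, hq, Fin.sum_univ_eq_sum_range
    (fun k => ((i + 1 - k : ℕ) : ℂ) * a (i + 1 - k) * q (k + 1)) n]
  simp only [Nat.sub_zero, mul_one]
  ring

private theorem lpk_affine {n : ℕ} (L : ℝ × (Fin n → ℂ) →L[ℝ] ℝ) {g : ℂ → ℂ}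
    (hg : DifferentiableOn ℂ g Dk) :
    ∃ (A : ℝ) (B : Fin n → ℂ), ∀ p : ℂ → ℂ, DifferentiableOn ℂ p Dk → coef 0 p = 1 →
      L (1, cf n (vel g p)) = A + (∑ k : Fin n, B k * coef ((k : ℕ) + 1) p).re := by
  obtain ⟨b, hb⟩ := lpk_lin L
  refine ⟨L (1, fun i => (((i : ℕ) + 2 : ℕ) : ℂ) * coef ((i : ℕ) + 2) g - coef ((i : ℕ) + 2) g),
    fun k => ∑ i : Fin n, b i * ((((i : ℕ) + 1 - (k : ℕ) : ℕ) : ℂ) *
      coef ((i : ℕ) + 1 - (k : ℕ)) g), fun p hp hp0 => ?_⟩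
  have h1 : ((1 : ℝ), cf n (vel g p)) =
      ((1 : ℝ), fun i : Fin n => (((i : ℕ) + 2 : ℕ) : ℂ) * coef ((i : ℕ) + 2) g -
        coef ((i : ℕ) + 2) g) +
      ((0 : ℝ), fun i : Fin n => ∑ k : Fin n, ((((i : ℕ) + 1 - (k : ℕ) : ℕ) : ℂ) *
        coef ((i : ℕ) + 1 - (k : ℕ)) g) * coef ((k : ℕ) + 1) p) := by
    refine Prod.ext ?_ ?_
    · simp
    · funext i
      simp only [Prod.snd_add, Pi.add_apply]
      unfold cf
      rw [coef_vel hg hp]
      exact lpk_sum (fun j => coef j g) (fun j => coef j p) hp0 n i i.2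
  rw [h1, map_add, hb]
  congr 2
  simp only [Finset.mul_sum, Finset.sum_mul]
  rw [Finset.sum_comm]
  refine Finset.sum_congr rfl fun k _ => Finset.sum_congr rfl fun i _ => ?_
  ring

private theorem lpk_kernel_diff {κ : ℂ} (hκ : ‖κ‖ = 1) :
    DifferentiableOn ℂ (fun z => (1 + κ * z) / (1 - κ * z)) Dk := by
  have hne : ∀ z ∈ Dk, 1 - κ * z ≠ 0 := by
    intro z hz h
    have h1 : κ * z = 1 := (sub_eq_zero.1 h).symm
    have h2 : ‖z‖ = 1 := by
      have h3 := congrArg norm h1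
      rw [norm_mul, hκ, one_mul, norm_one] at h3
      exact h3
    unfold Dk at hz
    rw [mem_ball_zero_iff] at hz
    linarith
  refine DifferentiableOn.div ?_ ?_ hne
  · exact (differentiableOn_const 1).add (differentiableOn_id.const_mul κ)
  · exact (differentiableOn_const 1).sub (differentiableOn_id.const_mul κ)

theorem loewner_principle_kernel (n : ℕ) {T : ℝ} (hT : 0 < T) (Φ : ℝ × (Fin n → ℂ) → ℝ)
    (Φ' : ℝ × (Fin n → ℂ) → (ℝ × (Fin n → ℂ) →L[ℝ] ℝ))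
    (hΦ : ∀ x ∈ Icc (0 : ℝ) T ×ˢ (univ : Set (Fin n → ℂ)),
      HasFDerivWithinAt Φ (Φ' x) (Icc (0 : ℝ) T ×ˢ univ) x)
    (hΦ' : ContinuousOn Φ' (Icc (0 : ℝ) T ×ˢ univ))
    (hm : ∀ t ∈ Icc (0 : ℝ) T, ∀ g : ℂ → ℂ, ClassS g →
      (∀ z ∈ Dk, ‖g z‖ < Real.exp (T - t)) → ∀ κ : ℂ, ‖κ‖ = 1 →
      0 ≤ Φ' (t, cf n g) (1, cf n (vel g (fun z => (1 + κ * z) / (1 - κ * z)))))
    {f : ℂ → ℂ} (hf : ClassS f) (hb : ∀ z ∈ Dk, ‖f z‖ < Real.exp T) :
    Φ (0, cf n f) ≤ Φ (T, 0) := by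
  refine loewner_principle n hT Φ Φ' hΦ hΦ' ?_ hf hb
  intro t ht g hg hgb p hp
  have hgd : DifferentiableOn ℂ g Dk := hg.1
  obtain ⟨A, B, hAB⟩ := lpk_affine (Φ' (t, cf n g)) hgd
  have hp0 : coef 0 p = 1 := by
    unfold coef
    simp [hp.one]
  rw [hAB p hp.diff hp0]
  refine herglotz_nonneg n A B ?_ hp
  intro κ hκ
  have h1 := hm t ht g hg hgb κ hκ
  rw [hAB _ (lpk_kernel_diff hκ) (by rw [coef_kernel hκ]; simp)] at h1
  simpa [coef_kernel hκ] using h1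

end Pool.Agent.LOE
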