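import Pool.Agent.LOE.IDN

/-!
# LOE / CCN: the complement of a bounded univalent image is connected

(a) For `0 < r < 1` the set `C r = (f '' ball 0 r)ᶜ` is preconnected.  `K = f '' closedBall 0 r` is
compact, `G = Kᶜ` is open.  The set `A = f '' {z | r < ‖z‖ < 1}` is preconnected (image of an
annulus, which is preconnected), `A = f '' Dk \ K` by injectivity, and `A ⊆ G`.
`G` is preconnected: suppose `G = P ∪ Q`, disjoint open, `Q` nonempty, `A ⊆ P` (one of the two
contains `A`); then `Q` is open, and `Q ≠ univ`, so (`ℂ` is connected, `Q` not closed) there is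
`x ∈ closure Q \ Q`; `x ∉ P` (`P` is open and disjoint from `Q`), so `x ∈ K ⊆ f '' Dk`, which is
open (`isOpen_image_of_injOn`), so it meets `Q` in a point of `f '' Dk \ K = A ⊆ P`:
contradiction.  Finally `G ⊆ C r ⊆ closure G` (a point of `C r \ G` is `f z` with `‖z‖ = r`, the
limit of `f ((1 + 1 / n) z)`), so `C r` is preconnected (`IsPreconnected.subset_closure`).
(b) Let `R` be with `f '' Dk ⊆ ball 0 R`.  For a closed preconnected `C ⊇ {w | R ≤ ‖w‖}` the
compact set `C ∩ closedBall 0 R` is preconnected: if it is a disjoint union of two closed sets, the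
sphere of radius `R` (preconnected) lies in one of them, `P`, and then
`C = (P ∪ {w | R ≤ ‖w‖}) ∪ Q`.
(c) `(f '' Dk)ᶜ ∩ closedBall 0 R = ⋂ n, C (1 - 1 / (n + 2)) ∩ closedBall 0 R` is a decreasing
intersection of compact preconnected sets, hence preconnected (if it is covered by two disjoint
closed sets, take disjoint open neighbourhoods; by compactness some member of the sequence is
covered; or Mathlib's `IsPreconnected` of directed intersections of compact sets if it exists).
(d) `(f '' Dk)ᶜ` is the union of this set and `{w | R ≤ ‖w‖}` (preconnected, complement of a ball: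
`isPreconnected_compl_ball...` / `isConnected_compl_...` for real dimension > 1, or the image of a
product under polar coordinates), with a common point.
-/

set_option autoImplicit false

open Metric Set Filter Topology

namespace Pool.Agent.LOE

private theorem ccn_polar {s : Set ℝ} (hs : IsPreconnected s) (h0 : ∀ x ∈ s, 0 ≤ x) :
    IsPreconnected {w : ℂ | ‖w‖ ∈ s} := by
  have h1 : {w : ℂ | ‖w‖ ∈ s} =
      (fun p : ℝ × ℝ => (p.1 : ℂ) * Complex.exp (p.2 * Complex.I)) '' (s ×ˢ (univ : Set ℝ)) := by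
    ext w
    constructor
    · intro hw
      exact ⟨(‖w‖, Complex.arg w), ⟨hw, trivial⟩, Complex.norm_mul_exp_arg_mul_I w⟩
    · rintro ⟨⟨r, θ⟩, ⟨hr, -⟩, rfl⟩
      change ‖(r : ℂ) * Complex.exp (θ * Complex.I)‖ ∈ s
      rw [norm_mul, Complex.norm_exp_ofReal_mul_I, mul_one, Complex.norm_real,
        Real.norm_of_nonneg (h0 r hr)]
      exact hr
  rw [h1]
  exact (hs.prod isPreconnected_univ).image _ (by fun_prop)

/-- the outside of a disc is connected -/
theorem preconn_outside (R : ℝ) : IsPreconnected {w : ℂ | R ≤ ‖w‖} := by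
  by_cases hR : 0 ≤ R
  · exact ccn_polar (s := Ici R) isPreconnected_Ici fun x hx => hR.trans hx
  · have h1 : {w : ℂ | R ≤ ‖w‖} = univ := by
      apply Set.eq_univ_of_forall
      intro w
      push Not at hR
      exact hR.le.trans (norm_nonneg w)
    rw [h1]
    exact isPreconnected_univ

private theorem ccn_step {f : ℂ → ℂ} (hf : DifferentiableOn ℂ f Dk) (hi : InjOn f Dk) {r : ℝ}
    (hr0 : 0 < r) (hr1 : r < 1) : IsPreconnected (f '' ball 0 r)ᶜ := by
  have hopen : IsOpen (f '' Dk) := isOpen_image_of_injOn isOpen_ball hf hi isOpen_ball subset_rfl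
  have hcb : closedBall (0 : ℂ) r ⊆ Dk := closedBall_subset_ball hr1
  obtain ⟨K, hK⟩ : ∃ K, K = f '' closedBall 0 r := ⟨_, rfl⟩
  have hKc : IsCompact K := by
    rw [hK]
    exact (isCompact_closedBall 0 r).image_of_continuousOn (hf.continuousOn.mono hcb)
  have hGo : IsOpen Kᶜ := hKc.isClosed.isOpen_compl
  obtain ⟨A, hA⟩ : ∃ A, A = f '' {z : ℂ | ‖z‖ ∈ Ioo r 1} := ⟨_, rfl⟩
  have hsub : {z : ℂ | ‖z‖ ∈ Ioo r 1} ⊆ Dk := fun z hz => mem_ball_zero_iff.2 hz.2
  have hAc : IsPreconnected A := by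
    rw [hA]
    exact (ccn_polar (s := Ioo r 1) isPreconnected_Ioo fun x hx => hr0.le.trans hx.1.le).image _
      (hf.continuousOn.mono hsub)
  have hAG : A ⊆ Kᶜ := by
    rw [hA, hK]
    rintro _ ⟨z, hz, rfl⟩ ⟨y, hy, he⟩
    have h1 := hi (hcb hy) (hsub hz) he
    rw [h1] at hy
    have := mem_closedBall_zero_iff.1 hy
    have := hz.1
    linarith
  have hout : ∀ y ∈ f '' Dk, y ∈ Kᶜ → y ∈ A := by
    rintro _ ⟨z, hz, rfl⟩ hyK
    rw [hA]
    refine ⟨z, ⟨?_, mem_ball_zero_iff.1 hz⟩, rfl⟩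
    by_contra hle
    push Not at hle
    exact hyK (by rw [hK]; exact ⟨z, mem_closedBall_zero_iff.2 hle, rfl⟩)
  have key : ∀ P Q : Set ℂ, IsOpen P → IsOpen Q → Kᶜ ⊆ P ∪ Q → Kᶜ ∩ (P ∩ Q) = ∅ → A ⊆ P →
      Kᶜ ⊆ P := by
    intro P Q hP hQ hcov hdis hAP x0 hx0
    by_contra hx0P
    have hx0Q : x0 ∈ Q := (hcov hx0).resolve_left hx0P
    obtain ⟨Q', hQ'⟩ : ∃ Q', Q' = Q ∩ Kᶜ := ⟨_, rfl⟩
    have hQo : IsOpen Q' := by rw [hQ']; exact hQ.inter hGo
    have hne : Q'.Nonempty := ⟨x0, by rw [hQ']; exact ⟨hx0Q, hx0⟩⟩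
    have hnu : Q' ≠ univ := by
      intro h1
      have h2 : f 0 ∈ Q' := by rw [h1]; trivial
      rw [hQ'] at h2
      exact h2.2 (by rw [hK]; exact ⟨0, mem_closedBall_self hr0.le, rfl⟩)
    have hncl : ¬ IsClosed Q' := fun hcl => by
      rcases isClopen_iff.1 ⟨hcl, hQo⟩ with h1 | h1
      · exact hne.ne_empty h1
      · exact hnu h1
    obtain ⟨x, hx, hxQ⟩ : ∃ x ∈ closure Q', x ∉ Q' := by
      by_contra hcon
      push Not at hcon
      exact hncl (isClosed_of_closure_subset hcon)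
    have hxK : x ∈ K := by
      by_contra hxK
      have hxG : x ∈ Kᶜ := hxK
      rcases hcov hxG with h1 | h1
      · obtain ⟨y, ⟨hy1, hy2⟩, hy3⟩ := mem_closure_iff.1 hx (P ∩ Kᶜ) (hP.inter hGo) ⟨h1, hxG⟩
        rw [hQ'] at hy3
        have : y ∈ Kᶜ ∩ (P ∩ Q) := ⟨hy2, hy1, hy3.1⟩
        rw [hdis] at this
        exact this
      · exact hxQ (by rw [hQ']; exact ⟨h1, hxG⟩)
    have hxD : x ∈ f '' Dk := by
      rw [hK] at hxK
      exact image_mono hcb hxK
    obtain ⟨y, hy1, hy2⟩ := mem_closure_iff.1 hx (f '' Dk) hopen hxD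
    rw [hQ'] at hy2
    have hyA := hout y hy1 hy2.2
    have : y ∈ Kᶜ ∩ (P ∩ Q) := ⟨hy2.2, hAP hyA, hy2.1⟩
    rw [hdis] at this
    exact this
  have hG : IsPreconnected Kᶜ := by
    rw [isPreconnected_iff_subset_of_disjoint]
    intro P Q hP hQ hcov hdis
    have h1 := (isPreconnected_iff_subset_of_disjoint.1 hAc) P Q hP hQ (hAG.trans hcov)
      (Set.subset_empty_iff.1 (by
        rw [← hdis]
        exact inter_subset_inter_left _ hAG))
    rcases h1 with h1 | h1
    · exact Or.inl (key P Q hP hQ hcov hdis h1)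
    · refine Or.inr (key Q P hQ hP ?_ ?_ h1)
      · rw [union_comm]; exact hcov
      · rw [inter_comm Q P]; exact hdis
  refine hG.subset_closure ?_ ?_
  · rw [hK]
    exact compl_subset_compl.2 (image_mono ball_subset_closedBall)
  · intro w hw
    by_cases hwK : w ∈ K
    · rw [hK] at hwK
      obtain ⟨z, hz, rfl⟩ := hwK
      have hzr : ‖z‖ = r := by
        apply le_antisymm (mem_closedBall_zero_iff.1 hz)
        by_contra hlt
        push Not at hlt
        exact hw ⟨z, mem_ball_zero_iff.2 hlt, rfl⟩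
      have hcz : ContinuousAt f z :=
        (hf.continuousOn.continuousAt (isOpen_ball.mem_nhds (hcb hz)))
      have ht : Tendsto (fun t : ℝ => (t : ℂ) * z) (𝓝[>] 1) (𝓝 z) := by
        have h1 : ContinuousAt (fun t : ℝ => (t : ℂ) * z) 1 := by fun_prop
        have h2 := h1.tendsto
        simp only [Complex.ofReal_one, one_mul] at h2
        exact h2.mono_left nhdsWithin_le_nhds
      have ht2 : Tendsto (fun t : ℝ => f ((t : ℂ) * z)) (𝓝[>] 1) (𝓝 (f z)) :=
        hcz.tendsto.comp ht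
      apply mem_closure_of_tendsto ht2
      have h3 : ∀ᶠ t : ℝ in 𝓝[>] 1, t ∈ Ioo (1 : ℝ) (1 / r) :=
        Ioo_mem_nhdsGT (by rw [lt_div_iff₀ hr0]; linarith)
      filter_upwards [h3] with t ht
      apply hAG
      rw [hA]
      refine ⟨_, ?_, rfl⟩
      have h4 : ‖(t : ℂ) * z‖ = t * r := by
        rw [norm_mul, hzr, Complex.norm_real, Real.norm_of_nonneg (by linarith [ht.1])]
      change ‖(t : ℂ) * z‖ ∈ Ioo r 1
      rw [h4]
      constructor
      · nlinarith [ht.1]
      · have := (lt_div_iff₀ hr0).1 ht.2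
        linarith
    · exact subset_closure hwK

private theorem ccn_cut {C : Set ℂ} {R : ℝ} (hCc : IsClosed C) (hC : IsPreconnected C)
    (hR : {w : ℂ | R ≤ ‖w‖} ⊆ C) : IsPreconnected (C ∩ closedBall 0 R) := by
  obtain ⟨D, hD⟩ : ∃ D, D = C ∩ closedBall 0 R := ⟨_, rfl⟩
  have hDc : IsClosed D := by rw [hD]; exact hCc.inter isClosed_closedBall
  have hSD : sphere (0 : ℂ) R ⊆ D := by
    intro w hw
    rw [hD]
    exact ⟨hR (mem_sphere_zero_iff_norm.1 hw).ge, sphere_subset_closedBall hw⟩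
  have hSp : IsPreconnected (sphere (0 : ℂ) R) :=
    isPreconnected_sphere (by simp) _ _
  have hcl : IsClosed {w : ℂ | R ≤ ‖w‖} := isClosed_le continuous_const continuous_norm
  have hsph : ∀ w ∈ D, R ≤ ‖w‖ → w ∈ sphere (0 : ℂ) R := by
    intro w hw h1
    rw [hD] at hw
    exact mem_sphere_zero_iff_norm.2 (le_antisymm (mem_closedBall_zero_iff.1 hw.2) h1)
  have key : ∀ P Q : Set ℂ, IsClosed P → IsClosed Q → D ⊆ P ∪ Q → D ∩ (P ∩ Q) = ∅ →
      sphere (0 : ℂ) R ⊆ P → D ⊆ P ∨ D ⊆ Q := by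
    intro P Q hP hQ hcov hdis hS
    have h1 := (isPreconnected_iff_subset_of_disjoint_closed.1 hC)
      ((P ∩ D) ∪ {w : ℂ | R ≤ ‖w‖}) (Q ∩ D) ((hP.inter hDc).union hcl) (hQ.inter hDc) ?_ ?_
    · rcases h1 with h1 | h1
      · left
        intro w hw
        rcases h1 (by rw [hD] at hw; exact hw.1) with h2 | h2
        · exact h2.1
        · exact hS (hsph w hw h2)
      · right
        intro w hw
        exact (h1 (by rw [hD] at hw; exact hw.1)).1
    · intro w hw
      by_cases h2 : R ≤ ‖w‖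
      · exact Or.inl (Or.inr h2)
      · push Not at h2
        have hwD : w ∈ D := by
          rw [hD]
          exact ⟨hw, mem_closedBall_zero_iff.2 h2.le⟩
        rcases hcov hwD with h3 | h3
        · exact Or.inl (Or.inl ⟨h3, hwD⟩)
        · exact Or.inr ⟨h3, hwD⟩
    · apply Set.eq_empty_of_forall_notMem
      rintro w ⟨-, h2, h3⟩
      have hwP : w ∈ P := by
        rcases h2 with h2 | h2
        · exact h2.1
        · exact hS (hsph w h3.2 h2)
      have : w ∈ D ∩ (P ∩ Q) := ⟨h3.2, hwP, h3.1⟩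
      rw [hdis] at this
      exact this
  rw [← hD, isPreconnected_iff_subset_of_disjoint_closed]
  intro P Q hP hQ hcov hdis
  have h1 := (isPreconnected_iff_subset_of_disjoint_closed.1 hSp) P Q hP hQ (hSD.trans hcov)
    (Set.subset_empty_iff.1 (by
      rw [← hdis]
      exact inter_subset_inter_left _ hSD))
  rcases h1 with h1 | h1
  · exact key P Q hP hQ hcov hdis h1
  · refine (key Q P hQ hP ?_ ?_ h1).symm
    · rw [union_comm]; exact hcov
    · rw [inter_comm Q P]; exact hdis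

private theorem ccn_inter {D : ℕ → Set ℂ} (hc : ∀ n, IsCompact (D n))
    (hp : ∀ n, IsPreconnected (D n)) (hd : ∀ n, D (n + 1) ⊆ D n) :
    IsPreconnected (⋂ n, D n) := by
  have hanti : Antitone D := antitone_nat_of_succ_le hd
  have hDc : IsCompact (⋂ n, D n) :=
    (hc 0).of_isClosed_subset (isClosed_iInter fun n => (hc n).isClosed) (iInter_subset _ 0)
  rw [isPreconnected_iff_subset_of_disjoint_closed]
  intro P Q hP hQ hcov hdis
  obtain ⟨U, V, hU, hV, hPU, hQV, hUV⟩ :=
    SeparatedNhds.of_isCompact_isCompact (hDc.inter_right hP) (hDc.inter_right hQ)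
      (by
        rw [Set.disjoint_left]
        rintro x ⟨h1, h2⟩ ⟨-, h3⟩
        have : x ∈ (⋂ n, D n) ∩ (P ∩ Q) := ⟨h1, h2, h3⟩
        rw [hdis] at this
        exact this)
  obtain ⟨n, hn⟩ := exists_subset_nhds_of_isCompact (V := D) hanti.directed_ge hc (U := U ∪ V)
    (by
      intro x hx
      apply (hU.union hV).mem_nhds
      rcases hcov hx with h1 | h1
      · exact Or.inl (hPU ⟨hx, h1⟩)
      · exact Or.inr (hQV ⟨hx, h1⟩))
  have hsub : (⋂ n, D n) ⊆ D n := iInter_subset _ n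
  rcases (hp n).subset_or_subset hU hV hUV hn with h1 | h1
  · left
    intro x hx
    rcases hcov hx with h2 | h2
    · exact h2
    · exact absurd (hQV ⟨hx, h2⟩) (Set.disjoint_left.1 hUV (h1 (hsub hx)))
  · right
    intro x hx
    rcases hcov hx with h2 | h2
    · exact absurd (h1 (hsub hx)) (Set.disjoint_left.1 hUV (hPU ⟨hx, h2⟩))
    · exact h2

theorem compl_image {f : ℂ → ℂ} (hf : DifferentiableOn ℂ f Dk) (hi : InjOn f Dk)
    (hb : Bornology.IsBounded (f '' Dk)) : IsPreconnected (f '' Dk)ᶜ := by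
  obtain ⟨R, hR0, hR⟩ : ∃ R : ℝ, 0 < R ∧ f '' Dk ⊆ ball 0 R := by
    obtain ⟨R, hR⟩ := hb.subset_ball 0
    exact ⟨max R 1, lt_of_lt_of_le one_pos (le_max_right _ _),
      hR.trans (ball_subset_ball (le_max_left _ _))⟩
  obtain ⟨r, hr⟩ : ∃ r : ℕ → ℝ, r = fun n : ℕ => 1 - 1 / ((n : ℝ) + 2) := ⟨_, rfl⟩
  have hr0 : ∀ n, 0 < r n := by
    intro n
    rw [hr]
    have h1 : (0 : ℝ) ≤ n := Nat.cast_nonneg n
    have h2 : 1 / ((n : ℝ) + 2) < 1 := by
      rw [div_lt_one (by linarith)]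
      linarith
    simp only
    linarith
  have hr1 : ∀ n, r n < 1 := by
    intro n
    rw [hr]
    have h1 : (0 : ℝ) ≤ n := Nat.cast_nonneg n
    have h2 : 0 < 1 / ((n : ℝ) + 2) := by positivity
    simp only
    linarith
  have hrm : ∀ n, r n ≤ r (n + 1) := by
    intro n
    rw [hr]
    have h1 : (0 : ℝ) ≤ n := Nat.cast_nonneg n
    have h2 : 1 / (((n + 1 : ℕ) : ℝ) + 2) ≤ 1 / ((n : ℝ) + 2) := by
      apply one_div_le_one_div_of_le (by linarith)
      push_cast
      linarith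
    simp only
    linarith
  have hrt : Tendsto r atTop (𝓝 1) := by
    rw [hr]
    have h1 : Tendsto (fun n : ℕ => 1 / ((n : ℝ) + 2)) atTop (𝓝 0) := by
      have h2 := (tendsto_one_div_add_atTop_nhds_zero_nat (𝕜 := ℝ)).comp (tendsto_add_atTop_nat 1)
      refine h2.congr fun n => ?_
      simp only [Function.comp]
      push_cast
      ring
    simpa using h1.const_sub 1
  have hcl : ∀ n, IsClosed (f '' ball 0 (r n))ᶜ := by
    intro n
    exact (isOpen_image_of_injOn isOpen_ball hf hi isOpen_ball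
      (ball_subset_ball (hr1 n).le)).isClosed_compl
  have hout : {w : ℂ | R ≤ ‖w‖} ⊆ (f '' Dk)ᶜ := by
    intro w hw hw2
    have := mem_ball_zero_iff.1 (hR hw2)
    have h3 : R ≤ ‖w‖ := hw
    linarith
  have hsubn : ∀ n, (f '' Dk)ᶜ ⊆ (f '' ball 0 (r n))ᶜ := fun n =>
    compl_subset_compl.2 (image_mono (ball_subset_ball (hr1 n).le))
  have hI : (f '' Dk)ᶜ ∩ closedBall 0 R = ⋂ n, ((f '' ball 0 (r n))ᶜ ∩ closedBall 0 R) := by
    apply Set.Subset.antisymm
    · intro w hw
      exact mem_iInter.2 fun n => ⟨hsubn n hw.1, hw.2⟩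
    · intro w hw
      have hw' := mem_iInter.1 hw
      refine ⟨?_, (hw' 0).2⟩
      rintro ⟨z, hz, rfl⟩
      have hz1 : ‖z‖ < 1 := mem_ball_zero_iff.1 hz
      obtain ⟨n, hn⟩ := ((tendsto_order.1 hrt).1 _ hz1).exists
      exact (hw' n).1 ⟨z, mem_ball_zero_iff.2 hn, rfl⟩
  have hD : IsPreconnected ((f '' Dk)ᶜ ∩ closedBall 0 R) := by
    rw [hI]
    apply ccn_inter
    · intro n
      exact (isCompact_closedBall 0 R).inter_left (hcl n)
    · intro n
      exact ccn_cut (hcl n) (ccn_step hf hi (hr0 n) (hr1 n)) (hout.trans (hsubn n))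
    · intro n
      exact inter_subset_inter_left _
        (compl_subset_compl.2 (image_mono (ball_subset_ball (hrm n))))
  have hU : (f '' Dk)ᶜ = ((f '' Dk)ᶜ ∩ closedBall 0 R) ∪ {w : ℂ | R ≤ ‖w‖} := by
    apply Set.Subset.antisymm
    · intro w hw
      by_cases h1 : R ≤ ‖w‖
      · exact Or.inr h1
      · push Not at h1
        exact Or.inl ⟨hw, mem_closedBall_zero_iff.2 h1.le⟩
    · rintro w (hw | hw)
      · exact hw.1
      · exact hout hw
  have hRn : ‖(R : ℂ)‖ = R := by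
    rw [Complex.norm_real, Real.norm_of_nonneg hR0.le]
  have hRm : (R : ℂ) ∈ {w : ℂ | R ≤ ‖w‖} := by
    change R ≤ ‖(R : ℂ)‖
    rw [hRn]
  rw [hU]
  exact hD.union (R : ℂ) ⟨hout hRm, mem_closedBall_zero_iff.2 hRn.le⟩ hRm (preconn_outside R)

end Pool.Agent.LOE
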