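import Pool.Agent.LOE.IVM

/-!
# LOE / CHN: the discrete Loewner chain

Induction on `N` for all `φ`: if `N = 0` then `(deriv φ 0).re = 1` and `φ = id` on `Dk`
(`UM.eq_id`); `F = fun _ => φ`.  Step: `intermediate` with `t = exp (-s)`
(`(deriv φ 0).re = exp (-(N+1) s) ≤ exp (-s) ≤ 1`) gives `Fac φ ψ χ`, `(deriv χ 0).re = exp (-s)`,
`(deriv ψ 0).re = exp (-N s)` (`Fac.deriv`); apply the induction hypothesis to `ψ` and shift
(`F 0 = φ`, `F (j+1) = F' j`, `X 0 = χ`, `X (j+1) = X' j`; the first factorization
`Fac (F 0) (F 1) (X 0)`: `F' 0 = ψ` on `Dk` only, use `congr`; or state `F 0 = φ` as functions by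
replacing `F 0` by `φ`).
-/

set_option autoImplicit false

open Metric Set Filter Topology

namespace Pool.Agent.LOE

theorem chain {φ : ℂ → ℂ} (h : UM φ) {s : ℝ} (hs : 0 ≤ s) (N : ℕ)
    (hd : (deriv φ 0).re = Real.exp (-(N * s))) :
    ∃ F X : ℕ → ℂ → ℂ, F 0 = φ ∧ (∀ z ∈ Dk, F N z = z) ∧
      (∀ j ≤ N, UM (F j) ∧ (deriv (F j) 0).re = Real.exp (-((N - j : ℝ) * s))) ∧
      ∀ j < N, Fac (F j) (F (j + 1)) (X j) ∧ (deriv (X j) 0).re = Real.exp (-s) := by
  induction N generalizing φ with
  | zero =>
    refine ⟨fun _ => φ, fun _ => φ, rfl, ?_, ?_, ?_⟩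
    · apply h.eq_id
      rw [hd]
      simp
    · intro j hj
      obtain rfl : j = 0 := by omega
      refine ⟨h, ?_⟩
      rw [hd]
      simp
    · intro j hj
      omega
  | succ N ih =>
    have hN : (0 : ℝ) ≤ N := Nat.cast_nonneg N
    obtain ⟨ψ, χ, hF, hχ⟩ := intermediate h (t := Real.exp (-s))
      (by
        rw [hd]
        apply Real.exp_le_exp.2
        push_cast
        nlinarith [mul_nonneg hN hs])
      (by
        rw [← Real.exp_zero]
        apply Real.exp_le_exp.2
        linarith)
    have hψ : (deriv ψ 0).re = Real.exp (-(N * s)) := by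
      have h1 := hF.deriv
      rw [hχ, hd] at h1
      have h2 : Real.exp (-(((N + 1 : ℕ) : ℝ) * s)) = Real.exp (-(N * s)) * Real.exp (-s) := by
        rw [← Real.exp_add]
        congr 1
        push_cast
        ring
      rw [h2] at h1
      exact (mul_right_cancel₀ (Real.exp_pos _).ne' h1).symm
    obtain ⟨F', X', hF0, hF1, hF2, hF3⟩ := ih hF.1 hψ
    refine ⟨fun j => Nat.casesOn j φ F', fun j => Nat.casesOn j χ X', rfl, hF1, ?_, ?_⟩
    · intro j hj
      cases j with
      | zero =>
        refine ⟨h, ?_⟩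
        change (deriv φ 0).re = _
        rw [hd]
        congr 2
        push_cast
        ring
      | succ j =>
        obtain ⟨h1, h2⟩ := hF2 j (by omega)
        refine ⟨h1, ?_⟩
        change (deriv (F' j) 0).re = _
        rw [h2]
        congr 2
        push_cast
        ring
    · intro j hj
      cases j with
      | zero =>
        refine ⟨?_, hχ⟩
        change Fac φ (F' 0) χ
        rw [hF0]
        exact hF
      | succ j => exact hF3 j (by omega)

end Pool.Agent.LOE
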