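import Pool.Agent.LOE.Defs

/-!
# LOE / CPF: the formula of Cauchy and Pompeiu

Polar coordinates around `w` (`Complex.integral_comp_polarCoord_symm` for the translate
`ζ ↦ ζ + w`).  With `u (r, θ) = g (w + r e^{iθ})` one has, for `r ≠ 0`,
`dbar g (w + r e^{iθ}) / (r e^{iθ}) * r = (∂_r u + (i / r) ∂_θ u) / 2`
(`∂_r u = fderiv g (e^{iθ})`, `∂_θ u = fderiv g (i r e^{iθ})`; write `e^{iθ} = c + i s` and use
real linearity of `fderiv ℝ g` at `1` and `I`).
Integrability of the left side: `dbar g` is continuous with compact support and `1 / |ζ - w|` is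
locally integrable in the plane (in polar coordinates the integrand is bounded with support in
`r ≤ R`).  For the first term `∫_0^∞ ∂_r u dr = - g w` for every `θ`
(`integral_Ioi_of_hasDerivAt_of_tendsto`, compact support), for the second term
`∫_{-π}^{π} ∂_θ u dθ = u (r, π) - u (r, -π) = 0` for every `r > 0`; `|∂_θ u| ≤ C r`, so both terms
are bounded with bounded support and Fubini applies.  Total: `- (2 π) g w / 2 = - π g w`.
-/

set_option autoImplicit false

open Metric Set Filter Topology MeasureTheory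

namespace Pool.Agent.LOE

/-- the point of the unit circle with argument `θ` -/
private noncomputable def cpE (θ : ℝ) : ℂ := Real.cos θ + Real.sin θ * Complex.I

private theorem cpE_cont : Continuous cpE := by
  unfold cpE
  fun_prop

private theorem cpE_norm (θ : ℝ) : ‖cpE θ‖ = 1 := by
  have h : cpE θ = Complex.exp (θ * Complex.I) := by
    rw [Complex.exp_mul_I, cpE, Complex.ofReal_cos, Complex.ofReal_sin]
  rw [h, Complex.norm_exp_ofReal_mul_I]

private theorem cpE_deriv (θ : ℝ) : HasDerivAt cpE (Complex.I * cpE θ) θ := by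
  have h1 := ((Real.hasDerivAt_cos θ).ofReal_comp).add
    (((Real.hasDerivAt_sin θ).ofReal_comp).mul_const Complex.I)
  refine h1.congr_deriv ?_
  unfold cpE
  push_cast
  linear_combination (-Complex.sin θ) * Complex.I_mul_I

private theorem cp_alg (L : ℂ →L[ℝ] ℂ) (r θ : ℝ) (hr : 0 < r) :
    r • ((L 1 + Complex.I * L Complex.I) / 2 / (r * cpE θ)) =
      (L (cpE θ) + Complex.I * L (Complex.I * cpE θ)) / 2 := by
  have hE : cpE θ ≠ 0 := by
    rw [← norm_pos_iff, cpE_norm]
    exact one_pos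
  have h1 : L (cpE θ) = Real.cos θ * L 1 + Real.sin θ * L Complex.I := by
    have h2 : cpE θ = Real.cos θ • (1 : ℂ) + Real.sin θ • Complex.I := by
      simp [cpE]
    rw [h2, map_add, map_smul, map_smul]
    simp
  have h3 : L (Complex.I * cpE θ) = Real.cos θ * L Complex.I - Real.sin θ * L 1 := by
    have h4 : Complex.I * cpE θ = Real.cos θ • Complex.I - Real.sin θ • (1 : ℂ) := by
      simp only [cpE, Complex.real_smul, mul_one]
      linear_combination (Real.sin θ : ℂ) * Complex.I_mul_I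
    rw [h4, map_sub, map_smul, map_smul]
    simp
  have hr' : (r : ℂ) ≠ 0 := by exact_mod_cast hr.ne'
  rw [h1, h3, Complex.real_smul]
  have hcs : (Real.cos θ : ℂ) * Real.cos θ + (Real.sin θ : ℂ) * Real.sin θ = 1 := by
    have := Real.cos_sq_add_sin_sq θ
    rw [sq, sq] at this
    exact_mod_cast this
  obtain ⟨A, hA⟩ : ∃ A, A = L 1 := ⟨_, rfl⟩
  obtain ⟨B, hB⟩ : ∃ B, B = L Complex.I := ⟨_, rfl⟩
  obtain ⟨c, hc⟩ : ∃ c : ℂ, c = Real.cos θ := ⟨_, rfl⟩
  obtain ⟨s, hs⟩ : ∃ s : ℂ, s = Real.sin θ := ⟨_, rfl⟩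
  have hEc : cpE θ = c + s * Complex.I := by rw [hc, hs]; rfl
  rw [← hA, ← hB, ← hc, ← hs]
  rw [← hc, ← hs] at hcs
  rw [hEc] at hE ⊢
  have hI := Complex.I_mul_I
  have key : A + Complex.I * B =
      (c * A + s * B + Complex.I * (c * B - s * A)) * (c + s * Complex.I) := by
    linear_combination (-(A + Complex.I * B)) * hcs - (c * s * B - s * s * A) * hI
  rw [key]
  obtain ⟨E, hEE⟩ : ∃ E : ℂ, E = c + s * Complex.I := ⟨_, rfl⟩
  rw [← hEE] at hE ⊢
  field_simp

theorem cauchy_pompeiu {g : ℂ → ℂ} (hg : ContDiff ℝ 1 g) (hs : HasCompactSupport g) (w : ℂ) :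
    ∫ ζ, dbar g ζ / (ζ - w) = -(Real.pi * g w) := by
  obtain ⟨R, hR0, hR⟩ : ∃ R : ℝ, 0 < R ∧ ∀ z : ℂ, R ≤ ‖z‖ → w + z ∉ tsupport g := by
    obtain ⟨R, hR⟩ := hs.isBounded.subset_ball w
    refine ⟨max R 1, lt_of_lt_of_le one_pos (le_max_right _ _), fun z hz hm => ?_⟩
    have h1 := hR hm
    rw [mem_ball, dist_eq_norm, add_sub_cancel_left] at h1
    have := le_max_left R 1
    linarith
  have hg0 : ∀ z : ℂ, R ≤ ‖z‖ → g (w + z) = 0 := fun z hz =>
    image_eq_zero_of_notMem_tsupport (hR z hz)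
  have hd0 : ∀ z : ℂ, R ≤ ‖z‖ → fderiv ℝ g (w + z) = 0 := by
    intro z hz
    by_contra hne
    exact hR z hz (support_fderiv_subset ℝ hne)
  have hdiff : Differentiable ℝ g := hg.differentiable one_ne_zero
  have hcf : Continuous (fderiv ℝ g) := hg.continuous_fderiv one_ne_zero
  have hEc := cpE_cont
  obtain ⟨Y1, hY1⟩ : ∃ Y : ℝ × ℝ → ℂ,
      Y = fun p : ℝ × ℝ => fderiv ℝ g (w + p.1 * cpE p.2) (cpE p.2) := ⟨_, rfl⟩
  obtain ⟨Y2, hY2⟩ : ∃ Y : ℝ × ℝ → ℂ,
      Y = fun p : ℝ × ℝ => fderiv ℝ g (w + p.1 * cpE p.2) (Complex.I * cpE p.2) := ⟨_, rfl⟩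
  have hc1 : Continuous Y1 := by
    rw [hY1]
    fun_prop
  have hc2 : Continuous Y2 := by
    rw [hY2]
    fun_prop
  have hn : ∀ r θ : ℝ, 0 < r → ‖(r : ℂ) * cpE θ‖ = r := by
    intro r θ hr
    rw [norm_mul, cpE_norm, mul_one, Complex.norm_real, Real.norm_of_nonneg hr.le]
  -- polar coordinates
  have hA : ∫ ζ, dbar g ζ / (ζ - w) =
      ∫ p in polarCoord.target, (Y1 p + Complex.I * Y2 p) / 2 := by
    rw [← integral_add_left_eq_self (fun ζ => dbar g ζ / (ζ - w)) w,
      ← Complex.integral_comp_polarCoord_symm]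
    apply setIntegral_congr_fun polarCoord.open_target.measurableSet
    rintro ⟨r, θ⟩ hp
    have hr : 0 < r := hp.1
    have hsy : Complex.polarCoord.symm (r, θ) = r * cpE θ := by
      rw [Complex.polarCoord_symm_apply]
      rfl
    simp only [hsy, add_sub_cancel_left, hY1, hY2]
    exact cp_alg (fderiv ℝ g (w + r * cpE θ)) r θ hr
  have hB : ∫ p in polarCoord.target, (Y1 p + Complex.I * Y2 p) / 2 =
      ∫ p in Ioc (0 : ℝ) R ×ˢ Ioo (-Real.pi) Real.pi, (Y1 p + Complex.I * Y2 p) / 2 := by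
    apply setIntegral_eq_of_subset_of_forall_sdiff_eq_zero polarCoord.open_target.measurableSet
    · rintro ⟨r, θ⟩ ⟨h1, h2⟩
      exact ⟨h1.1, h2⟩
    · rintro ⟨r, θ⟩ ⟨⟨h1, h2⟩, h3⟩
      have hr : 0 < r := h1
      have hRr : R ≤ r := by
        by_contra hlt
        push Not at hlt
        exact h3 ⟨⟨hr, hlt.le⟩, h2⟩
      have h0 := hd0 (r * cpE θ) (by rw [hn r θ hr]; exact hRr)
      simp only [hY1, hY2, h0]
      simp
  have hint : ∀ Y : ℝ × ℝ → ℂ, Continuous Y →
      IntegrableOn Y (Ioc (0 : ℝ) R ×ˢ Ioo (-Real.pi) Real.pi) := by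
    intro Y hY
    refine (hY.continuousOn.integrableOn_compact
      (isCompact_Icc.prod isCompact_Icc : IsCompact (Icc (0 : ℝ) R ×ˢ Icc (-Real.pi) Real.pi))).mono_set ?_
    exact Set.prod_mono Ioc_subset_Icc_self Ioo_subset_Icc_self
  have hC : ∫ p in Ioc (0 : ℝ) R ×ˢ Ioo (-Real.pi) Real.pi, Y1 p = -(2 * Real.pi * g w) := by
    have h1 : ∫ p in Ioc (0 : ℝ) R ×ˢ Ioo (-Real.pi) Real.pi, Y1 p =
        ∫ θ in Ioo (-Real.pi) Real.pi, ∫ r in Ioc (0 : ℝ) R, Y1 (r, θ) := by
      rw [Measure.volume_eq_prod, setIntegral_prod]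
      · apply integral_integral_swap
        rw [Measure.prod_restrict]
        exact hint Y1 hc1
      · exact hint Y1 hc1
    have h2 : ∀ θ : ℝ, ∫ r in Ioc (0 : ℝ) R, Y1 (r, θ) = -g w := by
      intro θ
      rw [← intervalIntegral.integral_of_le hR0.le]
      have h3 : ∀ r ∈ uIcc (0 : ℝ) R, HasDerivAt (fun r : ℝ => g (w + r * cpE θ)) (Y1 (r, θ)) r := by
        intro r _
        have h4 : HasDerivAt (fun r : ℝ => w + (r : ℂ) * cpE θ) (cpE θ) r := by
          have := ((Complex.ofRealCLM.hasDerivAt (x := r)).mul_const (cpE θ)).const_add w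
          simpa using this
        have h5 := (hdiff (w + r * cpE θ)).hasFDerivAt.comp_hasDerivAt r h4
        rw [hY1]
        exact h5
      rw [intervalIntegral.integral_eq_sub_of_hasDerivAt h3
        ((hc1.comp (by fun_prop : Continuous fun r : ℝ => (r, θ))).intervalIntegrable _ _)]
      have h6 := hg0 (R * cpE θ) (by rw [hn R θ hR0])
      rw [h6]
      simp
    rw [h1]
    simp only [h2]
    rw [setIntegral_const]
    rw [Real.volume_real_Ioo_of_le (by linarith [Real.pi_pos])]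
    rw [Complex.real_smul]
    push_cast
    ring
  have hD : ∫ p in Ioc (0 : ℝ) R ×ˢ Ioo (-Real.pi) Real.pi, Y2 p = 0 := by
    rw [Measure.volume_eq_prod, setIntegral_prod _ (hint Y2 hc2)]
    rw [setIntegral_congr_fun (g := fun _ => (0 : ℂ)) measurableSet_Ioc]
    · simp
    intro r hr
    have hr0 : 0 < r := hr.1
    change ∫ θ in Ioo (-Real.pi) Real.pi, Y2 (r, θ) = 0
    rw [← integral_Ioc_eq_integral_Ioo, ← intervalIntegral.integral_of_le
      (by linarith [Real.pi_pos])]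
    have h3 : ∀ θ ∈ uIcc (-Real.pi) Real.pi,
        HasDerivAt (fun θ : ℝ => g (w + r * cpE θ)) (r * Y2 (r, θ)) θ := by
      intro θ _
      have h4 : HasDerivAt (fun θ : ℝ => w + (r : ℂ) * cpE θ) (r * (Complex.I * cpE θ)) θ :=
        ((cpE_deriv θ).const_mul (r : ℂ)).const_add w
      have h5 := (hdiff (w + r * cpE θ)).hasFDerivAt.comp_hasDerivAt θ h4
      refine h5.congr_deriv ?_
      have h6 : (r : ℂ) * (Complex.I * cpE θ) = r • (Complex.I * cpE θ) := by
        rw [Complex.real_smul]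
      rw [h6, map_smul, hY2, Complex.real_smul]
    have h7 := intervalIntegral.integral_eq_sub_of_hasDerivAt h3
      (((hc2.comp (by fun_prop : Continuous fun θ : ℝ => (r, θ))).const_mul
        (r : ℂ)).intervalIntegrable _ _)
    have h8 : cpE Real.pi = cpE (-Real.pi) := by
      simp [cpE]
    rw [h8, sub_self, intervalIntegral.integral_const_mul] at h7
    have hr' : (r : ℂ) ≠ 0 := by exact_mod_cast hr0.ne'
    exact (mul_eq_zero.1 h7).resolve_left hr'
  rw [hA, hB, integral_div, integral_add (hint Y1 hc1) ((hint Y2 hc2).const_mul _),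
    integral_const_mul, hC, hD]
  ring

end Pool.Agent.LOE
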