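import Pool.Agent.LOE.Defs
import Pool.Agent.EPO.MON

/-!
# LOE / HRW: limits of injective functions

Suppose `L a = L b` with `a ≠ b` in `U` and `L` is not constant on `U`.  On a ball `ball b r ⊆ U`
not containing `a` the functions `f k z - f k a` have no zero; they converge uniformly (shrink
`r`) to `L z - L a`, which vanishes at `b`; by `Pool.Agent.EPO.MON_hur` it vanishes near `b`; by
the identity theorem on the preconnected open set `U`
(`AnalyticOnNhd.eqOn_of_preconnected_of_eventuallyEq`) `L = L a` on `U`.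
-/

set_option autoImplicit false

open Metric Set Filter Topology

namespace Pool.Agent.LOE

theorem hurwitz_inj {U : Set ℂ} (hU : IsOpen U) (hc : IsPreconnected U) {f : ℕ → ℂ → ℂ}
    {L : ℂ → ℂ} (hf : ∀ k, DifferentiableOn ℂ (f k) U) (hi : ∀ k, InjOn (f k) U)
    (hL : TendstoLocallyUniformlyOn f L atTop U) :
    InjOn L U ∨ ∃ c : ℂ, ∀ z ∈ U, L z = c := by
  by_cases hinj : InjOn L U
  · exact Or.inl hinj
  right
  have hLd : DifferentiableOn ℂ L U := hL.differentiableOn (Eventually.of_forall hf) hU
  simp only [InjOn, not_forall] at hinj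
  obtain ⟨a, ha, b, hb, hab, hne⟩ := hinj
  refine ⟨L a, ?_⟩
  obtain ⟨r₀, hr₀, hball⟩ := Metric.isOpen_iff.1 hU b hb
  set r : ℝ := min (r₀ / 2) (dist a b) with hr
  have hd : 0 < dist a b := dist_pos.2 hne
  have hr0 : 0 < r := lt_min (by linarith) hd
  have hcl : closedBall b r ⊆ U := by
    refine (closedBall_subset_ball ?_).trans hball
    have := min_le_left (r₀ / 2) (dist a b)
    rw [← hr] at this
    linarith
  have hbU : ball b r ⊆ U := ball_subset_closedBall.trans hcl
  have hunif : TendstoUniformlyOn f L atTop (ball b r) :=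
    ((tendstoLocallyUniformlyOn_iff_forall_isCompact hU).1 hL _ hcl
      (isCompact_closedBall b r)).mono ball_subset_closedBall
  have hfa : Tendsto (fun k => f k a) atTop (𝓝 (L a)) := by
    have := ((tendstoLocallyUniformlyOn_iff_forall_isCompact hU).1 hL {a}
      (Set.singleton_subset_iff.2 ha) isCompact_singleton)
    exact this.tendsto_at (mem_singleton a)
  have hconst : TendstoUniformlyOn (fun k (_ : ℂ) => f k a) (fun _ => L a) atTop (ball b r) := by
    rw [Metric.tendstoUniformlyOn_iff]
    intro ε hε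
    filter_upwards [Metric.tendsto_nhds.1 hfa ε hε] with k hk x _
    rw [dist_comm]
    exact hk
  have hev : ∀ᶠ ζ in 𝓝 b, L ζ - L a = 0 := by
    refine EPO.MON_hur (G := fun k ζ => f k ζ - f k a) (g := fun ζ => L ζ - L a) hr0 ?_ ?_ ?_
    · intro k
      refine ⟨((hf k).mono hbU).sub (differentiableOn_const _), fun ζ hζ hz => ?_⟩
      have h1 : ζ = a := hi k (hbU hζ) ha (sub_eq_zero.1 hz)
      have h2 : dist ζ b < r := hζ
      have h3 : r ≤ dist a b := min_le_right _ _
      rw [h1] at h2
      linarith
    · exact hunif.sub hconst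
    · simp [hab]
  have hev' : L =ᶠ[𝓝 b] fun _ => L a := by
    filter_upwards [hev] with ζ hζ
    exact sub_eq_zero.1 hζ
  have hana : AnalyticOnNhd ℂ L U := hLd.analyticOnNhd hU
  intro z hz
  exact hana.eqOn_of_preconnected_of_eventuallyEq (analyticOnNhd_const) hc hb hev' hz

end Pool.Agent.LOE
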