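import Pool.Agent.LOE.IDN

/-!
# LOE / SCW: Schwarz lemma facts for `UM`

`UM.comp`: composition (chain rule at `0`).  `UM.deriv_le_one`: Schwarz lemma
(`Complex.norm_deriv_le_one_of_mapsTo_ball` or so).  `UM.norm_le`: Schwarz lemma.
`UM.eq_id`: equality case: `ω = dslope φ 0` is holomorphic on `Dk`, `‖ω‖ ≤ 1`, `ω 0 = 1`, so by the
maximum principle (`Complex.eqOn_of_isPreconnected_of_isMaxOn_norm`) `ω = 1` on `Dk`.
`UM.surj`: if `φ '' Dk = Dk`, its inverse `g` (`inverse_holo`) maps `Dk` to `Dk`, `g 0 = 0`,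
`‖deriv g 0‖ ≤ 1`, `deriv g 0 = (deriv φ 0)⁻¹`, so `1 ≤ ‖deriv φ 0‖`, and `eq_id` applies.
`lift`: if `φ '' Dk ⊆ ψ '' Dk` then `χ = ψ⁻¹ ∘ φ` works (`inverse_holo`), the derivative is
`deriv φ 0 / deriv ψ 0 > 0`.
-/

set_option autoImplicit false

open Metric Set Filter Topology

namespace Pool.Agent.LOE

theorem zero_mem_Dk : (0 : ℂ) ∈ Dk := by simp [Dk]

theorem UM.deriv_pos {φ : ℂ → ℂ} (h : UM φ) : 0 < (deriv φ 0).re := by
  obtain ⟨a, ha, h1⟩ := h.pos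
  rw [h1]
  simpa using ha

theorem UM.deriv_eq {φ : ℂ → ℂ} (h : UM φ) : deriv φ 0 = ((deriv φ 0).re : ℂ) := by
  obtain ⟨a, ha, h1⟩ := h.pos
  rw [h1]
  simp

theorem UM.id : UM (fun z => z) := by
  refine ⟨differentiableOn_id, fun x _ y _ h => h, fun x hx => hx, rfl, 1, one_pos, ?_⟩
  simp

private theorem scw_open : IsOpen Dk := by
  unfold Dk
  exact isOpen_ball

private theorem scw_nhds : Dk ∈ 𝓝 (0 : ℂ) := scw_open.mem_nhds zero_mem_Dk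

private theorem scw_hd {φ : ℂ → ℂ} (h : UM φ) {z : ℂ} (hz : z ∈ Dk) :
    HasDerivAt φ (deriv φ z) z :=
  (h.diff.differentiableAt (scw_open.mem_nhds hz)).hasDerivAt

theorem UM.congr {φ ψ : ℂ → ℂ} (h : UM φ) (he : ∀ z ∈ Dk, ψ z = φ z) : UM ψ := by
  refine ⟨h.diff.congr he, ?_, ?_, ?_, ?_⟩
  · intro x hx y hy hxy
    rw [he x hx, he y hy] at hxy
    exact h.inj hx hy hxy
  · intro x hx
    rw [he x hx]
    exact h.maps hx
  · rw [he 0 zero_mem_Dk]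
    exact h.zero
  · obtain ⟨a, ha, h1⟩ := h.pos
    refine ⟨a, ha, ?_⟩
    rw [← h1]
    refine Filter.EventuallyEq.deriv_eq ?_
    filter_upwards [scw_nhds] with z hz
    exact he z hz

theorem UM.comp {ψ χ : ℂ → ℂ} (h : UM ψ) (h' : UM χ) :
    UM (fun z => ψ (χ z)) ∧
      (deriv (fun z => ψ (χ z)) 0).re = (deriv ψ 0).re * (deriv χ 0).re := by
  have h1 : HasDerivAt ψ (deriv ψ 0) (χ 0) := by
    have := scw_hd h zero_mem_Dk
    rwa [h'.zero]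
  have h2 : HasDerivAt (fun z => ψ (χ z)) (deriv ψ 0 * deriv χ 0) 0 :=
    h1.comp (0 : ℂ) (scw_hd h' zero_mem_Dk)
  have h3 : deriv ψ 0 * deriv χ 0 = (((deriv ψ 0).re * (deriv χ 0).re : ℝ) : ℂ) := by
    conv_lhs => rw [h.deriv_eq, h'.deriv_eq]
    push_cast
    rfl
  refine ⟨⟨?_, ?_, ?_, ?_, ?_⟩, ?_⟩
  · exact h.diff.comp h'.diff h'.maps
  · intro x hx y hy hxy
    exact h'.inj hx hy (h.inj (h'.maps hx) (h'.maps hy) hxy)
  · intro x hx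
    exact h.maps (h'.maps hx)
  · show ψ (χ 0) = 0
    rw [h'.zero, h.zero]
  · refine ⟨(deriv ψ 0).re * (deriv χ 0).re, mul_pos h.deriv_pos h'.deriv_pos, ?_⟩
    rw [h2.deriv, h3]
  · rw [h2.deriv, h3, Complex.ofReal_re]

private theorem scw_maps {φ : ℂ → ℂ} (h : UM φ) : MapsTo φ (ball 0 1) (closedBall (φ 0) 1) := by
  intro z hz
  rw [h.zero]
  exact ball_subset_closedBall (h.maps hz)

theorem UM.norm_le {φ : ℂ → ℂ} (h : UM φ) {z : ℂ} (hz : z ∈ Dk) : ‖φ z‖ ≤ ‖z‖ := by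
  have h1 := scw_maps h
  rw [h.zero] at h1
  exact Complex.norm_le_norm_of_mapsTo_ball h.diff h1 h.zero (mem_ball_zero_iff.1 hz)

theorem UM.deriv_le_one {φ : ℂ → ℂ} (h : UM φ) : (deriv φ 0).re ≤ 1 :=
  (Complex.re_le_norm _).trans
    (Complex.norm_deriv_le_one_of_mapsTo_ball h.diff (scw_maps h) one_pos)

theorem UM.eq_id {φ : ℂ → ℂ} (h : UM φ) (h1 : 1 ≤ (deriv φ 0).re) : ∀ z ∈ Dk, φ z = z := by
  have h2 : deriv φ 0 = 1 := by
    rw [h.deriv_eq, le_antisymm h.deriv_le_one h1]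
    simp
  have h3 : ‖dslope φ 0 0‖ = 1 / 1 := by
    rw [dslope_same, h2]
    simp
  have h4 := Complex.affine_of_mapsTo_ball_of_norm_dslope_eq_div h.diff (scw_maps h)
    (mem_ball_self one_pos) h3
  intro z hz
  have h5 := h4 hz
  rw [h5]
  simp [h.zero, h2]

theorem UM.surj {φ : ℂ → ℂ} (h : UM φ) (h1 : φ '' Dk = Dk) : (deriv φ 0).re = 1 := by
  obtain ⟨g, g1, g2, g3, g4⟩ := inverse_holo scw_open h.diff h.inj
  rw [h1] at g1 g2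
  have h5 : deriv g 0 = (((deriv φ 0).re⁻¹ : ℝ) : ℂ) := by
    have h6 := g4 0 zero_mem_Dk
    rw [h.zero] at h6
    rw [h6, Complex.ofReal_inv, ← h.deriv_eq]
  have hg : UM g := by
    refine ⟨g1, g2, ?_, ?_, (deriv φ 0).re⁻¹, inv_pos.2 h.deriv_pos, h5⟩
    · intro w hw
      rw [← h1] at hw
      obtain ⟨z, hz, rfl⟩ := hw
      rw [g3 z hz]
      exact hz
    · have h6 := g3 0 zero_mem_Dk
      rwa [h.zero] at h6
  have h7 := hg.deriv_le_one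
  rw [h5, Complex.ofReal_re] at h7
  refine le_antisymm h.deriv_le_one ?_
  have h8 := h.deriv_pos
  rwa [inv_le_one₀ h8] at h7

theorem UM.lift {φ ψ : ℂ → ℂ} (h : UM φ) (h' : UM ψ) (hs : φ '' Dk ⊆ ψ '' Dk) :
    ∃ χ, Fac φ ψ χ := by
  obtain ⟨g, g1, g2, g3, g4⟩ := inverse_holo scw_open h'.diff h'.inj
  have hm : MapsTo φ Dk (ψ '' Dk) := fun z hz => hs (mem_image_of_mem φ hz)
  have h5 : HasDerivAt g ((deriv ψ 0)⁻¹) (φ 0) := by
    have h6 := g4 0 zero_mem_Dk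
    rw [h'.zero] at h6
    rw [h.zero, ← h6]
    refine (g1.differentiableAt ?_).hasDerivAt
    have h7 := isOpen_image_of_injOn scw_open h'.diff h'.inj scw_open le_rfl
    refine h7.mem_nhds ⟨0, zero_mem_Dk, h'.zero⟩
  have h6 : HasDerivAt (fun z => g (φ z)) ((deriv ψ 0)⁻¹ * deriv φ 0) 0 :=
    h5.comp (0 : ℂ) (scw_hd h zero_mem_Dk)
  refine ⟨fun z => g (φ z), h', ⟨?_, ?_, ?_, ?_, ?_⟩, ?_⟩
  · exact g1.comp h.diff hm
  · intro x hx y hy hxy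
    exact h.inj hx hy (g2 (hm hx) (hm hy) hxy)
  · intro z hz
    obtain ⟨w, hw, hwz⟩ := hm hz
    show g (φ z) ∈ Dk
    rw [← hwz, g3 w hw]
    exact hw
  · show g (φ 0) = 0
    have h7 := g3 0 zero_mem_Dk
    rw [h'.zero] at h7
    rw [h.zero, h7]
  · refine ⟨(deriv ψ 0).re⁻¹ * (deriv φ 0).re, mul_pos (inv_pos.2 h'.deriv_pos) h.deriv_pos, ?_⟩
    rw [h6.deriv]
    conv_lhs => rw [h.deriv_eq, h'.deriv_eq]
    push_cast
    rfl
  · intro z hz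
    obtain ⟨w, hw, hwz⟩ := hm hz
    show φ z = ψ (g (φ z))
    rw [← hwz, g3 w hw]

theorem Fac.um {φ ψ χ : ℂ → ℂ} (h : Fac φ ψ χ) : UM φ :=
  (UM.comp h.1 h.2.1).1.congr h.2.2

theorem Fac.deriv {φ ψ χ : ℂ → ℂ} (h : Fac φ ψ χ) :
    (deriv φ 0).re = (deriv ψ 0).re * (deriv χ 0).re := by
  rw [← (UM.comp h.1 h.2.1).2]
  congr 1
  refine Filter.EventuallyEq.deriv_eq ?_
  filter_upwards [scw_nhds] with z hz
  exact h.2.2 z hz

theorem Fac.assoc {φ ψ χ ψ₂ η : ℂ → ℂ} (h : Fac φ ψ χ) (h' : Fac ψ ψ₂ η) :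
    Fac φ ψ₂ (fun z => η (χ z)) :=
  ⟨h'.1, (UM.comp h'.2.1 h.2.1).1, fun z hz => by
    rw [h.2.2 z hz, h'.2.2 _ (h.2.1.maps hz)]⟩

theorem Fac.assoc' {φ ψ χ α β : ℂ → ℂ} (h : Fac φ ψ χ) (h' : Fac χ α β) :
    Fac φ (fun z => ψ (α z)) β :=
  ⟨(UM.comp h.1 h'.1).1, h'.2.1, fun z hz => by
    rw [h.2.2 z hz, h'.2.2 z hz]⟩

theorem Fac.of_left {φ : ℂ → ℂ} (h : UM φ) : Fac φ φ (fun z => z) :=
  ⟨h, UM.id, fun _ _ => rfl⟩

theorem Fac.of_right {φ : ℂ → ℂ} (h : UM φ) : Fac φ (fun z => z) φ :=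
  ⟨UM.id, h, fun _ _ => rfl⟩

end Pool.Agent.LOE
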