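import Pool.Agent.LOE.MNT
import Pool.Agent.LOE.HRW
import Pool.Agent.LOE.SCW

/-!
# LOE / CPT: compactness

`um_compact`: `montel` with `U = Dk`, `C = 1`: subsequence with limit `L`; `L 0 = 0`; derivatives at
`0` converge (`TendstoLocallyUniformlyOn.deriv`), so `deriv L 0` is real (limits of reals) and
`a ≤ (deriv L 0).re`; `L` is not constant, so injective on `Dk` by `hurwitz_inj`; `‖L‖ ≤ 1` and
`L '' Dk` is open (`isOpen_image_of_injOn`), so `L` maps `Dk` to `Dk`.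
`fac_closed`: all derivatives of `ψ n`, `χ n` at `0` are `≤ 1` with product `(deriv φ 0).re`, so they
are `≥ (deriv φ 0).re > 0`.  Extract a common subsequence; `χ n → χ'`, `ψ n → ψ'` locally uniformly,
hence `ψ n (χ n z) → ψ' (χ' z)` for every `z ∈ Dk` (`χ n z → χ' z ∈ Dk`, uniform convergence of
`ψ n` near `χ' z`: `TendstoLocallyUniformlyOn.tendsto_comp`), so `φ z = ψ' (χ' z)`.
-/

set_option autoImplicit false

open Metric Set Filter Topology

namespace Pool.Agent.LOE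

theorem um_compact (φ : ℕ → ℂ → ℂ) (h : ∀ n, UM (φ n)) {a : ℝ} (ha : 0 < a)
    (hd : ∀ n, a ≤ (deriv (φ n) 0).re) :
    ∃ θ : ℕ → ℕ, StrictMono θ ∧ ∃ L : ℂ → ℂ, UM L ∧
      TendstoLocallyUniformlyOn (fun n => φ (θ n)) L atTop Dk ∧
      Tendsto (fun n => (deriv (φ (θ n)) 0).re) atTop (𝓝 (deriv L 0).re) := by
  obtain ⟨θ, hθ, L, hLd, hL⟩ := montel (U := Dk) isOpen_ball (C := 1) φ (fun n => (h n).diff)
    (fun n z hz => by
      have h1 := (h n).maps hz
      simp only [Dk, mem_ball, dist_zero_right] at h1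
      exact h1.le)
  have hpt : ∀ z ∈ Dk, Tendsto (fun n => φ (θ n) z) atTop (𝓝 (L z)) := fun z hz =>
    hL.tendsto_at hz
  have hder : TendstoLocallyUniformlyOn (deriv ∘ fun n => φ (θ n)) (deriv L) atTop Dk :=
    hL.deriv (Eventually.of_forall fun n => (h (θ n)).diff) isOpen_ball
  have hd0 : Tendsto (fun n => deriv (φ (θ n)) 0) atTop (𝓝 (deriv L 0)) :=
    hder.tendsto_at zero_mem_Dk
  have hre : Tendsto (fun n => (deriv (φ (θ n)) 0).re) atTop (𝓝 (deriv L 0).re) :=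
    (Complex.continuous_re.tendsto _).comp hd0
  have him : Tendsto (fun n => (deriv (φ (θ n)) 0).im) atTop (𝓝 (deriv L 0).im) :=
    (Complex.continuous_im.tendsto _).comp hd0
  have him0 : (deriv L 0).im = 0 := by
    have h1 : (fun n => (deriv (φ (θ n)) 0).im) = fun _ => (0 : ℝ) := by
      funext n
      rw [(h (θ n)).deriv_eq]
      simp
    rw [h1] at him
    exact tendsto_nhds_unique him tendsto_const_nhds
  have hale : a ≤ (deriv L 0).re := ge_of_tendsto' hre fun n => hd (θ n)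
  have hinj : InjOn L Dk := by
    rcases hurwitz_inj (U := Dk) isOpen_ball (convex_ball (0 : ℂ) 1).isPreconnected
      (fun n => (h (θ n)).diff) (fun n => (h (θ n)).inj) hL with h1 | ⟨c, hc⟩
    · exact h1
    · exfalso
      have h2 : L =ᶠ[𝓝 0] fun _ => c := by
        filter_upwards [isOpen_ball.mem_nhds zero_mem_Dk] with z hz
        exact hc z hz
      have h3 : deriv L 0 = 0 := by
        rw [h2.deriv_eq]
        simp
      rw [h3] at hale
      simp at hale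
      linarith
  have hL0 : L 0 = 0 := by
    have h1 := hpt 0 zero_mem_Dk
    have h2 : (fun n => φ (θ n) 0) = fun _ => (0 : ℂ) := by
      funext n
      exact (h (θ n)).zero
    rw [h2] at h1
    exact tendsto_nhds_unique h1 tendsto_const_nhds
  have hopen : IsOpen (L '' Dk) := isOpen_image_of_injOn isOpen_ball hLd hinj isOpen_ball
    Subset.rfl
  have hcl : L '' Dk ⊆ closedBall 0 1 := by
    rintro _ ⟨z, hz, rfl⟩
    rw [mem_closedBall, dist_zero_right]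
    refine le_of_tendsto' (hpt z hz).norm fun n => ?_
    have h1 := (h (θ n)).maps hz
    simp only [Dk, mem_ball, dist_zero_right] at h1
    exact h1.le
  have hmaps : MapsTo L Dk Dk := by
    intro z hz
    have h1 : L '' Dk ⊆ interior (closedBall (0 : ℂ) 1) := hopen.subset_interior_iff.2 hcl
    rw [interior_closedBall (0 : ℂ) one_ne_zero] at h1
    exact h1 ⟨z, hz, rfl⟩
  refine ⟨θ, hθ, L, ⟨hLd, hinj, hmaps, hL0, (deriv L 0).re, lt_of_lt_of_le ha hale, ?_⟩, hL, hre⟩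
  apply Complex.ext
  · simp
  · simp [him0]

theorem fac_closed {φ : ℂ → ℂ} (h : UM φ) (ψ χ : ℕ → ℂ → ℂ) (hf : ∀ n, Fac φ (ψ n) (χ n)) :
    ∃ ψ' χ' : ℂ → ℂ, Fac φ ψ' χ' ∧ ∃ θ : ℕ → ℕ, StrictMono θ ∧
      Tendsto (fun n => (deriv (χ (θ n)) 0).re) atTop (𝓝 (deriv χ' 0).re) := by
  have ha : 0 < (deriv φ 0).re := h.deriv_pos
  have hmul : ∀ n, (deriv φ 0).re = (deriv (ψ n) 0).re * (deriv (χ n) 0).re := fun n =>
    (hf n).deriv
  have hψ1 : ∀ n, (deriv (ψ n) 0).re ≤ 1 := fun n => (hf n).1.deriv_le_one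
  have hχ1 : ∀ n, (deriv (χ n) 0).re ≤ 1 := fun n => (hf n).2.1.deriv_le_one
  have hψ0 : ∀ n, 0 < (deriv (ψ n) 0).re := fun n => (hf n).1.deriv_pos
  have hχ0 : ∀ n, 0 < (deriv (χ n) 0).re := fun n => (hf n).2.1.deriv_pos
  have hψa : ∀ n, (deriv φ 0).re ≤ (deriv (ψ n) 0).re := fun n => by
    rw [hmul n]
    exact mul_le_of_le_one_right (hψ0 n).le (hχ1 n)
  have hχa : ∀ n, (deriv φ 0).re ≤ (deriv (χ n) 0).re := fun n => by
    rw [hmul n]
    exact mul_le_of_le_one_left (hχ0 n).le (hψ1 n)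
  obtain ⟨θ₁, hθ₁, χ', hχ', hχL, hχd⟩ := um_compact χ (fun n => (hf n).2.1) ha hχa
  obtain ⟨θ₂, hθ₂, ψ', hψ', hψL, hψd⟩ := um_compact (fun n => ψ (θ₁ n))
    (fun n => (hf (θ₁ n)).1) ha (fun n => hψa (θ₁ n))
  refine ⟨ψ', χ', ⟨hψ', hχ', ?_⟩, fun n => θ₁ (θ₂ n), hθ₁.comp hθ₂, hχd.comp hθ₂.tendsto_atTop⟩
  intro z hz
  have hg : Tendsto (fun n => χ (θ₁ (θ₂ n)) z) atTop (𝓝[Dk] (χ' z)) := by
    rw [tendsto_nhdsWithin_iff]
    refine ⟨(hχL.tendsto_at hz).comp hθ₂.tendsto_atTop, Eventually.of_forall fun n => ?_⟩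
    exact (hf (θ₁ (θ₂ n))).2.1.maps hz
  have h1 := hψL.tendsto_comp (hψ'.diff.continuousOn (χ' z) (hχ'.maps hz)) (hχ'.maps hz) hg
  have h2 : (fun n => ψ (θ₁ (θ₂ n)) (χ (θ₁ (θ₂ n)) z)) = fun _ => φ z := by
    funext n
    exact ((hf (θ₁ (θ₂ n))).2.2 z hz).symm
  rw [h2] at h1
  exact tendsto_nhds_unique tendsto_const_nhds h1

end Pool.Agent.LOE
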