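import Pool.Agent.LOE.CCN

/-!
# LOE / HUL: the filled hull

`E = connectedComponentIn Vᶜ 1`, `hull V = Eᶜ`.  `1 ∈ Vᶜ` (`V ⊆ Dk`).  `E ⊆ Vᶜ`, so `V ⊆ hull V`.
`{w | 1 ≤ ‖w‖}` is preconnected (`preconn_outside 1`), contained in `Vᶜ` and contains `1`, so it is
contained in `E`: `hull V ⊆ Dk`, bounded.  `E` is closed (`Vᶜ` is closed; the closure of `E` is
preconnected and contained in `Vᶜ`: `IsClosed.connectedComponentIn` or by
`IsPreconnected.subset_connectedComponentIn` for `closure E`), so `hull V` is open.  `(hull V)ᶜ = E`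
is preconnected.
`hull V` is preconnected: suppose `hull V ⊆ A ∪ B`, `A B` open, with `hull V ∩ A`, `hull V ∩ B`
nonempty and `hull V ∩ (A ∩ B) = ∅`.  `V` is preconnected, nonempty, in `hull V`: say `V ⊆ A`
(symmetric).  Put `B' = hull V ∩ B` (open, nonempty) and `A' = hull V ∩ A`.  Then `E ∪ B' = A'ᶜ` is
closed.  Claim: `E ∪ B'` is preconnected.  Let `E ∪ B'` be covered by two disjoint closed subsets
`P, Q` with `E ⊆ P` (`E` preconnected); then `Q ⊆ B'`, and `Q = B' \ P` is open, and closed, so `Q`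
is empty (or all of `ℂ`, impossible since `E` is nonempty).  `E ∪ B' ⊆ Vᶜ` (`V ⊆ A'`) contains `1`,
so it is contained in `connectedComponentIn Vᶜ 1 = E`: contradiction with `B' ⊆ hull V` nonempty.
-/

set_option autoImplicit false

open Metric Set Filter Topology

namespace Pool.Agent.LOE

theorem subset_hull (V : Set ℂ) : V ⊆ hull V := fun _ hx hxE =>
  (connectedComponentIn_subset _ _ hxE) hx

/-- adding a relatively clopen piece of the complement of a closed preconnected set -/
private theorem HUL_union {E B P Q : Set ℂ} (hE : IsPreconnected E) (h1 : (1 : ℂ) ∈ E)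
    (hB : IsOpen B) (hEB : IsClosed (E ∪ B)) (hd : ∀ x ∈ B, x ∉ E)
    (hP : IsClosed P) (hQ : IsClosed Q) (hcov : E ∪ B ⊆ P ∪ Q) (hPQ : Disjoint P Q)
    (hEP : E ⊆ P) : E ∪ B ⊆ P := by
  have hQ1 : IsClosed ((E ∪ B) ∩ Q) := hEB.inter hQ
  have hQ2 : (E ∪ B) ∩ Q = B ∩ Pᶜ := by
    ext x
    constructor
    · rintro ⟨hx, hxQ⟩
      have hxP : x ∉ P := fun h => Set.disjoint_left.mp hPQ h hxQ
      exact ⟨hx.resolve_left (fun h => hxP (hEP h)), hxP⟩
    · rintro ⟨hx, hxP⟩
      exact ⟨Or.inr hx, (hcov (Or.inr hx)).resolve_left hxP⟩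
  have hQ3 : IsClopen ((E ∪ B) ∩ Q) := ⟨hQ1, by rw [hQ2]; exact hB.inter hP.isOpen_compl⟩
  rcases isClopen_iff.mp hQ3 with h | h
  · intro x hx
    rcases hcov hx with h' | h'
    · exact h'
    · exact absurd (show x ∈ (E ∪ B) ∩ Q from ⟨hx, h'⟩) (by rw [h]; exact fun h => h)
  · exfalso
    have : (1 : ℂ) ∈ (E ∪ B) ∩ Q := by rw [h]; exact Set.mem_univ _
    exact Set.disjoint_left.mp hPQ (hEP h1) this.2

private theorem HUL_pre {E B : Set ℂ} (hE : IsPreconnected E) (h1 : (1 : ℂ) ∈ E)
    (hB : IsOpen B) (hEB : IsClosed (E ∪ B)) (hd : ∀ x ∈ B, x ∉ E) : IsPreconnected (E ∪ B) := by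
  rw [isPreconnected_iff_subset_of_fully_disjoint_closed hEB]
  intro P Q hP hQ hcov hPQ
  rcases (isPreconnected_iff_subset_of_disjoint_closed.mp hE) P Q hP hQ
    (Set.subset_union_left.trans hcov) (by rw [hPQ.inter_eq]; exact Set.inter_empty _) with h | h
  · exact Or.inl (HUL_union hE h1 hB hEB hd hP hQ hcov hPQ h)
  · exact Or.inr (HUL_union hE h1 hB hEB hd hQ hP (by rwa [Set.union_comm Q P]) hPQ.symm h)

private theorem HUL_side {V u v : Set ℂ} (hcl : IsClosed (connectedComponentIn Vᶜ (1 : ℂ)))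
    (h1 : (1 : ℂ) ∈ Vᶜ) (hu : IsOpen u) (hv : IsOpen v) (hcov : hull V ⊆ u ∪ v)
    (hd : hull V ∩ (u ∩ v) = ∅) (hVu : V ⊆ u) : hull V ⊆ u := by
  set E := connectedComponentIn Vᶜ (1 : ℂ) with hE
  have hh : hull V = Eᶜ := rfl
  have hop : IsOpen (hull V) := hcl.isOpen_compl
  have hB : IsOpen (hull V ∩ v) := hop.inter hv
  have hA : IsOpen (hull V ∩ u) := hop.inter hu
  have heq : E ∪ (hull V ∩ v) = (hull V ∩ u)ᶜ := by
    ext x
    constructor
    · rintro (hx | ⟨hx, hxv⟩)
      · exact fun h => h.1 hx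
      · intro h
        have : x ∈ hull V ∩ (u ∩ v) := ⟨hx, h.2, hxv⟩
        rw [hd] at this
        exact this
    · intro hx
      by_cases hxE : x ∈ E
      · exact Or.inl hxE
      · refine Or.inr ⟨hxE, ?_⟩
        exact (hcov hxE).resolve_left (fun h => hx ⟨hxE, h⟩)
  have hcl2 : IsClosed (E ∪ (hull V ∩ v)) := by
    rw [heq]; exact hA.isClosed_compl
  have h1E : (1 : ℂ) ∈ E := mem_connectedComponentIn h1
  have hpre : IsPreconnected (E ∪ (hull V ∩ v)) :=
    HUL_pre isPreconnected_connectedComponentIn h1E hB hcl2 (fun x hx => hx.1)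
  have hsub : E ∪ (hull V ∩ v) ⊆ E := by
    apply hpre.subset_connectedComponentIn (Or.inl h1E)
    rintro x (hx | ⟨hx, hxv⟩)
    · exact connectedComponentIn_subset _ _ hx
    · intro hxV
      have : x ∈ hull V ∩ (u ∩ v) := ⟨hx, hVu hxV, hxv⟩
      rw [hd] at this
      exact this
  intro x hx
  rcases hcov hx with h | h
  · exact h
  · exact absurd (hsub (Or.inr ⟨hx, h⟩)) hx

theorem hull_SD {V : Set ℂ} (hV : IsOpen V) (hc : IsPreconnected V) (hD : V ⊆ Dk)
    (hn : V.Nonempty) : SD (hull V) ∧ hull V ⊆ Dk := by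
  have h1 : (1 : ℂ) ∈ Vᶜ := by
    intro h
    have := hD h
    simp [Dk] at this
  set E := connectedComponentIn Vᶜ (1 : ℂ) with hE
  have hcl : IsClosed E := by
    have hsub : closure E ⊆ E := by
      apply (isPreconnected_connectedComponentIn.closure).subset_connectedComponentIn
        (subset_closure (mem_connectedComponentIn h1))
      exact closure_minimal (connectedComponentIn_subset _ _) hV.isClosed_compl
    exact closure_subset_iff_isClosed.mp hsub
  have hout : {w : ℂ | 1 ≤ ‖w‖} ⊆ E := by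
    apply (preconn_outside 1).subset_connectedComponentIn
    · show (1 : ℝ) ≤ ‖(1 : ℂ)‖
      simp
    · intro w hw hwV
      have := hD hwV
      simp only [Dk, mem_ball, dist_zero_right] at this
      exact absurd hw (not_le.mpr this)
  have hsubD : hull V ⊆ Dk := by
    intro w hw
    by_contra hcon
    apply hw
    apply hout
    simp only [Dk, mem_ball, dist_zero_right, not_lt] at hcon
    exact hcon
  refine ⟨⟨hcl.isOpen_compl, ?_, ?_, ?_⟩, hsubD⟩
  · rw [isPreconnected_iff_subset_of_disjoint]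
    intro u v hu hv hcov hd
    rcases (isPreconnected_iff_subset_of_disjoint.mp hc) u v hu hv
      ((subset_hull V).trans hcov) (by
        apply Set.eq_empty_of_subset_empty
        rw [← hd]
        exact Set.inter_subset_inter_left _ (subset_hull V)) with h | h
    · exact Or.inl (HUL_side hcl h1 hu hv hcov hd h)
    · exact Or.inr (HUL_side hcl h1 hv hu (by rwa [Set.union_comm v u])
        (by rwa [Set.inter_comm v u]) h)
  · exact Metric.isBounded_ball.subset hsubD
  · show IsPreconnected (Eᶜᶜ)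
    rw [compl_compl]
    exact isPreconnected_connectedComponentIn

end Pool.Agent.LOE
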