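import Pool.Agent.LOE.CCN

/-!
# LOE / ISL: adding a small disc does not fill the whole disc (boundary bumping)

`X = closedBall 0 1 \ Ω` is compact and preconnected: `Ωᶜ` is closed, preconnected and contains
`{w | 1 ≤ ‖w‖}`; if `X` is a disjoint union of closed sets `P, Q`, the unit circle (preconnected)
lies in one, say `P`, and `Ωᶜ = (P ∪ {w | 1 ≤ ‖w‖}) ∪ Q` with both sets closed and disjoint, so one
is empty.  `b ∈ X`.  `X' = X \ ball b ε` is compact, contains the unit circle.  Let `C` be the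
connected component of `1` in `X'`; it contains the unit circle.  Claim: `C` meets `Dk`.  Suppose
not: `C` = unit circle, disjoint from `closedBall b ε`.  In the compact Hausdorff space `X'` the
component is the intersection of the clopen sets containing the point
(`connectedComponent_eq_iInter_isClopen`), so by compactness there is a set `E ⊆ X'`, clopen in
`X'`, with `C ⊆ E` and `E ∩ closedBall b ε = ∅`.  `E` is closed in `ℂ`, and open in `X`: `E = O ∩ X'`
with `O` open, hence `E = (O \ closedBall b ε) ∩ X`.  As `X` is preconnected and `1 ∈ E`, `E = X`,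
contradiction with `b ∈ X \ E`.
So there is `a ∈ C ∩ Dk`; `C` is preconnected, contains `1` and `C ⊆ (Ω ∪ ball b ε)ᶜ`, so
`a ∈ connectedComponentIn (Ω ∪ ball b ε)ᶜ 1`, i.e. `a ∉ hull (Ω ∪ ball b ε)`.
-/

set_option autoImplicit false

open Metric Set Filter Topology

namespace Pool.Agent.LOE

/-- separation of a closed set from the component of a point in a compact set -/
private theorem ISL_sep {X : Set ℂ} (hX : IsCompact X) {x : ℂ} (hx : x ∈ X) {F : Set ℂ}
    (hF : IsClosed F) (hd : Disjoint (connectedComponentIn X x) F) :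
    ∃ E : Set X, IsClopen E ∧ (⟨x, hx⟩ : X) ∈ E ∧ ∀ y ∈ E, (y : ℂ) ∉ F := by
  have : CompactSpace X := isCompact_iff_compactSpace.1 hX
  have hne : Nonempty {s : Set X // IsClopen s ∧ (⟨x, hx⟩ : X) ∈ s} :=
    ⟨⟨univ, isClopen_univ, mem_univ _⟩⟩
  obtain ⟨⟨E, hE1, hE2⟩, hE3⟩ := exists_subset_nhds_of_isCompact'
    (V := fun s : {s : Set X // IsClopen s ∧ (⟨x, hx⟩ : X) ∈ s} => (s : Set X))
    (U := {y : X | (y : ℂ) ∉ F})
    (by
      rintro ⟨s, hs⟩ ⟨s', hs'⟩
      exact ⟨⟨s ∩ s', hs.1.inter hs'.1, hs.2, hs'.2⟩, inter_subset_left, inter_subset_right⟩)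
    (fun s => s.2.1.1.isCompact) (fun s => s.2.1.1)
    (by
      intro y hy
      rw [← connectedComponent_eq_iInter_isClopen] at hy
      have hy' : (y : ℂ) ∈ connectedComponentIn X x := by
        rw [connectedComponentIn_eq_image hx]
        exact ⟨y, hy, rfl⟩
      have hyF : (y : ℂ) ∉ F := fun h => (Set.disjoint_left.1 hd) hy' h
      have ho : IsOpen {y : X | (y : ℂ) ∉ F} := hF.isOpen_compl.preimage continuous_subtype_val
      exact ho.mem_nhds hyF)
  exact ⟨E, hE1, hE2, fun y hy => hE3 hy⟩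

theorem no_island {Ω : Set ℂ} (hΩ : IsOpen Ω) (hc : IsPreconnected Ωᶜ) (hD : Ω ⊆ Dk) {b : ℂ}
    {ε : ℝ} (hε : 0 < ε) (hb : b ∉ Ω) (hbD : closedBall b ε ⊆ Dk) :
    ∃ a ∈ Dk, a ∉ hull (Ω ∪ ball b ε) := by
  by_contra hcon
  push Not at hcon
  have hmemD : ∀ w : ℂ, w ∈ Dk ↔ ‖w‖ < 1 := fun w => by simp [Dk]
  have hbb : ball b ε ⊆ closedBall b ε := ball_subset_closedBall
  -- the compact set
  set X : Set ℂ := closedBall 0 1 ∩ (Ω ∪ ball b ε)ᶜ with hXdef
  have hXc : IsCompact X :=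
    (isCompact_closedBall (0 : ℂ) 1).inter_right (hΩ.union isOpen_ball).isClosed_compl
  have hS : sphere (0 : ℂ) 1 ⊆ X := by
    intro w hw
    have hw1 : ‖w‖ = 1 := by simpa using hw
    refine ⟨sphere_subset_closedBall hw, ?_⟩
    rintro (h | h)
    · have := (hmemD w).1 (hD h); linarith
    · have := (hmemD w).1 (hbD (hbb h)); linarith
  have h1S : (1 : ℂ) ∈ sphere (0 : ℂ) 1 := by simp
  have h1X : (1 : ℂ) ∈ X := hS h1S
  have hcomp : connectedComponentIn X 1 ⊆ connectedComponentIn (Ω ∪ ball b ε)ᶜ 1 :=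
    isPreconnected_connectedComponentIn.subset_connectedComponentIn
      (mem_connectedComponentIn h1X)
      ((connectedComponentIn_subset X 1).trans inter_subset_right)
  have hdis : Disjoint (connectedComponentIn X 1) (closedBall b ε) := by
    rw [Set.disjoint_left]
    intro w hw hwb
    have := hcon w (hbD hwb)
    exact this (hcomp hw)
  obtain ⟨E', hE1, hE2, hE3⟩ := ISL_sep hXc h1X isClosed_closedBall hdis
  have : CompactSpace X := isCompact_iff_compactSpace.1 hXc
  set E : Set ℂ := Subtype.val '' E' with hE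
  have hEc : IsClosed E := (hE1.1.isCompact.image continuous_subtype_val).isClosed
  set E2 : Set ℂ := Subtype.val '' E'ᶜ with hE2'
  have hE2c : IsClosed E2 :=
    (hE1.compl.1.isCompact.image continuous_subtype_val).isClosed
  have hEX : ∀ w, w ∈ X → w ∈ E ∨ w ∈ E2 := by
    intro w hw
    by_cases h : (⟨w, hw⟩ : X) ∈ E'
    · exact Or.inl ⟨_, h, rfl⟩
    · exact Or.inr ⟨_, h, rfl⟩
  have hdisj : ∀ w, w ∈ E → w ∉ E2 := by
    rintro w ⟨y, hy, rfl⟩ ⟨y', hy', h⟩
    exact hy' (Subtype.ext h ▸ hy)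
  have hEb : ∀ w, w ∈ E → w ∉ closedBall b ε := by
    rintro w ⟨y, hy, rfl⟩
    exact hE3 y hy
  have hSp : IsPreconnected (sphere (0 : ℂ) 1) :=
    isPreconnected_sphere (by rw [Complex.rank_real_complex]; norm_num) 0 1
  have hSE : sphere (0 : ℂ) 1 ⊆ E := by
    have hpre : IsPreconnected ((Subtype.val : X → ℂ) ⁻¹' sphere (0 : ℂ) 1) := by
      rw [← Topology.IsInducing.subtypeVal.isPreconnected_image, Subtype.image_preimage_coe,
        Set.inter_eq_right.2 hS]
      exact hSp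
    have hsub := hpre.subset_isClopen hE1 ⟨⟨1, h1X⟩, h1S, hE2⟩
    intro w hw
    exact ⟨⟨w, hS hw⟩, hsub hw, rfl⟩
  -- the two closed sets
  have hP : IsClosed (E ∪ {w : ℂ | 1 ≤ ‖w‖}) :=
    hEc.union (isClosed_le continuous_const continuous_norm)
  have hQ : IsClosed (E2 ∪ (closedBall b ε ∩ Ωᶜ)) :=
    hE2c.union (isClosed_closedBall.inter hΩ.isClosed_compl)
  have hcov : Ωᶜ ⊆ (E ∪ {w : ℂ | 1 ≤ ‖w‖}) ∪ (E2 ∪ (closedBall b ε ∩ Ωᶜ)) := by
    intro w hw
    by_cases h1 : 1 ≤ ‖w‖
    · exact Or.inl (Or.inr h1)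
    · by_cases h2 : w ∈ closedBall b ε
      · exact Or.inr (Or.inr ⟨h2, hw⟩)
      · have hwX : w ∈ X := by
          refine ⟨by simpa using (not_le.1 h1).le, ?_⟩
          rintro (h | h)
          · exact hw h
          · exact h2 (hbb h)
        rcases hEX w hwX with h | h
        · exact Or.inl (Or.inl h)
        · exact Or.inr (Or.inl h)
  have h1Ω : (1 : ℂ) ∈ Ωᶜ := fun h => by
    have := (hmemD 1).1 (hD h)
    simp at this
  obtain ⟨w, hw, hw1, hw2⟩ := isPreconnected_closed_iff.1 hc _ _ hP hQ hcov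
    ⟨1, h1Ω, Or.inr (by simp)⟩ ⟨b, hb, Or.inr ⟨mem_closedBall_self hε.le, hb⟩⟩
  rcases hw1 with hw1 | hw1
  · rcases hw2 with hw2 | hw2
    · exact hdisj w hw1 hw2
    · exact hEb w hw1 hw2.1
  · rcases hw2 with hw2 | hw2
    · have hwX : w ∈ X := by
        obtain ⟨y, -, rfl⟩ := hw2
        exact y.2
      have hle : ‖w‖ ≤ 1 := by simpa using hwX.1
      have hws : w ∈ sphere (0 : ℂ) 1 := by
        simpa using le_antisymm hle hw1
      exact hdisj w (hSE hws) hw2
    · have := (hmemD w).1 (hbD hw2.1)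
      have h2 : 1 ≤ ‖w‖ := hw1
      linarith

end Pool.Agent.LOE
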