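import Pool.Agent.LOE.RMT
import Pool.Agent.LOE.HUL
import Pool.Agent.LOE.ISL
import Pool.Agent.LOE.SCW

/-!
# LOE / DEC: no gaps

`Ω = φ '' Dk` is open, preconnected, `Ω ⊆ Dk`, `0 ∈ Ω`, `Ωᶜ` is preconnected (`compl_image`).
`Ω ≠ Dk` (`UM.surj`).  `Dk` is preconnected, so there is `b ∈ closure Ω ∩ Dk`, `b ∉ Ω` (otherwise
`Ω` is relatively clopen in `Dk`; e.g. `IsPreconnected.subset_of_closure_inter_subset`).
`ε > 0` with `closedBall b ε ⊆ Dk`.  `V = Ω ∪ ball b ε` is open, preconnected (the two sets meet as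
`b ∈ closure Ω`), `V ⊆ Dk`.  `hull V` is `SD`, contains `0`, `⊆ Dk`, and there is `a ∈ Dk \ hull V`
(`no_island`).  `ψ` = Riemann map of `hull V` (`rmt`): `UM ψ`.  `φ '' Dk = Ω ⊆ hull V = ψ '' Dk`:
`χ` from `UM.lift`.  `(deriv ψ 0).re < 1`: otherwise `ψ = id` on `Dk` (`UM.eq_id`), so
`hull V = Dk`, contradiction with `a`.  `(deriv χ 0).re < 1`: otherwise `χ = id`, `φ = ψ` on `Dk`,
`Ω = hull V ∋ b`, contradiction.
-/

set_option autoImplicit false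

open Metric Set Filter Topology

namespace Pool.Agent.LOE

theorem decompose {φ : ℂ → ℂ} (h : UM φ) (h1 : (deriv φ 0).re < 1) :
    ∃ ψ χ : ℂ → ℂ, Fac φ ψ χ ∧ (deriv ψ 0).re < 1 ∧ (deriv χ 0).re < 1 := by
  have hΩo : IsOpen (φ '' Dk) := isOpen_image_of_injOn isOpen_ball h.diff h.inj isOpen_ball
    Subset.rfl
  have hDc : IsPreconnected Dk := (convex_ball (0 : ℂ) 1).isPreconnected
  have hΩc : IsPreconnected (φ '' Dk) := hDc.image φ h.diff.continuousOn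
  have hΩD : φ '' Dk ⊆ Dk := by
    rintro _ ⟨z, hz, rfl⟩
    exact h.maps hz
  have h0Ω : (0 : ℂ) ∈ φ '' Dk := ⟨0, zero_mem_Dk, h.zero⟩
  have hcompl : IsPreconnected (φ '' Dk)ᶜ :=
    compl_image h.diff h.inj (isBounded_ball.subset hΩD)
  have hne : φ '' Dk ≠ Dk := fun he => by
    have := h.surj he
    linarith
  obtain ⟨b, hbcl, hbD, hbΩ⟩ : ∃ b : ℂ, b ∈ closure (φ '' Dk) ∧ b ∈ Dk ∧ b ∉ φ '' Dk := by
    by_contra hcon
    push Not at hcon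
    apply hne
    apply Subset.antisymm hΩD
    refine hDc.subset_of_closure_inter_subset hΩo ⟨0, zero_mem_Dk, h0Ω⟩ ?_
    rintro x ⟨hx1, hx2⟩
    exact hcon x hx1 hx2
  obtain ⟨ε, hε, hεD⟩ : ∃ ε : ℝ, 0 < ε ∧ closedBall b ε ⊆ Dk := by
    have : Dk ∈ 𝓝 b := isOpen_ball.mem_nhds hbD
    exact Metric.nhds_basis_closedBall.mem_iff.1 this
  have hVo : IsOpen (φ '' Dk ∪ ball b ε) := hΩo.union isOpen_ball
  have hVc : IsPreconnected (φ '' Dk ∪ ball b ε) := by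
    obtain ⟨y, hy, hyb⟩ := Metric.mem_closure_iff.1 hbcl ε hε
    refine IsPreconnected.union y hy ?_ hΩc (convex_ball b ε).isPreconnected
    rw [mem_ball, dist_comm]
    exact hyb
  have hVD : φ '' Dk ∪ ball b ε ⊆ Dk := union_subset hΩD (ball_subset_closedBall.trans hεD)
  obtain ⟨hSD, hHD⟩ := hull_SD hVo hVc hVD ⟨0, Or.inl h0Ω⟩
  have hVH : φ '' Dk ∪ ball b ε ⊆ hull (φ '' Dk ∪ ball b ε) := subset_hull _
  obtain ⟨a, haD, haH⟩ := no_island hΩo hcompl hΩD hε hbΩ hεD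
  obtain ⟨ψ, hψd, hψi, hψim, hψ0, hψp⟩ := rmt hSD (hVH (Or.inl h0Ω))
  have hψ : UM ψ := ⟨hψd, hψi, fun z hz => hHD (by rw [← hψim]; exact ⟨z, hz, rfl⟩), hψ0, hψp⟩
  obtain ⟨χ, hχ⟩ := UM.lift h hψ (by rw [hψim]; exact subset_union_left.trans hVH)
  refine ⟨ψ, χ, hχ, ?_, ?_⟩
  · by_contra hcon
    push Not at hcon
    have hid := hψ.eq_id hcon
    apply haH
    rw [← hψim]
    exact ⟨a, haD, hid a haD⟩
  · by_contra hcon
    push Not at hcon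
    have hid := hχ.2.1.eq_id hcon
    apply hbΩ
    have hb1 : b ∈ ψ '' Dk := by
      rw [hψim]
      exact hVH (Or.inr (mem_ball_self hε))
    obtain ⟨z, hz, hzb⟩ := hb1
    refine ⟨z, hz, ?_⟩
    rw [hχ.2.2 z hz, hid z hz, hzb]

end Pool.Agent.LOE
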