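import Pool.Agent.LOE.TRN

/-!
# LOE / EST: one step up to second order

For `‖z‖ ≤ 1 / 2`: `‖p z‖ ≤ 3`, `Re (1 + τ p) ≥ 1`, `u = χ z - z = -2 τ z p / (1 + τ p)`, `‖χ z‖ ≤ ‖z‖`
(`UM.norm_le`), `‖u‖ ≤ 3 τ ≤ 2 s` (`τ = tanh (s / 2)`, `|τ - s / 2| ≤ s ^ 2`, `0 ≤ τ ≤ s / 2`),
`‖u + s z p‖ ≤ |2 τ - s| * 3 / 2 + 2 τ ‖z p‖ ‖τ p / (1 + τ p)‖ ≤ C s ^ 2`.
`G` on the convex set `closedBall 0 (1 / 2)`: `‖deriv G‖ ≤ 2 M`, `‖deriv (deriv G)‖ ≤ 16 M` or so
(Cauchy estimates on circles of radius `1 / 2`, `1 / 4` inside `Dk`), so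
`‖G (χ z) - G z - u * deriv G z‖ ≤ C M ‖u‖ ^ 2` and `|exp s - 1 - s| ≤ s ^ 2` for `0 < s ≤ 1`.  Total:
`exp s * G (χ z) - G z + s * (z * deriv G z * p z - G z)
 = (exp s - 1 - s) G (χ z) + s (G (χ z) - G z) + (G (χ z) - G z - u G' z) + G' z (u + s z p)`.
`coef_bound`: Cauchy estimate for the `k`-th derivative on circles of radius `r < 1 / 2`, `r → 1 / 2`
(or directly on the closed disc of radius `1 / 2`: `F` is holomorphic on `Dk`).
-/

set_option autoImplicit false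

open Metric Set Filter Topology

namespace Pool.Agent.LOE


private theorem lest_cb {G : ℂ → ℂ} {M : ℝ} (hG : DifferentiableOn ℂ G Dk)
    (hM : ∀ z ∈ Dk, ‖G z‖ ≤ M) {c : ℂ} (hc : ‖c‖ ≤ 3 / 4) : ‖deriv G c‖ ≤ 8 * M := by
  have hsub : closedBall c (1 / 8) ⊆ Dk := by
    intro w hw
    rw [mem_closedBall, dist_eq_norm] at hw
    have : ‖w‖ ≤ ‖w - c‖ + ‖c‖ := by
      calc ‖w‖ = ‖(w - c) + c‖ := by ring_nf
        _ ≤ _ := norm_add_le _ _
    simp only [Dk, mem_ball, dist_zero_right]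
    linarith
  have hd : DiffContOnCl ℂ G (ball c (1 / 8)) := by
    apply DifferentiableOn.diffContOnCl
    rw [closure_ball _ (by norm_num)]
    exact hG.mono hsub
  have h := Complex.norm_deriv_le_of_forall_mem_sphere_norm_le (by norm_num : (0 : ℝ) < 1 / 8) hd
    (fun z hz => hM z (hsub (sphere_subset_closedBall hz)))
  calc ‖deriv G c‖ ≤ M / (1 / 8) := h
    _ = 8 * M := by ring

private theorem lest_cb2 {G : ℂ → ℂ} {M : ℝ} (hG : DifferentiableOn ℂ G Dk)
    (hM : ∀ z ∈ Dk, ‖G z‖ ≤ M) {c : ℂ} (hc : ‖c‖ ≤ 1 / 2) : ‖deriv (deriv G) c‖ ≤ 32 * M := by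
  have hsub' : closedBall c (1 / 4) ⊆ closedBall (0 : ℂ) (3 / 4) := by
    intro w hw
    rw [mem_closedBall, dist_eq_norm] at hw
    have : ‖w‖ ≤ ‖w - c‖ + ‖c‖ := by
      calc ‖w‖ = ‖(w - c) + c‖ := by ring_nf
        _ ≤ _ := norm_add_le _ _
    simp only [mem_closedBall, dist_zero_right]
    linarith
  have hsub : closedBall c (1 / 4) ⊆ Dk := by
    refine hsub'.trans ?_
    intro w hw
    simp only [mem_closedBall, dist_zero_right] at hw
    simp only [Dk, mem_ball, dist_zero_right]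
    linarith
  have hG' : DifferentiableOn ℂ (deriv G) Dk := hG.deriv isOpen_ball
  have hd : DiffContOnCl ℂ (deriv G) (ball c (1 / 4)) := by
    apply DifferentiableOn.diffContOnCl
    rw [closure_ball _ (by norm_num)]
    exact hG'.mono hsub
  have h := Complex.norm_deriv_le_of_forall_mem_sphere_norm_le (by norm_num : (0 : ℝ) < 1 / 4) hd
    (C := 8 * M) (fun z hz => by
      have h1 := hsub' (sphere_subset_closedBall hz)
      simp only [mem_closedBall, dist_zero_right] at h1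
      exact lest_cb hG hM h1)
  calc ‖deriv (deriv G) c‖ ≤ 8 * M / (1 / 4) := h
    _ = 32 * M := by ring

private theorem lest_taylor {G : ℂ → ℂ} {M : ℝ} (hG : DifferentiableOn ℂ G Dk)
    (hM : ∀ z ∈ Dk, ‖G z‖ ≤ M) {z w : ℂ} (hz : ‖z‖ ≤ 1 / 2) (hw : ‖w‖ ≤ 1 / 2) :
    ‖G w - G z - (w - z) * deriv G z‖ ≤ 32 * M * ‖w - z‖ ^ 2 := by
  have hM0 : 0 ≤ M := (norm_nonneg _).trans (hM 0 (by simp [Dk]))
  have hDk : ∀ v : ℂ, ‖v‖ ≤ 1 / 2 → v ∈ Dk := by
    intro v hv
    simp only [Dk, mem_ball, dist_zero_right]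
    linarith
  have hG' : DifferentiableOn ℂ (deriv G) Dk := hG.deriv isOpen_ball
  have hat : ∀ v : ℂ, ‖v‖ ≤ 1 / 2 → DifferentiableAt ℂ G v := fun v hv =>
    hG.differentiableAt (isOpen_ball.mem_nhds (hDk v hv))
  have hat' : ∀ v : ℂ, ‖v‖ ≤ 1 / 2 → DifferentiableAt ℂ (deriv G) v := fun v hv =>
    hG'.differentiableAt (isOpen_ball.mem_nhds (hDk v hv))
  have hcv : Convex ℝ (closedBall (0 : ℂ) (1 / 2)) := convex_closedBall _ _
  have hderiv : ∀ v ∈ closedBall (0 : ℂ) (1 / 2), ‖deriv G v - deriv G z‖ ≤ 32 * M * ‖v - z‖ := by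
    intro v hv
    refine Convex.norm_image_sub_le_of_norm_deriv_le (s := closedBall (0 : ℂ) (1 / 2))
      (f := deriv G) ?_ ?_ hcv ?_ hv
    · intro x hx
      exact hat' x (by simpa using hx)
    · intro x hx
      exact lest_cb2 hG hM (by simpa using hx)
    · simpa using hz
  have hkey := Convex.norm_image_sub_le_of_norm_hasDerivWithin_le
    (s := closedBall (0 : ℂ) (1 / 2) ∩ closedBall z ‖w - z‖)
    (f := fun v => G v - (v - z) * deriv G z) (f' := fun v => deriv G v - deriv G z)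
    (x := z) (y := w) (C := 32 * M * ‖w - z‖) ?_ ?_ (hcv.inter (convex_closedBall _ _)) ?_ ?_
  · calc ‖G w - G z - (w - z) * deriv G z‖
        = ‖(G w - (w - z) * deriv G z) - (G z - (z - z) * deriv G z)‖ := by ring_nf
      _ ≤ 32 * M * ‖w - z‖ * ‖w - z‖ := hkey
      _ = 32 * M * ‖w - z‖ ^ 2 := by ring
  · intro v hv
    have h1 := (hat v (by simpa using hv.1)).hasDerivAt
    have h2 : HasDerivAt (fun v => (v - z) * deriv G z) (1 * deriv G z) v :=
      ((hasDerivAt_id v).sub_const z).mul_const _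
    have h3 := h1.sub h2
    rw [one_mul] at h3
    exact h3.hasDerivWithinAt
  · intro v hv
    refine (hderiv v hv.1).trans ?_
    have h1 : ‖v - z‖ ≤ ‖w - z‖ := by
      have := hv.2
      rwa [mem_closedBall, dist_eq_norm] at this
    have h2 : 0 ≤ 32 * M := by positivity
    exact mul_le_mul_of_nonneg_left h1 h2
  · exact ⟨by simpa using hz, mem_closedBall_self (norm_nonneg _)⟩
  · exact ⟨by simpa using hw, by rw [mem_closedBall, dist_eq_norm]⟩

private theorem lest_tau {s : ℝ} (hs : 0 < s) (h1 : s ≤ 1) :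
    0 ≤ tau s ∧ tau s ≤ s ∧ |s - 2 * tau s| ≤ 3 * s ^ 2 := by
  have he : 0 < Real.exp (-s) := Real.exp_pos _
  have h1e : Real.exp (-s) ≤ 1 := Real.exp_le_one_iff.2 (by linarith)
  have hge : 1 - s ≤ Real.exp (-s) := by
    have := Real.add_one_le_exp (-s)
    linarith
  have hden : 0 < 1 + Real.exp (-s) := by linarith
  have hab := Real.abs_exp_sub_one_sub_id_le (x := -s) (by rw [abs_neg, abs_of_pos hs]; exact h1)
  have hab' := abs_le.1 hab
  refine ⟨div_nonneg (by linarith) hden.le, ?_, ?_⟩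
  · rw [tau, div_le_iff₀ hden]
    nlinarith
  · have hid : s - 2 * tau s = (s * (Real.exp (-s) - 1) + 2 * (Real.exp (-s) - 1 - -s)) /
        (1 + Real.exp (-s)) := by
      rw [tau]
      field_simp
      ring
    rw [hid, abs_div, abs_of_pos hden, div_le_iff₀ hden]
    have hA : |s * (Real.exp (-s) - 1)| ≤ s ^ 2 := by
      rw [abs_le]
      constructor
      · nlinarith
      · nlinarith [sq_nonneg s]
    have hB : |2 * (Real.exp (-s) - 1 - -s)| ≤ 2 * s ^ 2 := by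
      rw [abs_mul, abs_of_pos (by norm_num : (0 : ℝ) < 2)]
      have : (-s) ^ 2 = s ^ 2 := by ring
      rw [this] at hab
      linarith
    calc |s * (Real.exp (-s) - 1) + 2 * (Real.exp (-s) - 1 - -s)|
        ≤ |s * (Real.exp (-s) - 1)| + |2 * (Real.exp (-s) - 1 - -s)| := abs_add_le _ _
      _ ≤ s ^ 2 + 2 * s ^ 2 := add_le_add hA hB
      _ = 3 * s ^ 2 * 1 := by ring
      _ ≤ 3 * s ^ 2 * (1 + Real.exp (-s)) :=
          mul_le_mul_of_nonneg_left (by linarith) (by positivity)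

theorem step_est (M : ℝ) : ∃ K : ℝ, 0 ≤ K ∧ ∀ (G χ p : ℂ → ℂ) (s : ℝ), 0 < s → s ≤ 1 →
    DifferentiableOn ℂ G Dk → (∀ z ∈ Dk, ‖G z‖ ≤ M) → Carath p → UM χ →
    (∀ z ∈ Dk, χ z * (1 + tau s * p z) = z * (1 - tau s * p z)) →
    ∀ z : ℂ, ‖z‖ ≤ 1 / 2 →
      ‖Real.exp s * G (χ z) - G z + s * vel G p z‖ ≤ K * s ^ 2 := by
  refine ⟨709 * |M|, by positivity, ?_⟩
  intro G χ p s hs hs1 hG hM hp hχ heq z hz
  have hM0 : 0 ≤ M := (norm_nonneg _).trans (hM 0 (by simp [Dk]))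
  rw [abs_of_nonneg hM0]
  have hzD : z ∈ Dk := by
    simp only [Dk, mem_ball, dist_zero_right]
    linarith
  obtain ⟨ht0, hts, htt⟩ := lest_tau hs hs1
  have hpz : ‖p z‖ ≤ 3 := hp.bound hz
  have hre : 1 ≤ ((1 : ℂ) + tau s * p z).re := by
    have h2 : ((1 : ℂ) + tau s * p z).re = 1 + tau s * (p z).re := by
      simp
    rw [h2]
    have := mul_nonneg ht0 (hp.pos z hzD).le
    linarith
  have hn1 : 1 ≤ ‖(1 : ℂ) + tau s * p z‖ := hre.trans (Complex.re_le_norm _)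
  have htn : ‖((tau s : ℝ) : ℂ)‖ = tau s := by
    rw [Complex.norm_real, Real.norm_of_nonneg ht0]
  have huE : (χ z - z) * (1 + tau s * p z) = -(2 * tau s * z * p z) := by
    have := heq z hzD
    linear_combination this
  have hsz : 0 ≤ s := hs.le
  have hu : ‖χ z - z‖ ≤ 3 * s := by
    have h3 : ‖(χ z - z) * (1 + tau s * p z)‖ ≤ 3 * s := by
      rw [huE, norm_neg, norm_mul, norm_mul, norm_mul, htn]
      have h4 : ‖(2 : ℂ)‖ = 2 := by norm_num
      rw [h4]
      calc 2 * tau s * ‖z‖ * ‖p z‖ ≤ 2 * s * (1 / 2) * 3 := by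
            have a1 : 2 * tau s ≤ 2 * s := by linarith
            have a2 : 2 * tau s * ‖z‖ ≤ 2 * s * (1 / 2) :=
              mul_le_mul a1 hz (norm_nonneg _) (by linarith)
            exact mul_le_mul a2 hpz (norm_nonneg _) (by linarith)
        _ = 3 * s := by ring
    rw [norm_mul] at h3
    calc ‖χ z - z‖ = ‖χ z - z‖ * 1 := (mul_one _).symm
      _ ≤ ‖χ z - z‖ * ‖(1 : ℂ) + tau s * p z‖ := mul_le_mul_of_nonneg_left hn1 (norm_nonneg _)
      _ ≤ 3 * s := h3
  have hv : ‖(χ z - z) + s * z * p z‖ ≤ 27 / 2 * s ^ 2 := by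
    have hid : (χ z - z) + s * z * p z
        = ((s - 2 * tau s : ℝ) : ℂ) * z * p z - (χ z - z) * (tau s * p z) := by
      push_cast
      linear_combination huE
    rw [hid]
    calc ‖((s - 2 * tau s : ℝ) : ℂ) * z * p z - (χ z - z) * (tau s * p z)‖
        ≤ ‖((s - 2 * tau s : ℝ) : ℂ) * z * p z‖ + ‖(χ z - z) * (tau s * p z)‖ := norm_sub_le _ _
      _ = |s - 2 * tau s| * ‖z‖ * ‖p z‖ + ‖χ z - z‖ * (tau s * ‖p z‖) := by
          rw [norm_mul, norm_mul, norm_mul, norm_mul, htn, Complex.norm_real, Real.norm_eq_abs]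
      _ ≤ 3 * s ^ 2 * (1 / 2) * 3 + 3 * s * (s * 3) := by
          apply add_le_add
          · have a2 : |s - 2 * tau s| * ‖z‖ ≤ 3 * s ^ 2 * (1 / 2) :=
              mul_le_mul htt hz (norm_nonneg _) (by positivity)
            exact mul_le_mul a2 hpz (norm_nonneg _) (by positivity)
          · have a3 : tau s * ‖p z‖ ≤ s * 3 := mul_le_mul hts hpz (norm_nonneg _) hsz
            exact mul_le_mul hu a3 (mul_nonneg ht0 (norm_nonneg _)) (by positivity)
      _ = 27 / 2 * s ^ 2 := by ring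
  have hχz : ‖χ z‖ ≤ 1 / 2 := (hχ.norm_le hzD).trans hz
  have hχD : χ z ∈ Dk := hχ.maps hzD
  have hT := lest_taylor hG hM hz hχz
  have hT' : ‖G (χ z) - G z - (χ z - z) * deriv G z‖ ≤ 288 * M * s ^ 2 := by
    refine hT.trans ?_
    have : ‖χ z - z‖ ^ 2 ≤ (3 * s) ^ 2 := pow_le_pow_left₀ (norm_nonneg _) hu 2
    calc 32 * M * ‖χ z - z‖ ^ 2 ≤ 32 * M * (3 * s) ^ 2 :=
          mul_le_mul_of_nonneg_left this (by positivity)
      _ = 288 * M * s ^ 2 := by ring
  have hG1 : ‖deriv G z‖ ≤ 8 * M := lest_cb hG hM (hz.trans (by norm_num))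
  have hD : ‖G (χ z) - G z‖ ≤ 312 * M * s := by
    calc ‖G (χ z) - G z‖
        = ‖(G (χ z) - G z - (χ z - z) * deriv G z) + (χ z - z) * deriv G z‖ := by ring_nf
      _ ≤ ‖G (χ z) - G z - (χ z - z) * deriv G z‖ + ‖(χ z - z) * deriv G z‖ := norm_add_le _ _
      _ ≤ 288 * M * s ^ 2 + 3 * s * (8 * M) := by
          apply add_le_add hT'
          rw [norm_mul]
          exact mul_le_mul hu hG1 (norm_nonneg _) (by positivity)
      _ ≤ 288 * M * s + 3 * s * (8 * M) := by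
          have : s ^ 2 ≤ s := by nlinarith
          have h5 : 288 * M * s ^ 2 ≤ 288 * M * s :=
            mul_le_mul_of_nonneg_left this (by positivity)
          linarith
      _ = 312 * M * s := by ring
  have hexp : ‖((Real.exp s : ℝ) : ℂ) - 1 - s‖ ≤ s ^ 2 := by
    have h6 := Real.abs_exp_sub_one_sub_id_le (x := s) (by rw [abs_of_pos hs]; exact hs1)
    have h7 : ((Real.exp s : ℝ) : ℂ) - 1 - s = ((Real.exp s - 1 - s : ℝ) : ℂ) := by push_cast; ring
    rw [h7, Complex.norm_real, Real.norm_eq_abs]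
    exact h6
  have hfin : (Real.exp s : ℂ) * G (χ z) - G z + s * vel G p z
      = (((Real.exp s : ℝ) : ℂ) - 1 - s) * G (χ z) + s * (G (χ z) - G z)
        + (G (χ z) - G z - (χ z - z) * deriv G z)
        + deriv G z * ((χ z - z) + s * z * p z) := by
    simp only [vel]
    push_cast
    ring
  have hfin2 : ‖(((Real.exp s : ℝ) : ℂ) - 1 - s) * G (χ z) + s * (G (χ z) - G z)
        + (G (χ z) - G z - (χ z - z) * deriv G z)
        + deriv G z * ((χ z - z) + s * z * p z)‖ ≤ 709 * M * s ^ 2 := by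
    calc _ ≤ ‖(((Real.exp s : ℝ) : ℂ) - 1 - s) * G (χ z)‖ + ‖s * (G (χ z) - G z)‖
        + ‖G (χ z) - G z - (χ z - z) * deriv G z‖
        + ‖deriv G z * ((χ z - z) + s * z * p z)‖ := norm_add₄_le
      _ ≤ s ^ 2 * M + s * (312 * M * s) + 288 * M * s ^ 2 + 8 * M * (27 / 2 * s ^ 2) := by
          refine add_le_add (add_le_add (add_le_add ?_ ?_) hT') ?_
          · rw [norm_mul]
            exact mul_le_mul hexp (hM _ hχD) (norm_nonneg _) (by positivity)
          · rw [norm_mul, Complex.norm_real, Real.norm_of_nonneg hsz]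
            exact mul_le_mul_of_nonneg_left hD hsz
          · rw [norm_mul]
            exact mul_le_mul hG1 hv (norm_nonneg _) (by positivity)
      _ = 709 * M * s ^ 2 := by ring
  rw [hfin]
  exact hfin2

theorem coef_bound {F : ℂ → ℂ} (hF : DifferentiableOn ℂ F Dk) {C : ℝ}
    (hC : ∀ z : ℂ, ‖z‖ ≤ 1 / 2 → ‖F z‖ ≤ C) (k : ℕ) : ‖coef k F‖ ≤ C * 2 ^ k := by
  have hsub : closedBall (0 : ℂ) (1 / 2) ⊆ Dk := by
    intro w hw
    simp only [mem_closedBall, dist_zero_right] at hw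
    simp only [Dk, mem_ball, dist_zero_right]
    linarith
  have hd : DiffContOnCl ℂ F (ball 0 (1 / 2)) := by
    apply DifferentiableOn.diffContOnCl
    rw [closure_ball _ (by norm_num)]
    exact hF.mono hsub
  have h := Complex.norm_iteratedDeriv_le_of_forall_mem_sphere_norm_le (f := F) k
    (by norm_num : (0 : ℝ) < 1 / 2) hd (C := C) (fun z hz => hC z (by
      have := sphere_subset_closedBall hz
      simpa using this))
  have hk : (0 : ℝ) < (k.factorial : ℝ) := by exact_mod_cast Nat.factorial_pos k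
  rw [coef, norm_div, Complex.norm_natCast, div_le_iff₀ hk]
  calc ‖iteratedDeriv k F 0‖ ≤ k.factorial * C / (1 / 2) ^ k := h
    _ = C * 2 ^ k * k.factorial := by
      rw [one_div, inv_pow]
      field_simp

end Pool.Agent.LOE
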