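import Pool.Agent.LOE.Defs

/-!
# LOE / EXH: compact exhaustion with connected complements

`M = {w | δ ≤ infDist w Uᶜ}` for small `δ > 0`.  `Uᶜ` is nonempty (`U` is bounded) and closed.
`M` is closed, contained in `U`, so bounded, so compact.  `K ⊆ M` for `δ` small because `K` is
compact and disjoint from the closed set `Uᶜ`.  `Mᶜ = {w | infDist w Uᶜ < δ} = thickening δ Uᶜ`
is the union over `e ∈ Uᶜ` of the sets `Uᶜ ∪ ball e δ`, each preconnected (two preconnected sets
with the common point `e`), all containing a fixed point of `Uᶜ`.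
-/

set_option autoImplicit false

open Metric Set Filter Topology

namespace Pool.Agent.LOE

theorem exhaust {U : Set ℂ} (hU : IsOpen U) (hb : Bornology.IsBounded U)
    (hc : IsPreconnected Uᶜ) {K : Set ℂ} (hK : IsCompact K) (hKU : K ⊆ U) :
    ∃ M : Set ℂ, IsCompact M ∧ K ⊆ M ∧ M ⊆ U ∧ IsPreconnected Mᶜ := by
  classical
  have hclosed : IsClosed Uᶜ := hU.isClosed_compl
  have hne : (Uᶜ).Nonempty := by
    rw [Set.nonempty_compl]
    rintro rfl
    exact NormedSpace.unbounded_univ ℝ ℂ hb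
  obtain ⟨w0, hw0⟩ := hne
  -- distance from K to the complement
  obtain ⟨δ, hδ, hKδ⟩ : ∃ δ : ℝ, 0 < δ ∧ ∀ w ∈ K, δ ≤ infDist w Uᶜ := by
    rcases K.eq_empty_or_nonempty with rfl | hKne
    · exact ⟨1, one_pos, fun w hw => absurd hw (Set.notMem_empty w)⟩
    · obtain ⟨x, hx, hmin⟩ := hK.exists_isMinOn hKne (continuous_infDist_pt Uᶜ).continuousOn
      refine ⟨infDist x Uᶜ, ?_, fun w hw => hmin hw⟩
      refine (hclosed.notMem_iff_infDist_pos ⟨w0, hw0⟩).1 ?_
      exact fun h => h (hKU hx)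
  have hMU : {w | δ ≤ infDist w Uᶜ} ⊆ U := by
    intro w hw
    by_contra hwU
    have h0 : infDist w Uᶜ = 0 := infDist_zero_of_mem hwU
    rw [Set.mem_setOf_eq, h0] at hw
    linarith
  have hMc : IsClosed {w | δ ≤ infDist w Uᶜ} :=
    isClosed_le continuous_const (continuous_infDist_pt Uᶜ)
  refine ⟨{w | δ ≤ infDist w Uᶜ}, isCompact_of_isClosed_isBounded hMc (hb.subset hMU), hKδ, hMU, ?_⟩
  have hcompl : {w | δ ≤ infDist w Uᶜ}ᶜ = ⋃ e : (Uᶜ : Set ℂ), (Uᶜ ∪ ball (e : ℂ) δ) := by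
    ext w
    simp only [Set.mem_compl_iff, Set.mem_setOf_eq, not_le, Set.mem_iUnion, Set.mem_union]
    constructor
    · intro hw
      rw [infDist_lt_iff ⟨w0, hw0⟩] at hw
      obtain ⟨e, he, hd⟩ := hw
      exact ⟨⟨e, he⟩, Or.inr hd⟩
    · rintro ⟨⟨e, he⟩, hw | hw⟩
      · rw [infDist_zero_of_mem (show w ∈ Uᶜ from hw)]
        exact hδ
      · exact (infDist_le_dist_of_mem he).trans_lt hw
  rw [hcompl]
  refine isPreconnected_iUnion ⟨w0, ?_⟩ ?_
  · rw [Set.mem_iInter]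
    exact fun e => Or.inl hw0
  · rintro ⟨e, he⟩
    exact IsPreconnected.union e he (mem_ball_self hδ) hc (convex_ball e δ).isPreconnected

end Pool.Agent.LOE
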