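import Pool.Agent.LOE.DEC
import Pool.Agent.LOE.CPT

/-!
# LOE / IVM: all intermediate derivatives occur

`A φ = {s | ∃ ψ χ, Fac φ ψ χ ∧ (deriv χ 0).re = s}` is closed (`fac_closed`; take a sequence in
`A φ` converging to `s`), contained in `[(deriv φ 0).re, 1]`, contains both ends
(`Fac.of_right`, `Fac.of_left`).
Let `s₁` be the least element of `A φ ∩ [t, 1]`, from `Fac φ ψ₁ χ₁`.  If `s₁ = t` we are done.
Suppose `t < s₁`.  Let `u` be the largest element of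
`A ψ₁ ∩ [0, t / s₁]` (nonempty: it contains `(deriv ψ₁ 0).re = (deriv φ 0).re / s₁ ≤ t / s₁`), from
`Fac ψ₁ ψ₂ η`, `(deriv η 0).re = u ≤ t / s₁ < 1`.  `decompose η`: `Fac η α β`,
`(deriv α 0).re < 1`, `v = (deriv β 0).re < 1`, `u = (deriv α 0).re * v < v`.
`Fac.assoc'` gives `Fac ψ₁ (ψ₂ ∘ α) β`, so `v ∈ A ψ₁`; by maximality of `u` (`u < v`) `t / s₁ < v`;
`Fac.assoc` gives `Fac φ _ (β ∘ χ₁)` with derivative `v * s₁ ∈ A φ`, `t < v * s₁ < s₁`: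
contradiction with minimality of `s₁`.
-/

set_option autoImplicit false

open Metric Set Filter Topology

namespace Pool.Agent.LOE

private def IVM_A (φ : ℂ → ℂ) : Set ℝ :=
  {s | ∃ ψ χ : ℂ → ℂ, Fac φ ψ χ ∧ (deriv χ 0).re = s}

private theorem IVM_closed {φ : ℂ → ℂ} (h : UM φ) : IsClosed (IVM_A φ) := by
  apply IsSeqClosed.isClosed
  intro x s hx hxs
  choose ψ χ hf hd using hx
  obtain ⟨ψ', χ', hf', θ, hθ, hlim⟩ := fac_closed h ψ χ hf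
  refine ⟨ψ', χ', hf', ?_⟩
  have h1 : (fun n => (deriv (χ (θ n)) 0).re) = fun n => x (θ n) := by
    funext n
    exact hd (θ n)
  rw [h1] at hlim
  exact tendsto_nhds_unique hlim (hxs.comp hθ.tendsto_atTop)

theorem intermediate {φ : ℂ → ℂ} (h : UM φ) {t : ℝ} (h1 : (deriv φ 0).re ≤ t) (h2 : t ≤ 1) :
    ∃ ψ χ : ℂ → ℂ, Fac φ ψ χ ∧ (deriv χ 0).re = t := by
  have hid : (deriv (fun z : ℂ => z) 0).re = 1 := by simp
  have hA1 : (1 : ℝ) ∈ IVM_A φ := ⟨φ, fun z => z, Fac.of_left h, hid⟩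
  have hcomp : IsCompact (IVM_A φ ∩ Icc t 1) := isCompact_Icc.inter_left (IVM_closed h)
  obtain ⟨s₁, ⟨hs₁, hs₁I⟩, hmin⟩ := hcomp.exists_isLeast ⟨1, hA1, h2, le_rfl⟩
  rcases eq_or_lt_of_le hs₁I.1 with he | hlt
  · obtain ⟨ψ, χ, hf, hd⟩ := hs₁
    exact ⟨ψ, χ, hf, hd.trans he.symm⟩
  exfalso
  obtain ⟨ψ₁, χ₁, hf₁, hd₁⟩ := hs₁
  have hs₁pos : 0 < s₁ := hd₁ ▸ hf₁.2.1.deriv_pos
  have hmul : (deriv φ 0).re = (deriv ψ₁ 0).re * s₁ := by rw [hf₁.deriv, hd₁]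
  have hψ₁ : (deriv ψ₁ 0).re ≤ t / s₁ := by
    rw [le_div_iff₀ hs₁pos, ← hmul]
    exact h1
  have hcomp2 : IsCompact (IVM_A ψ₁ ∩ Icc 0 (t / s₁)) :=
    isCompact_Icc.inter_left (IVM_closed hf₁.1)
  obtain ⟨u, ⟨hu, huI⟩, hmax⟩ := hcomp2.exists_isGreatest
    ⟨(deriv ψ₁ 0).re, ⟨fun z => z, ψ₁, Fac.of_right hf₁.1, rfl⟩, hf₁.1.deriv_pos.le, hψ₁⟩
  obtain ⟨ψ₂, η, hf₂, hd₂⟩ := hu
  have hts : t / s₁ < 1 := (div_lt_one hs₁pos).2 hlt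
  have hη1 : (deriv η 0).re < 1 := by
    rw [hd₂]
    exact lt_of_le_of_lt huI.2 hts
  obtain ⟨α, β, hf₃, hα, hβ⟩ := decompose hf₂.2.1 hη1
  have huv : u = (deriv α 0).re * (deriv β 0).re := by rw [← hd₂, hf₃.deriv]
  have hβpos : 0 < (deriv β 0).re := hf₃.2.1.deriv_pos
  have hltv : u < (deriv β 0).re := by
    rw [huv]
    nlinarith
  have hf₄ := hf₂.assoc' hf₃
  have hvs : t / s₁ < (deriv β 0).re := by
    by_contra hle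
    exact absurd (hmax ⟨⟨_, β, hf₄, rfl⟩, hβpos.le, not_lt.1 hle⟩) (not_le.2 hltv)
  have hf₅ := hf₁.assoc hf₄
  have hd₅ : (deriv (fun z => β (χ₁ z)) 0).re = (deriv β 0).re * s₁ := by
    rw [(UM.comp hf₃.2.1 hf₁.2.1).2, hd₁]
  have h6 : t < (deriv β 0).re * s₁ := (div_lt_iff₀ hs₁pos).1 hvs
  have h7 : (deriv β 0).re * s₁ < s₁ := by nlinarith
  exact absurd (hmin ⟨⟨_, _, hf₅, hd₅⟩, h6.le, (h7.le.trans hs₁I.2)⟩) (not_le.2 h7)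

end Pool.Agent.LOE
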