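import Pool.Agent.LOE.CHN
import Pool.Agent.LOE.EST
import Pool.Agent.LOE.VEL

/-!
# LOE / LPD: the Loewner principle

`φ = exp (-T) f` is `UM` with derivative `exp (-T)`.  For `N ≥ T` (`N` large) and `s = T / N`:
`chain` gives `F j`, `X j`; put `g j = exp (T - j s) F j` (`ClassS`, `‖g j‖ < exp (T - j s)` on `Dk`,
`g 0 = f`, `g N = id` on `Dk`, `cf n (g N) = 0`), `p j` from `transition`.
`g j z = exp s * g (j+1) (X j z)`.  `step_est` with `M = exp T`, `coef_bound` and linearity of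
`coef` (on functions holomorphic on `Dk`): with `c j = cf n (g j)`, `v j = cf n (vel (g (j+1)) (p j))`
`‖c j - c (j+1) + s v j‖ ≤ K' s ^ 2`, i.e. `c (j+1) - c j = s v j + O(s ^ 2)`.  All `c j`, `v j` are
bounded by a constant `R` depending on `T, n` only.  On the compact convex set
`Icc 0 T ×ˢ closedBall 0 R` the derivative `Φ'` is uniformly continuous and bounded by `B`: for
`x, y` in it with `‖y - x‖ ≤ δ(ε)`, `Φ y - Φ x ≥ Φ' y (y - x) - ε ‖y - x‖`
(mean value inequality on the segment).  With `x j = (j s, c j)`: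
`Φ (x (j+1)) - Φ (x j) ≥ Φ' (x (j+1)) (x (j+1) - x j) - ε C s
  ≥ s Φ' (x (j+1)) (1, v j) - B K' s ^ 2 - ε C s ≥ - B K' s ^ 2 - ε C s`.
Sum over `j < N`: `Φ (T, 0) - Φ (0, cf n f) ≥ - T (B K' s + ε C)`; `N → ∞`, `ε → 0`.
-/

set_option autoImplicit false

open Metric Set Filter Topology
open Pool.Agent.Helper42.KoebeMeans (ClassS)

namespace Pool.Agent.LOE

private theorem lpd_core {E : Type*} [NormedAddCommGroup E] [NormedSpace ℝ E] (Φ : E → ℝ)
    (Φ' : E → (E →L[ℝ] ℝ)) {K : Set E} (hK : IsCompact K) (hconv : Convex ℝ K)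
    (hΦ : ∀ x ∈ K, HasFDerivWithinAt Φ (Φ' x) K x) (hΦ' : ContinuousOn Φ' K) {T C D : ℝ}
    (hT : 0 < T) (hC : 0 ≤ C) (hD : 0 ≤ D) {a b : ℝ}
    (h : ∀ᶠ N : ℕ in atTop, ∃ x v : ℕ → E, Φ (x 0) = a ∧ Φ (x N) = b ∧ (∀ j ≤ N, x j ∈ K) ∧
      ∀ j < N, 0 ≤ Φ' (x (j + 1)) (v j) ∧
        ‖x (j + 1) - x j - (T / N) • v j‖ ≤ D * (T / N) ^ 2 ∧
        ‖x (j + 1) - x j‖ ≤ C * (T / N)) : a ≤ b := by
  obtain ⟨B, hB⟩ := hK.exists_bound_of_continuousOn hΦ'
  set B' : ℝ := max B 0 with hB'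
  have hB0 : 0 ≤ B' := le_max_right _ _
  have hBb : ∀ x ∈ K, ‖Φ' x‖ ≤ B' := fun x hx => (hB x hx).trans (le_max_left _ _)
  have huc : UniformContinuousOn Φ' K := hK.uniformContinuousOn_of_continuous hΦ'
  refine le_of_forall_pos_le_add fun η hη => ?_
  set ε : ℝ := η / (2 * (T * C + 1)) with hε
  have hTC : 0 < T * C + 1 := by positivity
  have hεp : 0 < ε := by positivity
  obtain ⟨δ, hδ, hδ'⟩ := Metric.uniformContinuousOn_iff.1 huc ε hεp
  have hlim : Tendsto (fun N : ℕ => T / (N : ℝ)) atTop (𝓝 0) :=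
    tendsto_const_div_atTop_nhds_zero_nat T
  have e1 : ∀ᶠ N : ℕ in atTop, C * (T / N) < δ := by
    have h1 : Tendsto (fun N : ℕ => C * (T / (N : ℝ))) atTop (𝓝 (C * 0)) := hlim.const_mul C
    rw [mul_zero] at h1
    exact h1.eventually (gt_mem_nhds hδ)
  have e2 : ∀ᶠ N : ℕ in atTop, B' * D * T * (T / N) < η / 2 := by
    have h1 : Tendsto (fun N : ℕ => B' * D * T * (T / (N : ℝ))) atTop (𝓝 (B' * D * T * 0)) :=
      hlim.const_mul _
    rw [mul_zero] at h1
    exact h1.eventually (gt_mem_nhds (by positivity))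
  obtain ⟨N, ⟨x, v, hxa, hxb, hxK, hst⟩, hN1, hN2, hN0⟩ :=
    (h.and (e1.and (e2.and (eventually_gt_atTop 0)))).exists
  have hNp : (0 : ℝ) < N := by exact_mod_cast hN0
  set s : ℝ := T / N with hs
  have hsp : 0 < s := by positivity
  have hNs : (N : ℝ) * s = T := by
    rw [hs]
    field_simp
  have hstep : ∀ j < N, -(B' * D * s ^ 2 + ε * C * s) ≤ Φ (x (j + 1)) - Φ (x j) := by
    intro j hj
    obtain ⟨h1, h2, h3⟩ := hst j hj
    have hxj : x j ∈ K := hxK j (by omega)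
    have hxj1 : x (j + 1) ∈ K := hxK (j + 1) (by omega)
    have hseg : segment ℝ (x j) (x (j + 1)) ⊆ K := hconv.segment_subset hxj hxj1
    have hmv : ‖Φ (x (j + 1)) - Φ (x j) - Φ' (x (j + 1)) (x (j + 1) - x j)‖ ≤
        ε * ‖x (j + 1) - x j‖ := by
      refine Convex.norm_image_sub_le_of_norm_hasFDerivWithin_le' (f := Φ) (f' := Φ')
        (s := segment ℝ (x j) (x (j + 1))) (C := ε) (fun y hy => (hΦ y (hseg hy)).mono hseg)
        (fun y hy => ?_) (convex_segment _ _) (left_mem_segment _ _ _) (right_mem_segment _ _ _)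
      have h4 : dist y (x (j + 1)) < δ := by
        have h5 : dist y (x (j + 1)) ≤ dist (x j) (x (j + 1)) := by
          obtain ⟨u, w, hu, hw, huw, rfl⟩ := hy
          rw [dist_eq_norm, dist_eq_norm]
          have h6 : u • x j + w • x (j + 1) - x (j + 1) = u • (x j - x (j + 1)) := by
            have : w = 1 - u := by linarith
            rw [this, smul_sub, sub_smul, one_smul]
            abel
          rw [h6, norm_smul, Real.norm_of_nonneg hu]
          exact mul_le_of_le_one_left (norm_nonneg _) (by linarith)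
        refine lt_of_le_of_lt h5 (lt_of_le_of_lt ?_ hN1)
        rw [dist_comm, dist_eq_norm]
        exact h3
      have h7 := hδ' y (hseg hy) (x (j + 1)) hxj1 h4
      rw [dist_eq_norm] at h7
      exact h7.le
    have h8 : Φ' (x (j + 1)) (x (j + 1) - x j) =
        s * Φ' (x (j + 1)) (v j) + Φ' (x (j + 1)) (x (j + 1) - x j - s • v j) := by
      rw [(Φ' (x (j + 1))).map_sub (x (j + 1) - x j) (s • v j), (Φ' (x (j + 1))).map_smul,
        smul_eq_mul]
      ring
    have h9 : |Φ' (x (j + 1)) (x (j + 1) - x j - s • v j)| ≤ B' * (D * s ^ 2) := by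
      rw [← Real.norm_eq_abs]
      refine (ContinuousLinearMap.le_opNorm _ _).trans ?_
      exact mul_le_mul (hBb _ hxj1) h2 (norm_nonneg _) hB0
    have h10 := (abs_le.1 h9).1
    have h11 : ε * ‖x (j + 1) - x j‖ ≤ ε * (C * s) := mul_le_mul_of_nonneg_left h3 hεp.le
    rw [Real.norm_eq_abs] at hmv
    have h12 := (abs_le.1 hmv).1
    have h13 : 0 ≤ s * Φ' (x (j + 1)) (v j) := mul_nonneg hsp.le h1
    nlinarith
  have hsum : ∀ m ≤ N, -(m : ℝ) * (B' * D * s ^ 2 + ε * C * s) ≤ Φ (x m) - Φ (x 0) := by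
    intro m
    induction m with
    | zero => intro _; simp
    | succ m ih =>
      intro hm
      have h1 := ih (by omega)
      have h2 := hstep m (by omega)
      push_cast
      linarith
  have hfin := hsum N le_rfl
  rw [hxa, hxb] at hfin
  have h14 : (N : ℝ) * (B' * D * s ^ 2 + ε * C * s) = B' * D * T * s + ε * (T * C) := by
    rw [← hNs]
    ring
  have h15 : ε * (T * C) ≤ η / 2 := by
    rw [hε]
    rw [div_mul_eq_mul_div, div_le_div_iff₀ (by positivity) (by positivity)]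
    nlinarith [mul_nonneg hT.le hC]
  nlinarith

private theorem lpd_nhds : Dk ∈ 𝓝 (0 : ℂ) := ball_mem_nhds _ one_pos

private theorem lpd_congr {f g : ℂ → ℂ} (h : ∀ z ∈ Dk, f z = g z) (k : ℕ) :
    coef k f = coef k g := by
  have h1 : f =ᶠ[𝓝 0] g := by
    filter_upwards [lpd_nhds] with z hz using h z hz
  unfold coef
  rw [h1.iteratedDeriv_eq]

private theorem lpd_half {z : ℂ} (hz : ‖z‖ ≤ 1 / 2) : z ∈ Dk := by
  rw [Dk, mem_ball_zero_iff]
  linarith

private theorem lpd_norm_cf {n : ℕ} {C : ℝ} (hC : 0 ≤ C) {g : ℂ → ℂ}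
    (hg : DifferentiableOn ℂ g Dk) (hb : ∀ z : ℂ, ‖z‖ ≤ 1 / 2 → ‖g z‖ ≤ C) :
    ‖cf n g‖ ≤ C * 2 ^ (n + 1) := by
  rw [pi_norm_le_iff_of_nonneg (by positivity)]
  intro i
  refine (coef_bound hg hb _).trans ?_
  refine mul_le_mul_of_nonneg_left ?_ hC
  exact pow_le_pow_right₀ (by norm_num) (by omega)

private theorem lpd_vel_diff {g p : ℂ → ℂ} (hg : DifferentiableOn ℂ g Dk)
    (hp : DifferentiableOn ℂ p Dk) : DifferentiableOn ℂ (vel g p) Dk := by
  unfold vel
  have h1 : DifferentiableOn ℂ (deriv g) Dk := hg.deriv isOpen_ball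
  exact ((differentiableOn_id.mul h1).mul hp).sub hg

private theorem lpd_vel_bound {g p : ℂ → ℂ} {M : ℝ} (hg : DifferentiableOn ℂ g Dk)
    (hM : ∀ z ∈ Dk, ‖g z‖ ≤ M) (hp : Carath p) {z : ℂ} (hz : ‖z‖ ≤ 1 / 2) :
    ‖vel g p z‖ ≤ 7 * M := by
  have hM0 : 0 ≤ M := (norm_nonneg _).trans (hM 0 zero_mem_Dk)
  have h1 : ‖deriv g z‖ ≤ M / (1 / 4) := by
    have hsub : closedBall z (1 / 4) ⊆ Dk := by
      intro w hw
      rw [Dk, mem_ball_zero_iff]
      rw [mem_closedBall, dist_eq_norm] at hw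
      have h2 : ‖w‖ ≤ ‖w - z‖ + ‖z‖ := by
        have := norm_add_le (w - z) z
        rwa [sub_add_cancel] at this
      linarith
    apply Complex.norm_deriv_le_of_forall_mem_sphere_norm_le (by norm_num)
    · refine ⟨hg.mono (ball_subset_closedBall.trans hsub), ?_⟩
      rw [closure_ball z (by norm_num)]
      exact hg.continuousOn.mono hsub
    · intro w hw
      exact hM w (hsub (sphere_subset_closedBall hw))
  have h2 : ‖p z‖ ≤ 3 := hp.bound hz
  unfold vel
  refine (norm_sub_le _ _).trans ?_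
  rw [norm_mul, norm_mul]
  have h3 : ‖z‖ * ‖deriv g z‖ * ‖p z‖ ≤ (1 / 2) * (M / (1 / 4)) * 3 := by
    refine mul_le_mul (mul_le_mul hz h1 (norm_nonneg _) (by norm_num)) h2 (norm_nonneg _) ?_
    positivity
  have h4 := hM z (lpd_half hz)
  linarith

/-- The coefficients of a step. -/
private theorem lpd_step (n : ℕ) {T : ℝ} : ∃ D : ℝ, 0 ≤ D ∧
    ∀ (g₀ g₁ χ p : ℂ → ℂ) (s : ℝ), 0 < s → s ≤ 1 →
    DifferentiableOn ℂ g₀ Dk → DifferentiableOn ℂ g₁ Dk → (∀ z ∈ Dk, ‖g₁ z‖ ≤ Real.exp T) →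
    Carath p → UM χ →
    (∀ z ∈ Dk, χ z * (1 + tau s * p z) = z * (1 - tau s * p z)) →
    (∀ z ∈ Dk, g₀ z = Real.exp s * g₁ (χ z)) →
    ‖cf n g₁ - cf n g₀ - s • cf n (vel g₁ p)‖ ≤ D * s ^ 2 := by
  obtain ⟨K, hK, hKs⟩ := step_est (Real.exp T)
  refine ⟨K * 2 ^ (n + 1), by positivity, ?_⟩
  intro g₀ g₁ χ p s hs hs1 hg0 hg1 hb hp hχ hrel h0
  have hest := hKs g₁ χ p s hs hs1 hg1 hb hp hχ hrel
  have hv := lpd_vel_diff hg1 hp.diff
  set F : ℂ → ℂ := fun z => (g₀ z + (-1 : ℂ) * g₁ z) + (s : ℂ) * vel g₁ p z with hF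
  have hFd : DifferentiableOn ℂ F Dk :=
    (hg0.add ((differentiableOn_const _).mul hg1)).add ((differentiableOn_const _).mul hv)
  have hFb : ∀ z : ℂ, ‖z‖ ≤ 1 / 2 → ‖F z‖ ≤ K * s ^ 2 := by
    intro z hz
    have h1 := hest z hz
    have h2 : F z = Real.exp s * g₁ (χ z) - g₁ z + s * vel g₁ p z := by
      rw [hF]
      simp only
      rw [h0 z (lpd_half hz)]
      ring
    rw [h2]
    exact h1
  have h3 := lpd_norm_cf (n := n) (by positivity) hFd hFb
  have h4 : cf n g₁ - cf n g₀ - s • cf n (vel g₁ p) = -cf n F := by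
    funext i
    have h5 : coef ((i : ℕ) + 2) F = coef ((i : ℕ) + 2) g₀ + (-1 : ℂ) * coef ((i : ℕ) + 2) g₁ +
        (s : ℂ) * coef ((i : ℕ) + 2) (vel g₁ p) := by
      rw [hF]
      rw [coef_add (g := fun z => g₀ z + (-1 : ℂ) * g₁ z) (p := fun z => (s : ℂ) * vel g₁ p z)
        (hg0.add ((differentiableOn_const _).mul hg1)) ((differentiableOn_const _).mul hv),
        coef_add (g := g₀) (p := fun z => (-1 : ℂ) * g₁ z) hg0
        ((differentiableOn_const _).mul hg1), coef_smul hg1, coef_smul hv]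
    simp only [cf, Pi.sub_apply, Pi.neg_apply, Pi.smul_apply, Complex.real_smul]
    rw [h5]
    ring
  rw [h4, norm_neg]
  calc ‖cf n F‖ ≤ K * s ^ 2 * 2 ^ (n + 1) := h3
    _ = K * 2 ^ (n + 1) * s ^ 2 := by ring

theorem loewner_principle (n : ℕ) {T : ℝ} (hT : 0 < T) (Φ : ℝ × (Fin n → ℂ) → ℝ)
    (Φ' : ℝ × (Fin n → ℂ) → (ℝ × (Fin n → ℂ) →L[ℝ] ℝ))
    (hΦ : ∀ x ∈ Icc (0 : ℝ) T ×ˢ (univ : Set (Fin n → ℂ)),
      HasFDerivWithinAt Φ (Φ' x) (Icc (0 : ℝ) T ×ˢ univ) x)
    (hΦ' : ContinuousOn Φ' (Icc (0 : ℝ) T ×ˢ univ))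
    (hm : ∀ t ∈ Icc (0 : ℝ) T, ∀ g : ℂ → ℂ, ClassS g →
      (∀ z ∈ Dk, ‖g z‖ < Real.exp (T - t)) → ∀ p : ℂ → ℂ, Carath p →
      0 ≤ Φ' (t, cf n g) (1, cf n (vel g p)))
    {f : ℂ → ℂ} (hf : ClassS f) (hb : ∀ z ∈ Dk, ‖f z‖ < Real.exp T) :
    Φ (0, cf n f) ≤ Φ (T, 0) := by
  obtain ⟨D, hD, hDs⟩ := lpd_step n (T := T)
  set M : ℝ := Real.exp T with hM
  have hM0 : 0 < M := Real.exp_pos _
  set R : ℝ := 7 * M * 2 ^ (n + 1) with hR
  have hR0 : 0 < R := by positivity
  set K : Set (ℝ × (Fin n → ℂ)) := Icc (0 : ℝ) T ×ˢ closedBall (0 : Fin n → ℂ) R with hKdef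
  have hKc : IsCompact K := isCompact_Icc.prod (isCompact_closedBall _ _)
  have hKconv : Convex ℝ K := (convex_Icc 0 T).prod (convex_closedBall _ _)
  have hKS : K ⊆ Icc (0 : ℝ) T ×ˢ (univ : Set (Fin n → ℂ)) :=
    prod_mono_right (subset_univ _)
  refine lpd_core Φ Φ' hKc hKconv (fun x hx => (hΦ x (hKS hx)).mono hKS) (hΦ'.mono hKS)
    (T := T) (C := 1 + R + D) (D := D) hT (by positivity) hD ?_
  have hφ : UM (fun z => ((Real.exp (-T) : ℝ) : ℂ) * f z) := by
    refine ⟨(differentiableOn_const _).mul hf.1, ?_, ?_, ?_, Real.exp (-T), Real.exp_pos _, ?_⟩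
    · intro x hx y hy hxy
      have h1 : ((Real.exp (-T) : ℝ) : ℂ) ≠ 0 := by
        exact_mod_cast (Real.exp_pos (-T)).ne'
      exact hf.2.1 hx hy (mul_left_cancel₀ h1 hxy)
    · intro z hz
      rw [Dk, mem_ball_zero_iff, norm_mul, Complex.norm_real, Real.norm_of_nonneg
        (Real.exp_pos _).le]
      calc Real.exp (-T) * ‖f z‖ < Real.exp (-T) * Real.exp T :=
            mul_lt_mul_of_pos_left (hb z hz) (Real.exp_pos _)
        _ = 1 := by rw [← Real.exp_add]; simp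
    · simp [hf.2.2.1]
    · rw [deriv_const_mul _ (hf.1.differentiableAt lpd_nhds), hf.2.2.2, mul_one]
  have hφd : (deriv (fun z => ((Real.exp (-T) : ℝ) : ℂ) * f z) 0).re = Real.exp (-T) := by
    rw [deriv_const_mul _ (hf.1.differentiableAt lpd_nhds), hf.2.2.2, mul_one,
      Complex.ofReal_re]
  filter_upwards [eventually_gt_atTop 0, eventually_ge_atTop ⌈T⌉₊] with N hN0 hNT
  have hNp : (0 : ℝ) < N := by exact_mod_cast hN0
  set s : ℝ := T / N with hs
  have hsp : 0 < s := by positivity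
  have hNs : (N : ℝ) * s = T := by
    rw [hs]
    field_simp
  have hs1 : s ≤ 1 := by
    rw [hs, div_le_one hNp]
    exact (Nat.le_ceil T).trans (by exact_mod_cast hNT)
  obtain ⟨F, X, hF0, hFN, hFU, hFX⟩ := chain hφ hsp.le N (by rw [hφd, hNs])
  have hexp : ∀ j : ℕ, Real.exp (-((N - j : ℝ) * s)) = Real.exp (-(T - j * s)) := by
    intro j
    rw [sub_mul, hNs]
  set g : ℕ → ℂ → ℂ := fun j z => ((Real.exp (T - j * s) : ℝ) : ℂ) * F j z with hg
  have hgd : ∀ j ≤ N, DifferentiableOn ℂ (g j) Dk := fun j hj =>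
    (differentiableOn_const _).mul (hFU j hj).1.diff
  have hgS : ∀ j ≤ N, ClassS (g j) := by
    intro j hj
    obtain ⟨hU, hd⟩ := hFU j hj
    refine ⟨hgd j hj, ?_, ?_, ?_⟩
    · intro x hx y hy hxy
      have h1 : ((Real.exp (T - j * s) : ℝ) : ℂ) ≠ 0 := by
        exact_mod_cast (Real.exp_pos _).ne'
      exact hU.inj hx hy (mul_left_cancel₀ h1 hxy)
    · simp [hg, hU.zero]
    · have h2 : deriv (g j) 0 = ((Real.exp (T - j * s) : ℝ) : ℂ) * deriv (F j) 0 := by
        rw [hg]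
        exact deriv_const_mul _ (hU.diff.differentiableAt lpd_nhds)
      rw [h2, hU.deriv_eq, hd, hexp, ← Complex.ofReal_mul, ← Real.exp_add]
      simp
  have hgb : ∀ j ≤ N, ∀ z ∈ Dk, ‖g j z‖ < Real.exp (T - j * s) := by
    intro j hj z hz
    have h1 := (hFU j hj).1.maps hz
    rw [Dk, mem_ball_zero_iff] at h1
    rw [hg]
    simp only
    rw [norm_mul, Complex.norm_real, Real.norm_of_nonneg (Real.exp_pos _).le]
    exact mul_lt_of_lt_one_right (Real.exp_pos _) h1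
  have hgM : ∀ j ≤ N, ∀ z ∈ Dk, ‖g j z‖ ≤ M := by
    intro j hj z hz
    refine (hgb j hj z hz).le.trans ?_
    rw [hM]
    apply Real.exp_le_exp.2
    have : 0 ≤ (j : ℝ) * s := by positivity
    linarith
  have hp : ∀ j, j < N → ∃ p : ℂ → ℂ, Carath p ∧
      ∀ z ∈ Dk, X j z * (1 + tau s * p z) = z * (1 - tau s * p z) := fun j hj =>
    transition (hFX j hj).1.2.1 hsp (hFX j hj).2
  choose! p hpC hprel using hp
  have hgstep : ∀ j < N, ∀ z ∈ Dk, g j z = Real.exp s * g (j + 1) (X j z) := by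
    intro j hj z hz
    rw [hg]
    simp only
    rw [(hFX j hj).1.2.2 z hz, ← mul_assoc, ← Complex.ofReal_mul, ← Real.exp_add]
    congr 3
    push_cast
    ring
  refine ⟨fun j => ((j : ℝ) * s, cf n (g j)), fun j => (1, cf n (vel (g (j + 1)) (p j))),
    ?_, ?_, ?_, ?_⟩
  · have h1 : cf n (g 0) = cf n f := by
      funext i
      refine lpd_congr (fun z _ => ?_) _
      rw [hg]
      simp only
      rw [hF0, ← mul_assoc, ← Complex.ofReal_mul, ← Real.exp_add]
      simp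
    simp only
    rw [h1]
    simp
  · have h1 : cf n (g N) = 0 := by
      funext i
      have h2 : coef ((i : ℕ) + 2) (g N) = coef ((i : ℕ) + 2) (fun z : ℂ => z) := by
        refine lpd_congr (fun z hz => ?_) _
        rw [hg]
        simp only
        rw [hFN z hz, hNs]
        simp
      simp only [cf, Pi.zero_apply]
      rw [h2]
      unfold coef
      have h3 : iteratedDeriv ((i : ℕ) + 2) (fun z : ℂ => z) 0 = 0 := by
        rw [iteratedDeriv_succ']
        have h4 : deriv (fun z : ℂ => z) = fun _ => 1 := by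
          funext z
          simp
        rw [h4, iteratedDeriv_const]
        simp
      rw [h3]
      simp
    simp only
    rw [h1, hNs]
  · intro j hj
    have hjN : (j : ℝ) ≤ N := by exact_mod_cast hj
    refine ⟨⟨by positivity, ?_⟩, ?_⟩
    · simp only
      rw [← hNs]
      exact mul_le_mul_of_nonneg_right hjN hsp.le
    · simp only
      rw [mem_closedBall_zero_iff]
      refine (lpd_norm_cf hM0.le (hgd j hj) (fun z hz => hgM j hj z (lpd_half hz))).trans ?_
      rw [hR]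
      have : (0 : ℝ) < M * 2 ^ (n + 1) := by positivity
      nlinarith
  · intro j hj
    have hj1 : j + 1 ≤ N := hj
    have hpj := hpC j hj
    have hvb : ‖cf n (vel (g (j + 1)) (p j))‖ ≤ R := by
      refine (lpd_norm_cf (C := 7 * M) (by positivity) (lpd_vel_diff (hgd _ hj1) hpj.diff)
        (fun z hz => lpd_vel_bound (hgd _ hj1) (hgM _ hj1) hpj hz))
    have hcs := hDs (g j) (g (j + 1)) (X j) (p j) s hsp hs1 (hgd j (by omega)) (hgd _ hj1)
      (hgM _ hj1) hpj (hFX j hj).1.2.1 (hprel j hj) (hgstep j hj)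
    have hdiff1 : (((j + 1 : ℕ) : ℝ) * s - (j : ℝ) * s) = s := by
      push_cast
      ring
    refine ⟨?_, ?_, ?_⟩
    · simp only
      refine hm (((j + 1 : ℕ) : ℝ) * s) ⟨by positivity, ?_⟩ (g (j + 1)) (hgS _ hj1)
        (hgb _ hj1) (p j) hpj
      rw [← hNs]
      exact mul_le_mul_of_nonneg_right (by exact_mod_cast hj1) hsp.le
    · simp only [Prod.mk_sub_mk, Prod.smul_mk, smul_eq_mul, mul_one]
      rw [Prod.norm_mk, hdiff1, sub_self, norm_zero]
      exact max_le (by positivity) hcs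
    · simp only [Prod.mk_sub_mk]
      rw [Prod.norm_mk, hdiff1]
      refine max_le ?_ ?_
      · rw [Real.norm_of_nonneg hsp.le]
        nlinarith
      · have h1 : cf n (g (j + 1)) - cf n (g j) =
            (cf n (g (j + 1)) - cf n (g j) - s • cf n (vel (g (j + 1)) (p j))) +
              s • cf n (vel (g (j + 1)) (p j)) := by abel
        rw [h1]
        refine (norm_add_le _ _).trans ?_
        rw [norm_smul, Real.norm_of_nonneg hsp.le]
        have h2 : s * ‖cf n (vel (g (j + 1)) (p j))‖ ≤ s * R :=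
          mul_le_mul_of_nonneg_left hvb hsp.le
        have h3 : D * s ^ 2 ≤ D * s := by
          refine mul_le_mul_of_nonneg_left ?_ hD
          nlinarith
        nlinarith

end Pool.Agent.LOE
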