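import Pool.Agent.LOE.Defs
import Pool.Agent.EPO.MBD

/-!
# LOE / MNT: Montel's theorem for bounded sequences on an open set

`Pool.Agent.EPO.MBD` (with `m = 1`) gives, for a ball `ball b r ⊆ U`, a subsequence converging
uniformly on `ball b (r / 2)`.  `U` is covered by countably many balls `ball (b i) (r i / 2)` with
`ball (b i) (r i) ⊆ U` (rational centres and radii, or Lindelof).  Diagonal subsequence: converges
uniformly on every `ball (b i) (r i / 2)`, so there is a pointwise limit `L` on `U` and the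
convergence is locally uniform; `TendstoLocallyUniformlyOn.differentiableOn` gives holomorphy.
(Alternatively copy the Arzela-Ascoli argument.)
-/

set_option autoImplicit false

open Metric Set Filter Topology

namespace Pool.Agent.LOE

private theorem mnt_compact {K : Set ℂ} [CompactSpace K] {C C0 : ℝ} (hC : 0 ≤ C) (F : ℕ → ℂ → ℂ)
    (hb : ∀ k, ∀ x ∈ K, ‖F k x‖ ≤ C0)
    (hL : ∀ k, ∀ x ∈ K, ∀ y ∈ K, dist (F k x) (F k y) ≤ C * dist x y)
    (f : ℕ → BoundedContinuousFunction K ℂ) (hf : ∀ k (x : K), f k x = F k x) :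
    IsCompact (closure (Set.range f)) := by
  apply BoundedContinuousFunction.arzela_ascoli (closedBall (0 : ℂ) C0)
    (isCompact_closedBall 0 C0)
  · rintro g x ⟨k, rfl⟩
    rw [mem_closedBall, dist_zero_right, hf]
    exact hb k x x.2
  · intro x₁
    rw [Metric.equicontinuousAt_iff_pair]
    intro ε hε
    refine ⟨ball x₁ (ε / (2 * (C + 1))), ball_mem_nhds _ (by positivity), ?_⟩
    rintro x hx y hy ⟨g, k, rfl⟩
    have h1 : dist x y < 2 * (ε / (2 * (C + 1))) := by
      have h2 := dist_triangle_right x y x₁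
      rw [mem_ball] at hx hy
      linarith
    have h2 : dist (F k x) (F k y) ≤ C * dist (x : ℂ) y := hL k x x.2 y y.2
    change dist (f k x) (f k y) < ε
    rw [hf, hf]
    have h3 : dist (x : ℂ) y = dist x y := rfl
    rw [h3] at h2
    have h4 : C * dist x y ≤ C * (2 * (ε / (2 * (C + 1)))) :=
      mul_le_mul_of_nonneg_left h1.le hC
    have h5 : C * (2 * (ε / (2 * (C + 1)))) < ε := by
      have : C * (2 * (ε / (2 * (C + 1)))) = ε * (C / (C + 1)) := by
        field_simp
      rw [this]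
      have h6 : C / (C + 1) < 1 := by
        rw [div_lt_one (by linarith)]
        linarith
      nlinarith
    linarith

private theorem mnt_lip {U : Set ℂ} {C b : ℝ} {f : ℂ → ℂ} (hf : DifferentiableOn ℂ f U)
    (hb : ∀ z ∈ U, ‖f z‖ ≤ C) (hU : IsOpen U) (c : ℂ) (hr : 0 < b) (hs : ball c b ⊆ U) :
    ∀ x ∈ closedBall c (b / 2), ∀ y ∈ closedBall c (b / 2),
      dist (f x) (f y) ≤ C / (b / 4) * dist x y := by
  have hd : ∀ ζ ∈ closedBall c (b / 2), ‖deriv f ζ‖ ≤ C / (b / 4) := by
    intro ζ hζ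
    have hb' : closedBall ζ (b / 4) ⊆ U := by
      refine Subset.trans ?_ hs
      intro z hz
      rw [mem_closedBall] at hz hζ
      rw [mem_ball]
      have := dist_triangle z ζ c
      linarith
    apply Complex.norm_deriv_le_of_forall_mem_sphere_norm_le (by positivity)
    · refine ⟨hf.mono (ball_subset_closedBall.trans hb'), ?_⟩
      rw [closure_ball ζ (by positivity)]
      exact hf.continuousOn.mono hb'
    · intro z hz
      exact hb z (hb' (sphere_subset_closedBall hz))
  intro x hx y hy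
  rw [dist_eq_norm, dist_eq_norm]
  refine (convex_closedBall c (b / 2)).norm_image_sub_le_of_norm_deriv_le (f := f)
    (fun z hz => ?_) hd hy hx
  refine (hf z (hs ?_)).differentiableAt (hU.mem_nhds (hs ?_)) <;>
  exact closedBall_subset_ball (by linarith) hz

private theorem mnt_cover {U : Set ℂ} (hU : IsOpen U) :
    ∃ (ι : Type) (_ : Countable ι) (c : ι → ℂ) (b : ι → ℝ), (∀ i, 0 < b i) ∧
      (∀ i, ball (c i) (b i) ⊆ U) ∧ ∀ x ∈ U, ∃ i, x ∈ ball (c i) (b i / 2) := by
  obtain ⟨D, hDc, hDd⟩ := TopologicalSpace.exists_countable_dense ℂ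
  have : Countable D := hDc.to_subtype
  refine ⟨{p : D × ℕ // ball (p.1 : ℂ) (1 / ((p.2 : ℝ) + 1)) ⊆ U}, inferInstance,
    fun i => (i.1.1 : ℂ), fun i => 1 / ((i.1.2 : ℝ) + 1), fun i => by positivity,
    fun i => i.2, ?_⟩
  intro x hx
  obtain ⟨ε, hε, hεU⟩ := Metric.isOpen_iff.1 hU x hx
  obtain ⟨n, hn⟩ := exists_nat_one_div_lt (show (0 : ℝ) < ε / 2 by positivity)
  have hn0 : (0 : ℝ) < 1 / ((n : ℝ) + 1) := by positivity
  obtain ⟨q, hqD, hq⟩ := hDd.exists_dist_lt x (show (0 : ℝ) < 1 / ((n : ℝ) + 1) / 2 by positivity)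
  refine ⟨⟨(⟨q, hqD⟩, n), ?_⟩, ?_⟩
  · refine Subset.trans ?_ hεU
    intro y hy
    rw [mem_ball] at hy ⊢
    have h1 := dist_triangle y q x
    rw [dist_comm q x] at h1
    simp only at hy
    linarith
  · rw [mem_ball]
    exact hq

theorem montel {U : Set ℂ} (hU : IsOpen U) {C : ℝ} (f : ℕ → ℂ → ℂ)
    (hf : ∀ k, DifferentiableOn ℂ (f k) U) (hb : ∀ k, ∀ z ∈ U, ‖f k z‖ ≤ C) :
    ∃ θ : ℕ → ℕ, StrictMono θ ∧ ∃ L : ℂ → ℂ, DifferentiableOn ℂ L U ∧
      TendstoLocallyUniformlyOn (fun k => f (θ k)) L atTop U := by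
  classical
  obtain ⟨ι, hι, c, b, hb0, hbU, hcov⟩ := mnt_cover hU
  have hKU : ∀ i, closedBall (c i) (b i / 2) ⊆ U := fun i =>
    (closedBall_subset_ball (by linarith [hb0 i])).trans (hbU i)
  have hcomp : ∀ i, CompactSpace (closedBall (c i) (b i / 2)) := fun i =>
    isCompact_iff_compactSpace.1 (isCompact_closedBall _ _)
  have hcont : ∀ k i, Continuous fun x : closedBall (c i) (b i / 2) => f k x := fun k i =>
    ((hf k).continuousOn.mono (hKU i)).domRestrict
  let g : (i : ι) → ℕ → BoundedContinuousFunction (closedBall (c i) (b i / 2)) ℂ := fun i k =>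
    BoundedContinuousFunction.mkOfCompact ⟨fun x => f k x, hcont k i⟩
  have hg : ∀ i k (x : closedBall (c i) (b i / 2)), g i k x = f k x := fun i k x => rfl
  have hc : ∀ i, IsCompact (closure (Set.range (g i))) := by
    intro i
    have hC0 : 0 ≤ C := by
      have hm : c i ∈ U := hKU i (mem_closedBall_self (by linarith [hb0 i]))
      exact (norm_nonneg _).trans (hb 0 _ hm)
    refine mnt_compact (C := C / (b i / 4)) (C0 := C) ?_ f (fun k x hx => hb k x (hKU i hx))
      (fun k => mnt_lip (hf k) (hb k) hU (c i) (hb0 i) (hbU i)) (g i) (hg i)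
    have := hb0 i
    positivity
  have hpi : IsCompact (Set.pi Set.univ fun i => closure (Set.range (g i))) :=
    isCompact_univ_pi hc
  obtain ⟨G, -, θ, hθ, hlim⟩ := hpi.tendsto_subseq (x := fun k i => g i k)
    (fun k i _ => subset_closure ⟨k, rfl⟩)
  have hlim' : ∀ i, Tendsto (fun k => g i (θ k)) atTop (𝓝 (G i)) := fun i =>
    (tendsto_pi_nhds.1 hlim) i
  let L : ℂ → ℂ := fun z => limUnder atTop fun k => f (θ k) z
  have hL : ∀ i (x : closedBall (c i) (b i / 2)), L x = G i x := by
    intro i x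
    have h1 := (BoundedContinuousFunction.tendsto_iff_tendstoUniformly.1 (hlim' i)).tendsto_at x
    exact Tendsto.limUnder_eq h1
  have hloc : TendstoLocallyUniformlyOn (fun k => f (θ k)) L atTop U := by
    rw [Metric.tendstoLocallyUniformlyOn_iff]
    intro ε hε x hx
    obtain ⟨i, hi⟩ := hcov x hx
    refine ⟨ball (c i) (b i / 2), mem_nhdsWithin_of_mem_nhds (isOpen_ball.mem_nhds hi), ?_⟩
    have h1 := Metric.tendstoUniformly_iff.1
      (BoundedContinuousFunction.tendsto_iff_tendstoUniformly.1 (hlim' i)) ε hε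
    filter_upwards [h1] with k hk y hy
    have h2 := hk ⟨y, ball_subset_closedBall hy⟩
    rw [← hL i ⟨y, ball_subset_closedBall hy⟩] at h2
    exact h2
  exact ⟨θ, hθ, L, hloc.differentiableOn (Eventually.of_forall fun k => hf (θ k)) hU, hloc⟩

end Pool.Agent.LOE
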