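import Pool.Agent.LOE.Defs

/-!
# LOE / PPU: pushing poles to infinity

`M` compact with connected complement.  Let `A` be the set of all `ζ ∉ M` for which
`w ↦ 1 / (ζ - w)` is a uniform limit on `M` of polynomials.
* `A` contains all `ζ` with `‖ζ‖ > R` if `M ⊆ ball 0 R`: geometric series
  `1 / (ζ - w) = ∑ w ^ k / ζ ^ (k + 1)`.
* If `ζ₀ ∈ A`, `ζ ∉ M` and `‖ζ - ζ₀‖ < infDist ζ₀ M` (use `2 ‖ζ - ζ₀‖ < infDist ζ₀ M`) then
  `ζ ∈ A`: `1 / (ζ - w) = ∑ (ζ₀ - ζ) ^ k / (ζ₀ - w) ^ (k + 1)` uniformly on `M`, and every power of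
  `1 / (ζ₀ - w)` is a uniform limit of polynomials (or: the closure of the polynomial functions
  in `C(M, ℂ)` is a closed subalgebra of a Banach algebra, Neumann series).
* hence `A` is open and it is closed relative to `Mᶜ` (if `ζ ∉ M` is a limit of `ζ₀ ∈ A` take
  `‖ζ - ζ₀‖ < infDist ζ M / 3`), nonempty, and `Mᶜ` is preconnected: `A = Mᶜ`.
If `M` is empty the statement is trivial.
-/

set_option autoImplicit false

open Metric Set Filter Topology

namespace Pool.Agent.LOE

theorem pole_push {M : Set ℂ} (hM : IsCompact M) (hc : IsPreconnected Mᶜ) {ζ : ℂ} (hζ : ζ ∉ M)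
    {ε : ℝ} (hε : 0 < ε) : ∃ q : Polynomial ℂ, ∀ w ∈ M, ‖1 / (ζ - w) - q.eval w‖ < ε := by
  haveI : CompactSpace M := isCompact_iff_compactSpace.1 hM
  have hcl : IsClosed ((polynomialFunctions M).topologicalClosure : Set C(M, ℂ)) :=
    Subalgebra.isClosed_topologicalClosure _
  have hXm : Polynomial.toContinuousMapOn Polynomial.X M ∈
      (polynomialFunctions M).topologicalClosure := by
    apply Subalgebra.le_topologicalClosure
    exact ⟨Polynomial.X, trivial, rfl⟩
  set x : (polynomialFunctions M).topologicalClosure :=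
    ⟨Polynomial.toContinuousMapOn Polynomial.X M, hXm⟩ with hx
  have hspec : spectrum ℂ (x : C(M, ℂ)) = M := by
    rw [ContinuousMap.spectrum_eq_range]
    ext w
    constructor
    · rintro ⟨v, rfl⟩
      simp [hx]
    · intro hw
      exact ⟨⟨w, hw⟩, by simp [hx]⟩
  have hspec2 : spectrum ℂ x = M := by
    have h := Subalgebra.spectrum_eq_of_isPreconnected_compl (𝕜 := ℂ)
      (polynomialFunctions M).topologicalClosure x (by rw [hspec]; exact hc)
    rw [h, hspec]
  have hu : IsUnit (algebraMap ℂ (polynomialFunctions M).topologicalClosure ζ - x) := by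
    rw [← spectrum.notMem_iff, hspec2]
    exact hζ
  obtain ⟨y, hy⟩ := hu.exists_right_inv
  have hy' : ∀ w : M, (y : C(M, ℂ)) w = 1 / (ζ - w) := by
    intro w
    have h1 := congrArg (fun t : (polynomialFunctions M).topologicalClosure => (t : C(M, ℂ)) w) hy
    have h2 : (ζ - (w : ℂ)) * (y : C(M, ℂ)) w = 1 := by
      simpa [hx] using h1
    have h3 : ζ - (w : ℂ) ≠ 0 := by
      intro h
      apply hζ
      rw [sub_eq_zero.1 h]
      exact w.2
    rw [eq_div_iff h3, mul_comm]
    exact h2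
  have hymem : (y : C(M, ℂ)) ∈ closure ((polynomialFunctions M : Subalgebra ℂ C(M, ℂ)) :
      Set C(M, ℂ)) := y.2
  obtain ⟨g, hg, hdist⟩ := Metric.mem_closure_iff.1 hymem ε hε
  obtain ⟨q, -, rfl⟩ := hg
  refine ⟨q, fun w hw => ?_⟩
  have h1 := ContinuousMap.dist_lt_iff hε |>.1 hdist ⟨w, hw⟩
  rw [hy', dist_eq_norm] at h1
  simpa using h1

end Pool.Agent.LOE
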