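import Pool.Agent.LOE.MNT
import Pool.Agent.LOE.HRW
import Pool.Agent.LOE.IDN

/-!
# LOE / RMA: the extremal function of the Riemann mapping theorem

The set of admissible `g₁` is nonempty: `z ↦ z / R` with `U ⊆ ball 0 R`.  For admissible `g₁`,
`‖deriv g₁ 0‖ ≤ 1 / r` where `ball 0 r ⊆ U` (Cauchy estimate).  Take a sequence with
`‖deriv (g k) 0‖ →` the supremum `s ≥ 1 / R > 0`, a locally uniformly convergent subsequence
(`montel`, `C = 1`) with limit `g`.  `‖deriv g 0‖ = s > 0` (derivatives converge: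
`TendstoLocallyUniformlyOn.deriv`), so `g` is not constant and `hurwitz_inj` gives `InjOn g U`.
`‖g‖ ≤ 1` on `U`; it is open (`isOpen_image_of_injOn`), so `MapsTo g U Dk` (an open subset of the
closed unit ball is in the open ball: `interior_closedBall`).
-/

set_option autoImplicit false

open Metric Set Filter Topology

namespace Pool.Agent.LOE

theorem exists_max {U : Set ℂ} (hU : IsOpen U) (hc : IsPreconnected U)
    (hb : Bornology.IsBounded U) (h0 : (0 : ℂ) ∈ U) :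
    ∃ g : ℂ → ℂ, DifferentiableOn ℂ g U ∧ InjOn g U ∧ MapsTo g U Dk ∧ g 0 = 0 ∧
      ∀ g₁ : ℂ → ℂ, DifferentiableOn ℂ g₁ U → InjOn g₁ U → MapsTo g₁ U Dk → g₁ 0 = 0 →
        ‖deriv g₁ 0‖ ≤ ‖deriv g 0‖ := by
  classical
  set A : Set (ℂ → ℂ) := {g | DifferentiableOn ℂ g U ∧ InjOn g U ∧ MapsTo g U Dk ∧ g 0 = 0} with hA
  set D : Set ℝ := (fun g : ℂ → ℂ => ‖deriv g 0‖) '' A with hD
  -- a scaled identity
  obtain ⟨R, hR0, hR⟩ : ∃ R : ℝ, 0 < R ∧ U ⊆ ball 0 R := by
    obtain ⟨R, hR⟩ := hb.subset_ball (0 : ℂ)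
    exact ⟨max R 1, by positivity, hR.trans (ball_subset_ball (le_max_left _ _))⟩
  have hRc : (R : ℂ) ≠ 0 := by exact_mod_cast hR0.ne'
  have hderivR : deriv (fun z : ℂ => z / (R : ℂ)) 0 = 1 / (R : ℂ) := by
    simp
  have hmem : (fun z : ℂ => z / (R : ℂ)) ∈ A := by
    refine ⟨by fun_prop, fun x _ y _ hxy => ?_, fun z hz => ?_, by simp⟩
    · have hxy' : x / (R : ℂ) = y / (R : ℂ) := hxy
      rwa [div_left_inj' hRc] at hxy'
    · have h1 : ‖z‖ < R := by simpa using hR hz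
      show z / (R : ℂ) ∈ ball (0 : ℂ) 1
      rw [mem_ball_zero_iff, norm_div, Complex.norm_real, Real.norm_of_nonneg hR0.le,
        div_lt_one hR0]
      exact h1
  have hne : D.Nonempty := ⟨_, _, hmem, rfl⟩
  -- bounded above
  obtain ⟨r, hr0, hr⟩ : ∃ r : ℝ, 0 < r ∧ closedBall (0 : ℂ) r ⊆ U := by
    obtain ⟨ε, hε, hball⟩ := Metric.isOpen_iff.1 hU 0 h0
    exact ⟨ε / 2, by linarith, (closedBall_subset_ball (by linarith)).trans hball⟩
  have hbd : BddAbove D := by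
    refine ⟨1 / r, ?_⟩
    rintro _ ⟨g, ⟨hg1, _, hg3, _⟩, rfl⟩
    refine Complex.norm_deriv_le_of_forall_mem_sphere_norm_le hr0 ?_ ?_
    · exact (hg1.mono hr).diffContOnCl_ball subset_rfl
    · intro z hz
      have h1 : g z ∈ ball (0 : ℂ) 1 := hg3 (hr (sphere_subset_closedBall hz))
      rw [mem_ball_zero_iff] at h1
      exact h1.le
  have hle : ∀ g ∈ A, ‖deriv g 0‖ ≤ sSup D := fun g hg => le_csSup hbd ⟨g, hg, rfl⟩
  have hs : 0 < sSup D := by
    have h1 := hle _ hmem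
    rw [hderivR] at h1
    have h2 : (0 : ℝ) < ‖(1 : ℂ) / (R : ℂ)‖ := norm_pos_iff.2 (div_ne_zero one_ne_zero hRc)
    exact h2.trans_le h1
  obtain ⟨u, -, hu, huD⟩ := exists_seq_tendsto_sSup hne hbd
  choose g hg hgu using huD
  obtain ⟨θ, hθ, L, hLd, hL⟩ := montel hU (C := 1) g (fun k => (hg k).1) (fun k z hz => by
    have h1 : g k z ∈ ball (0 : ℂ) 1 := (hg k).2.2.1 hz
    rw [mem_ball_zero_iff] at h1
    exact h1.le)
  have hpt : ∀ z ∈ U, Tendsto (fun k => g (θ k) z) atTop (𝓝 (L z)) := fun z hz => hL.tendsto_at hz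
  have hder : Tendsto (fun k => deriv (g (θ k)) 0) atTop (𝓝 (deriv L 0)) :=
    (hL.deriv (Eventually.of_forall fun k => (hg (θ k)).1) hU).tendsto_at h0
  have hnorm : ‖deriv L 0‖ = sSup D := by
    refine tendsto_nhds_unique hder.norm ?_
    have h1 : Tendsto (fun k => u (θ k)) atTop (𝓝 (sSup D)) := hu.comp hθ.tendsto_atTop
    refine h1.congr fun k => ?_
    exact (hgu (θ k)).symm
  have hLinj : InjOn L U := by
    rcases hurwitz_inj hU hc (fun k => (hg (θ k)).1) (fun k => (hg (θ k)).2.1) hL with h | ⟨c, hc'⟩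
    · exact h
    · exfalso
      have h1 : L =ᶠ[𝓝 0] fun _ => c := by
        filter_upwards [hU.mem_nhds h0] with z hz
        exact hc' z hz
      have h2 : deriv L 0 = 0 := by
        rw [h1.deriv_eq]; simp
      rw [h2, norm_zero] at hnorm
      exact hs.ne hnorm
  have hLle : ∀ z ∈ U, ‖L z‖ ≤ 1 := by
    intro z hz
    refine le_of_tendsto (hpt z hz).norm (Eventually.of_forall fun k => ?_)
    have h1 : g (θ k) z ∈ ball (0 : ℂ) 1 := (hg (θ k)).2.2.1 hz
    rw [mem_ball_zero_iff] at h1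
    exact h1.le
  refine ⟨L, hLd, hLinj, fun z hz => ?_, ?_, fun g₁ h1 h2 h3 h4 => ?_⟩
  · have hop : IsOpen (L '' U) := isOpen_image_of_injOn hU hLd hLinj hU subset_rfl
    have hsub : L '' U ⊆ interior (closedBall (0 : ℂ) 1) := by
      refine interior_maximal ?_ hop
      rintro _ ⟨w, hw, rfl⟩
      rw [mem_closedBall_zero_iff]
      exact hLle w hw
    rw [interior_closedBall _ one_ne_zero] at hsub
    exact hsub ⟨z, hz, rfl⟩
  · refine tendsto_nhds_unique (hpt 0 h0) ?_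
    have h1 : (fun k => g (θ k) 0) = fun _ => (0 : ℂ) := funext fun k => (hg (θ k)).2.2.2
    rw [h1]
    exact tendsto_const_nhds
  · rw [hnorm]
    exact hle g₁ ⟨h1, h2, h3, h4⟩

end Pool.Agent.LOE
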