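import Pool.Agent.LOE.PRM
import Pool.Agent.LOE.IDN

/-!
# LOE / RMB: Koebe's square root step

`a ≠ 0` because `g 0 = 0`.  `F z = (g z - a) / (1 - conj a * g z)` has no zero on `U` and
`‖F z‖ < 1`.  `s` with `s ^ 2 = F` (`exists_sqrt`), `‖s‖ < 1`, `b = s 0`, `b ^ 2 = -a`, `b ≠ 0`.
`g₁ z = (s z - b) / (1 - conj b * s z)`: injective because `s z = s w` implies `F z = F w`
implies `g z = g w`.  Derivatives at `0`: `2 b s'(0) = (1 - |a|^2) g'(0)`,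
`g₁'(0) = s'(0) / (1 - |b|^2)`, `|a| = |b|^2`, so
`|g₁'(0)| = (1 - |b|^4) |g'(0)| / (2 |b| (1 - |b|^2)) = (1 + |b|^2) / (2 |b|) * |g'(0)|`, which is
`> |g'(0)|` because `0 < |b| < 1` and `g'(0) ≠ 0` (`deriv_ne_zero_of_injOn`).
-/

set_option autoImplicit false

open Metric Set Filter Topology

namespace Pool.Agent.LOE

private noncomputable def RMB_T (a w : ℂ) : ℂ := (w - a) / (1 - (starRingEnd ℂ) a * w)

private theorem RMB_key (a w : ℂ) :
    ‖1 - (starRingEnd ℂ) a * w‖ ^ 2 - ‖w - a‖ ^ 2 = (1 - ‖a‖ ^ 2) * (1 - ‖w‖ ^ 2) := by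
  rw [← Complex.normSq_eq_norm_sq, ← Complex.normSq_eq_norm_sq, ← Complex.normSq_eq_norm_sq,
    ← Complex.normSq_eq_norm_sq]
  simp only [Complex.normSq_apply, Complex.sub_re, Complex.sub_im, Complex.one_re,
    Complex.one_im, Complex.mul_re, Complex.mul_im, Complex.conj_re, Complex.conj_im]
  ring

private theorem RMB_norm_lt {a w : ℂ} (ha : ‖a‖ < 1) (hw : ‖w‖ < 1) :
    ‖w - a‖ < ‖1 - (starRingEnd ℂ) a * w‖ := by
  have h1 := RMB_key a w
  have h2 : 0 < (1 - ‖a‖ ^ 2) * (1 - ‖w‖ ^ 2) := by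
    have h3 : ‖a‖ ^ 2 < 1 := by nlinarith [norm_nonneg a]
    have h4 : ‖w‖ ^ 2 < 1 := by nlinarith [norm_nonneg w]
    exact mul_pos (by linarith) (by linarith)
  have h5 : ‖w - a‖ ^ 2 < ‖1 - (starRingEnd ℂ) a * w‖ ^ 2 := by linarith
  exact lt_of_pow_lt_pow_left₀ 2 (norm_nonneg _) h5

private theorem RMB_ne {a w : ℂ} (ha : ‖a‖ < 1) (hw : ‖w‖ < 1) :
    1 - (starRingEnd ℂ) a * w ≠ 0 := by
  have h := RMB_norm_lt ha hw
  intro h0
  rw [h0, norm_zero] at h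
  exact absurd h (not_lt.2 (norm_nonneg _))

private theorem RMB_T_lt {a w : ℂ} (ha : ‖a‖ < 1) (hw : ‖w‖ < 1) : ‖RMB_T a w‖ < 1 := by
  unfold RMB_T
  rw [norm_div, div_lt_one (norm_pos_iff.2 (RMB_ne ha hw))]
  exact RMB_norm_lt ha hw

private theorem RMB_T_inj {a w w' : ℂ} (ha : ‖a‖ < 1) (hw : ‖w‖ < 1) (hw' : ‖w'‖ < 1)
    (h : RMB_T a w = RMB_T a w') : w = w' := by
  unfold RMB_T at h
  rw [div_eq_div_iff (RMB_ne ha hw) (RMB_ne ha hw')] at h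
  have h1 : (w - w') * (1 - (starRingEnd ℂ) a * a) = 0 := by linear_combination h
  rcases mul_eq_zero.1 h1 with h2 | h2
  · exact sub_eq_zero.1 h2
  · exact absurd h2 (RMB_ne ha ha)

private theorem RMB_T_deriv {a w : ℂ} (ha : ‖a‖ < 1) (hw : ‖w‖ < 1) :
    HasDerivAt (RMB_T a) ((1 - (starRingEnd ℂ) a * a) / (1 - (starRingEnd ℂ) a * w) ^ 2) w := by
  have h1 : HasDerivAt (fun w : ℂ => w - a) 1 w := (hasDerivAt_id w).sub_const a
  have h2 : HasDerivAt (fun w : ℂ => 1 - (starRingEnd ℂ) a * w) (-(starRingEnd ℂ) a) w := by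
    have := ((hasDerivAt_id w).const_mul ((starRingEnd ℂ) a)).const_sub 1
    simpa using this
  have h3 := h1.fun_div h2 (RMB_ne ha hw)
  have h4 : (1 * (1 - (starRingEnd ℂ) a * w) - (w - a) * -(starRingEnd ℂ) a) /
      (1 - (starRingEnd ℂ) a * w) ^ 2 =
      (1 - (starRingEnd ℂ) a * a) / (1 - (starRingEnd ℂ) a * w) ^ 2 := by
    congr 1
    ring
  rw [h4] at h3
  exact h3

theorem not_max {U : Set ℂ} (hU : SD U) (h0 : (0 : ℂ) ∈ U) {g : ℂ → ℂ}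
    (hg : DifferentiableOn ℂ g U) (hi : InjOn g U) (hm : MapsTo g U Dk) (hg0 : g 0 = 0)
    {a : ℂ} (ha : a ∈ Dk) (hna : ∀ z ∈ U, g z ≠ a) :
    ∃ g₁ : ℂ → ℂ, DifferentiableOn ℂ g₁ U ∧ InjOn g₁ U ∧ MapsTo g₁ U Dk ∧ g₁ 0 = 0 ∧
      ‖deriv g 0‖ < ‖deriv g₁ 0‖ := by
  have ha1 : ‖a‖ < 1 := by simpa [Dk] using ha
  have hgn : ∀ z ∈ U, ‖g z‖ < 1 := fun z hz => by simpa [Dk] using hm hz
  have hgd : ∀ z ∈ U, HasDerivAt g (deriv g z) z := fun z hz =>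
    ((hg z hz).differentiableAt (hU.isOpen.mem_nhds hz)).hasDerivAt
  have hFd : ∀ z ∈ U, HasDerivAt (fun z => RMB_T a (g z))
      ((1 - (starRingEnd ℂ) a * a) / (1 - (starRingEnd ℂ) a * g z) ^ 2 * deriv g z) z :=
    fun z hz => (RMB_T_deriv ha1 (hgn z hz)).comp z (hgd z hz)
  have hF0 : ∀ z ∈ U, RMB_T a (g z) ≠ 0 := fun z hz => by
    unfold RMB_T
    exact div_ne_zero (sub_ne_zero.2 (hna z hz)) (RMB_ne ha1 (hgn z hz))
  obtain ⟨s, hsd, hs⟩ := exists_sqrt hU (F := fun z => RMB_T a (g z))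
    (fun z hz => (hFd z hz).differentiableAt.differentiableWithinAt) hF0
  have hsn : ∀ z ∈ U, ‖s z‖ < 1 := by
    intro z hz
    have h1 : ‖s z‖ ^ 2 < 1 := by
      rw [← norm_pow, hs z hz]
      exact RMB_T_lt ha1 (hgn z hz)
    nlinarith [norm_nonneg (s z)]
  have hsder : ∀ z ∈ U, HasDerivAt s (deriv s z) z := fun z hz =>
    ((hsd z hz).differentiableAt (hU.isOpen.mem_nhds hz)).hasDerivAt
  set b : ℂ := s 0 with hb
  have hb1 : ‖b‖ < 1 := hsn 0 h0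
  have hb2 : b ^ 2 = -a := by
    have h1 := hs 0 h0
    simp only [hg0] at h1
    rw [hb, h1]
    simp [RMB_T]
  have hb0 : b ≠ 0 := by
    intro h
    have h1 := hF0 0 h0
    rw [← hs 0 h0, ← hb, h] at h1
    simp at h1
  have hg1d : ∀ z ∈ U, HasDerivAt (fun z => RMB_T b (s z))
      ((1 - (starRingEnd ℂ) b * b) / (1 - (starRingEnd ℂ) b * s z) ^ 2 * deriv s z) z :=
    fun z hz => (RMB_T_deriv hb1 (hsn z hz)).comp z (hsder z hz)
  refine ⟨fun z => RMB_T b (s z),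
    fun z hz => (hg1d z hz).differentiableAt.differentiableWithinAt, ?_, ?_, ?_, ?_⟩
  · intro z hz w hw h
    have h1 : s z = s w := RMB_T_inj hb1 (hsn z hz) (hsn w hw) h
    have h2 : RMB_T a (g z) = RMB_T a (g w) := by
      rw [← hs z hz, ← hs w hw, h1]
    exact hi hz hw (RMB_T_inj ha1 (hgn z hz) (hgn w hw) h2)
  · intro z hz
    simpa [Dk] using RMB_T_lt hb1 (hsn z hz)
  · simp [RMB_T, hb]
  · rw [(hg1d 0 h0).deriv, ← hb]
    -- derivative of s at 0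
    have h1 : HasDerivAt (fun z => s z ^ 2) (2 * b * deriv s 0) 0 := by
      have := (hsder 0 h0).fun_pow 2
      simpa [hb] using this
    have h2 : (fun z => s z ^ 2) =ᶠ[𝓝 0] fun z => RMB_T a (g z) := by
      filter_upwards [hU.isOpen.mem_nhds h0] with z hz
      exact hs z hz
    have h3 : 2 * b * deriv s 0 = (1 - (starRingEnd ℂ) a * a) * deriv g 0 := by
      have h4 := (h1.congr_of_eventuallyEq h2.symm).unique (hFd 0 h0)
      rw [h4, hg0]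
      simp
    have hne := RMB_ne hb1 hb1
    have e1 : (1 - (starRingEnd ℂ) b * b) / (1 - (starRingEnd ℂ) b * b) ^ 2 * deriv s 0 =
        deriv s 0 / (1 - (starRingEnd ℂ) b * b) := by
      field_simp
    rw [e1, norm_div]
    have hcc : ∀ c : ℂ, 1 - (starRingEnd ℂ) c * c = ((1 - ‖c‖ ^ 2 : ℝ) : ℂ) := by
      intro c
      rw [mul_comm, Complex.mul_conj, Complex.normSq_eq_norm_sq]
      push_cast
      ring
    have hbpos : 0 < ‖b‖ := norm_pos_iff.2 hb0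
    have hbb : 0 < 1 - ‖b‖ ^ 2 := by nlinarith
    have hna2 : ‖a‖ = ‖b‖ ^ 2 := by
      rw [← norm_pow, hb2, norm_neg]
    have haa : 0 < 1 - ‖a‖ ^ 2 := by nlinarith [norm_nonneg a]
    have h5 : 2 * ‖b‖ * ‖deriv s 0‖ = (1 - ‖a‖ ^ 2) * ‖deriv g 0‖ := by
      have h6 := congrArg norm h3
      rw [hcc a, norm_mul, norm_mul, norm_mul, Complex.norm_real, Real.norm_eq_abs,
        abs_of_pos haa] at h6
      simpa using h6
    rw [hcc b, Complex.norm_real, Real.norm_eq_abs, abs_of_pos hbb, lt_div_iff₀ hbb]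
    have hgpos : 0 < ‖deriv g 0‖ :=
      norm_pos_iff.2 (deriv_ne_zero_of_injOn hU.isOpen hg hi h0)
    rw [hna2] at h5
    have h7 : 0 < (1 - ‖b‖ ^ 2) * (1 - ‖b‖) ^ 2 * ‖deriv g 0‖ := by
      have : 0 < 1 - ‖b‖ := by linarith
      positivity
    have h8 : 2 * ‖b‖ * (‖deriv g 0‖ * (1 - ‖b‖ ^ 2)) < 2 * ‖b‖ * ‖deriv s 0‖ := by
      rw [h5]
      nlinarith
    exact lt_of_mul_lt_mul_left h8 (by positivity)

end Pool.Agent.LOE
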