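import Pool.Agent.LOE.RMA
import Pool.Agent.LOE.RMB

/-!
# LOE / RMT: the Riemann mapping theorem for bounded domains with connected complement

`exists_max` and `not_max`: the extremal `g` satisfies `g '' U = Dk`.  Let `G` be its inverse
(`inverse_holo`): holomorphic and injective on `Dk`, `G '' Dk = U`, `G 0 = 0`, `deriv G 0 ≠ 0`.
Put `ψ z = G (c z)` with `c = ‖deriv G 0‖ / deriv G 0`, `‖c‖ = 1`: `deriv ψ 0 = ‖deriv G 0‖`.
-/

set_option autoImplicit false

open Metric Set Filter Topology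

namespace Pool.Agent.LOE

theorem rmt {U : Set ℂ} (hU : SD U) (h0 : (0 : ℂ) ∈ U) :
    ∃ ψ : ℂ → ℂ, DifferentiableOn ℂ ψ Dk ∧ InjOn ψ Dk ∧ ψ '' Dk = U ∧ ψ 0 = 0 ∧
      ∃ a : ℝ, 0 < a ∧ deriv ψ 0 = (a : ℂ) := by
  obtain ⟨g, hgd, hgi, hgm, hg0, hmax⟩ := exists_max hU.isOpen hU.conn hU.bdd h0
  have himg : g '' U = Dk := by
    apply Subset.antisymm
    · rintro _ ⟨z, hz, rfl⟩
      exact hgm hz
    · intro a ha
      by_contra hna
      obtain ⟨g₁, h1, h2, h3, h4, h5⟩ := not_max hU h0 hgd hgi hgm hg0 ha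
        (fun z hz he => hna ⟨z, hz, he⟩)
      exact absurd (hmax g₁ h1 h2 h3 h4) (not_le.2 h5)
  obtain ⟨G, hGd, hGi, hGl, hGder⟩ := inverse_holo hU.isOpen hgd hgi
  rw [himg] at hGd hGi
  have h0D : (0 : ℂ) ∈ Dk := by simp [Dk]
  have hG0 : G 0 = 0 := by
    have := hGl 0 h0
    rwa [hg0] at this
  have hGder0 : deriv G 0 = (deriv g 0)⁻¹ := by
    have := hGder 0 h0
    rwa [hg0] at this
  have hne : deriv G 0 ≠ 0 := by
    rw [hGder0]
    exact inv_ne_zero (deriv_ne_zero_of_injOn hU.isOpen hgd hgi h0)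
  have hpos : 0 < ‖deriv G 0‖ := norm_pos_iff.2 hne
  set c : ℂ := (‖deriv G 0‖ : ℂ) / deriv G 0 with hc
  have hcn : ‖c‖ = 1 := by
    rw [hc, norm_div, Complex.norm_real, norm_norm, div_self hpos.ne']
  have hc0 : c ≠ 0 := by
    intro h
    rw [h, norm_zero] at hcn
    exact zero_ne_one hcn
  have hmem : ∀ z : ℂ, c * z ∈ Dk ↔ z ∈ Dk := by
    intro z
    simp [Dk, hcn]
  have hGD : G '' Dk = U := by
    apply Subset.antisymm
    · rintro _ ⟨w, hw, rfl⟩
      rw [← himg] at hw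
      obtain ⟨z, hz, rfl⟩ := hw
      rw [hGl z hz]
      exact hz
    · intro z hz
      exact ⟨g z, hgm hz, hGl z hz⟩
  have hGat : HasDerivAt G (deriv G 0) 0 :=
    ((hGd 0 h0D).differentiableAt (isOpen_ball.mem_nhds h0D)).hasDerivAt
  refine ⟨fun z => G (c * z), ?_, ?_, ?_, ?_, ‖deriv G 0‖, hpos, ?_⟩
  · intro z hz
    have h1 : DifferentiableAt ℂ G (c * z) :=
      (hGd _ ((hmem z).2 hz)).differentiableAt (isOpen_ball.mem_nhds ((hmem z).2 hz))
    have h2 : DifferentiableAt ℂ (fun z => c * z) z := differentiableAt_id.const_mul c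
    exact (h1.comp z h2).differentiableWithinAt
  · intro z hz w hw h
    have h1 := hGi ((hmem z).2 hz) ((hmem w).2 hw) h
    exact mul_left_cancel₀ hc0 h1
  · rw [← hGD]
    apply Subset.antisymm
    · rintro _ ⟨z, hz, rfl⟩
      exact ⟨c * z, (hmem z).2 hz, rfl⟩
    · rintro _ ⟨w, hw, rfl⟩
      have e : c * (c⁻¹ * w) = w := by rw [← mul_assoc, mul_inv_cancel₀ hc0, one_mul]
      refine ⟨c⁻¹ * w, (hmem _).1 (by rw [e]; exact hw), ?_⟩
      show G (c * (c⁻¹ * w)) = G w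
      rw [e]
  · simp [hG0]
  · have h1 : HasDerivAt (fun z => c * z) c 0 := by
      simpa using (hasDerivAt_id (0 : ℂ)).const_mul c
    have h2 : HasDerivAt G (deriv G 0) (c * 0) := by rwa [mul_zero]
    have h3 : HasDerivAt (fun z => G (c * z)) (deriv G 0 * c) 0 := h2.comp 0 h1
    rw [h3.deriv, hc]
    field_simp

end Pool.Agent.LOE
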