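import Pool.Agent.LOE.CPF
import Pool.Agent.LOE.PPU
import Pool.Agent.LOE.EXH

/-!
# LOE / RNG: Runge's theorem

Take `M` from `exhaust` with `K ⊆ M ⊆ U`, and a smooth `χ : ℂ → ℝ` with compact support in `U`
and `χ = 1` on a neighbourhood of `M` (for example `exists_contDiff_tsupport_subset` /
`exists_smooth_...`, or a smooth bump covering argument; `IsCompact.exists_...`).
`g = χ h` (zero outside `U`) is `C^1` on `ℂ` (a holomorphic function is `C^∞`) with compact
support.  `dbar g = 0` on a neighbourhood of `M` (there `g = h` is holomorphic: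
`fderiv ℝ h z I = I * fderiv ℝ h z 1`).  `cauchy_pompeiu`:
`h w = - (1 / π) ∫ dbar g ζ / (ζ - w)` for `w ∈ M`.
For `ζ` in the compact support `S` of `dbar g`, which is disjoint from `M`, the function
`w ↦ dbar g ζ / (ζ - w)` on `M` is a uniform limit of polynomials (`pole_push`), and it depends
continuously on `ζ ∈ S` in the sup norm on `M`.  So the integral is in the closure of the
polynomials in `C(M, ℂ)`: either a Bochner integral in `C(M, ℂ)` with values in a closed subspace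
(test with continuous functionals that vanish on the subspace, or pass to the quotient by the
closed submodule), or by hand: cut a square containing `S` into small squares `Q_j`, uniform
continuity gives `|∫ dbar g ζ / (ζ - w) - ∑_j (∫_{Q_j} dbar g) / (ζ_j - w)| < ε` with
`ζ_j ∈ Q_j ∩ S`.
-/

set_option autoImplicit false

open Metric Set Filter Topology MeasureTheory

namespace Pool.Agent.LOE

private theorem rng_dbar_zero {h : ℂ → ℂ} {z : ℂ} (hz : DifferentiableAt ℂ h z) :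
    dbar h z = 0 := by
  have h1 : fderiv ℝ h z = (fderiv ℂ h z).restrictScalars ℝ :=
    (hz.hasFDerivAt.restrictScalars ℝ).fderiv
  have h2 : (fderiv ℂ h z) Complex.I = Complex.I * (fderiv ℂ h z) 1 := by
    have := (fderiv ℂ h z).map_smul Complex.I (1 : ℂ)
    rw [smul_eq_mul, mul_one, smul_eq_mul] at this
    exact this
  rw [dbar, h1, ContinuousLinearMap.coe_restrictScalars', h2, ← mul_assoc, Complex.I_mul_I]
  ring

private theorem rng_dbar_congr {g h : ℂ → ℂ} {z : ℂ} (hz : g =ᶠ[𝓝 z] h) : dbar g z = dbar h z := by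
  rw [dbar, dbar, hz.fderiv_eq]

private theorem rng_cut {U : Set ℂ} (hU : IsOpen U) {h : ℂ → ℂ} (hh : DifferentiableOn ℂ h U)
    {M : Set ℂ} (hM : IsCompact M) (hMU : M ⊆ U) :
    ∃ (g : ℂ → ℂ) (L : Set ℂ), IsCompact L ∧ ContDiff ℝ 1 g ∧ (∀ z ∉ L, g z = 0) ∧
      (∀ z ∉ L, dbar g z = 0) ∧ (∀ z ∈ M, g z = h z) ∧
      (∀ z ∈ M, ∀ᶠ ζ in 𝓝 z, dbar g ζ = 0) := by
  obtain ⟨L, hL, hML, hLU⟩ := exists_compact_between hM hU hMU
  obtain ⟨χ, hχ1, hχ0, -⟩ := exists_contMDiffMap_one_nhds_of_subset_interior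
    (n := 1) (modelWithCornersSelf ℝ ℂ) hM.isClosed hML
  have hχc : ContDiff ℝ 1 (χ : ℂ → ℝ) := χ.contMDiff.contDiff
  have hg0 : ∀ z ∉ L, ((χ z : ℝ) : ℂ) * h z = 0 := by
    intro z hz
    rw [hχ0 z hz, Complex.ofReal_zero, zero_mul]
  have hev0 : ∀ z ∉ L, (fun z => ((χ z : ℝ) : ℂ) * h z) =ᶠ[𝓝 z] fun _ => 0 := by
    intro z hz
    filter_upwards [hL.isClosed.isOpen_compl.mem_nhds hz] with y hy
    exact hg0 y hy
  have hev1 : ∀ z ∈ M, ∀ᶠ ζ in 𝓝 z, (fun z => ((χ z : ℝ) : ℂ) * h z) =ᶠ[𝓝 ζ] h := by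
    intro z hz
    have h1 : ∀ᶠ x in 𝓝 z, χ x = 1 := (eventually_nhdsSet_iff_forall.1 hχ1) z hz
    filter_upwards [h1.eventually_nhds] with ζ hζ
    filter_upwards [hζ] with y hy
    rw [hy, Complex.ofReal_one, one_mul]
  refine ⟨fun z => ((χ z : ℝ) : ℂ) * h z, L, hL, ?_, hg0, ?_, ?_, ?_⟩
  · rw [contDiff_iff_contDiffAt]
    intro z
    by_cases hz : z ∈ L
    · have hzU : U ∈ 𝓝 z := hU.mem_nhds (hLU hz)
      have h1 : ContDiffAt ℝ 1 h z :=
        ((hh.contDiffOn hU).contDiffAt hzU).restrict_scalars ℝ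
      have h2 : ContDiffAt ℝ 1 (fun z => ((χ z : ℝ) : ℂ)) z :=
        (Complex.ofRealCLM.contDiff.comp hχc).contDiffAt
      exact h2.mul h1
    · exact contDiffAt_const.congr_of_eventuallyEq (hev0 z hz)
  · intro z hz
    rw [rng_dbar_congr (hev0 z hz)]
    exact rng_dbar_zero (differentiableAt_const 0)
  · intro z hz
    have h1 : ∀ᶠ x in 𝓝 z, χ x = 1 := (eventually_nhdsSet_iff_forall.1 hχ1) z hz
    change ((χ z : ℝ) : ℂ) * h z = h z
    rw [h1.self_of_nhds, Complex.ofReal_one, one_mul]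
  · intro z hz
    filter_upwards [hev1 z hz, hU.mem_nhds (hMU hz)] with ζ hζ hζU
    rw [rng_dbar_congr hζ]
    exact rng_dbar_zero ((hh ζ hζU).differentiableAt (hU.mem_nhds hζU))

private theorem rng_dbar_cont {g : ℂ → ℂ} (hg : ContDiff ℝ 1 g) : Continuous (dbar g) := by
  have h1 : Continuous (fderiv ℝ g) := hg.continuous_fderiv (by simp)
  have h2 : ∀ v : ℂ, Continuous fun z => fderiv ℝ g z v := fun v => h1.clm_apply continuous_const
  exact ((h2 1).add (continuous_const.mul (h2 Complex.I))).div_const 2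

private theorem rng_ker_cont {g : ℂ → ℂ} (hg : ContDiff ℝ 1 g) {M : Set ℂ}
    (h0 : ∀ z ∈ M, ∀ᶠ ζ in 𝓝 z, dbar g ζ = 0) :
    Continuous fun p : ℂ × M => dbar g p.1 / (p.1 - (p.2 : ℂ)) := by
  have hd := rng_dbar_cont hg
  rw [continuous_iff_continuousAt]
  rintro ⟨ζ, w⟩
  by_cases hne : ζ = w
  · have h1 : ∀ᶠ p : ℂ × M in 𝓝 (ζ, w), dbar g p.1 / (p.1 - (p.2 : ℂ)) = 0 := by
      have h2 : ∀ᶠ ζ' in 𝓝 ζ, dbar g ζ' = 0 := by
        rw [hne]
        exact h0 w w.2
      have h3 : Filter.Tendsto (fun p : ℂ × M => p.1) (𝓝 (ζ, w)) (𝓝 ζ) :=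
        continuous_fst.continuousAt
      filter_upwards [h3.eventually h2] with p hp
      rw [hp, zero_div]
    have h4 : ContinuousAt (fun _ : ℂ × M => (0 : ℂ)) (ζ, w) := continuousAt_const
    exact h4.congr (by filter_upwards [h1] with p hp using hp.symm)
  · refine ContinuousAt.div ?_ ?_ (sub_ne_zero.2 hne)
    · exact (hd.comp continuous_fst).continuousAt
    · exact (continuous_fst.sub (continuous_subtype_val.comp continuous_snd)).continuousAt

theorem runge {U : Set ℂ} (hU : IsOpen U) (hb : Bornology.IsBounded U)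
    (hc : IsPreconnected Uᶜ) {h : ℂ → ℂ} (hh : DifferentiableOn ℂ h U) {K : Set ℂ}
    (hK : IsCompact K) (hKU : K ⊆ U) {ε : ℝ} (hε : 0 < ε) :
    ∃ q : Polynomial ℂ, ∀ w ∈ K, ‖h w - q.eval w‖ < ε := by
  obtain ⟨M, hM, hKM, hMU, hMc⟩ := exhaust hU hb hc hK hKU
  obtain ⟨g, L, hL, hg, hg0, hd0, hgh, hdM⟩ := rng_cut hU hh hM hMU
  haveI : CompactSpace M := isCompact_iff_compactSpace.1 hM
  have hgs : HasCompactSupport g := HasCompactSupport.intro hL hg0
  let k : C(ℂ × M, ℂ) := ⟨fun p => dbar g p.1 / (p.1 - (p.2 : ℂ)), rng_ker_cont hg hdM⟩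
  let G : C(ℂ, C(M, ℂ)) := k.curry
  have hGapp : ∀ ζ (w : M), G ζ w = dbar g ζ / (ζ - w) := fun ζ w => rfl
  have hG0 : ∀ ζ ∉ L, G ζ = 0 := by
    intro ζ hζ
    ext w
    rw [hGapp, hd0 ζ hζ, zero_div]
    rfl
  have hGs : HasCompactSupport G := HasCompactSupport.intro hL hG0
  have hGi : Integrable G := G.continuous.integrable_of_hasCompactSupport hGs
  let P : Submodule ℂ C(M, ℂ) := (polynomialFunctions M).topologicalClosure.toSubmodule
  have hPc : IsClosed (P : Set C(M, ℂ)) := (polynomialFunctions M).isClosed_topologicalClosure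
  have hGP : ∀ ζ, G ζ ∈ P := by
    intro ζ
    by_cases hζ : dbar g ζ = 0
    · have : G ζ = 0 := by
        ext w
        rw [hGapp, hζ, zero_div]
        rfl
      rw [this]
      exact P.zero_mem
    · have hζM : ζ ∉ M := fun h => hζ (hdM ζ h).self_of_nhds
      have hcont : Continuous fun w : M => 1 / (ζ - (w : ℂ)) :=
        continuous_const.div (continuous_const.sub continuous_subtype_val) fun w =>
          sub_ne_zero.2 (fun h => hζM (h ▸ w.2))
      let R : C(M, ℂ) := ⟨fun w => 1 / (ζ - (w : ℂ)), hcont⟩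
      have hR : R ∈ P := by
        change R ∈ closure ((polynomialFunctions M : Subalgebra ℂ C(M, ℂ)) : Set C(M, ℂ))
        rw [Metric.mem_closure_iff]
        intro e he
        obtain ⟨q, hq⟩ := pole_push hM hMc hζM he
        refine ⟨q.toContinuousMapOn M, ?_, ?_⟩
        · rw [polynomialFunctions_coe]
          exact ⟨q, rfl⟩
        · rw [dist_eq_norm, ContinuousMap.norm_lt_iff _ he]
          intro w
          exact hq w w.2
      have : G ζ = (dbar g ζ) • R := by
        ext w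
        rw [hGapp]
        change dbar g ζ / (ζ - w) = dbar g ζ * (1 / (ζ - w))
        ring
      rw [this]
      exact P.smul_mem _ hR
  -- the integral
  have hI : (∫ ζ, G ζ) ∈ P := by
    obtain ⟨r, hr⟩ := hL.isBounded.subset_closedBall (0 : ℂ)
    let r' := max r 1
    have hsub : Function.support G ⊆ closedBall (0 : ℂ) r' := by
      intro ζ hζ
      by_contra hn
      exact hζ (hG0 ζ (fun h => hn (closedBall_subset_closedBall (le_max_left _ _) (hr h))))
    have h1 : ∫ ζ, G ζ = ∫ ζ in closedBall (0 : ℂ) r', G ζ :=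
      (setIntegral_eq_integral_of_forall_compl_eq_zero fun ζ hζ => by
        by_contra hne
        exact hζ (hsub hne)).symm
    have hμ0 : volume (closedBall (0 : ℂ) r') ≠ 0 := by
      have hr0 : (0 : ℝ) < r' := lt_of_lt_of_le one_pos (le_max_right _ _)
      exact (measure_closedBall_pos volume (0 : ℂ) hr0).ne'
    have hμ1 : volume (closedBall (0 : ℂ) r') ≠ ⊤ := measure_closedBall_lt_top.ne
    have hconv : Convex ℝ (P : Set C(M, ℂ)) := by
      have := (P.restrictScalars ℝ).convex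
      exact this
    have h2 := hconv.set_average_mem (t := closedBall (0 : ℂ) r') hPc hμ0 hμ1
      (Eventually.of_forall hGP) hGi.integrableOn
    have h3 := measure_smul_setAverage G hμ1
    rw [h1, ← h3]
    exact (P.restrictScalars ℝ).smul_mem _ h2
  have hval : ∀ w : M, (∫ ζ, G ζ) w = -(Real.pi * h w) := by
    intro w
    have h1 := (ContinuousMap.evalCLM ℂ w : C(M, ℂ) →L[ℂ] ℂ).integral_comp_comm hGi
    have h2 : (∫ ζ, G ζ) w = ∫ ζ, dbar g ζ / (ζ - w) := by
      rw [ContinuousMap.evalCLM_apply] at h1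
      exact h1.symm
    rw [h2, cauchy_pompeiu hg hgs w, hgh w w.2]
  have hπ : (Real.pi : ℂ) ≠ 0 := by exact_mod_cast Real.pi_ne_zero
  have hH : (-(Real.pi : ℂ)⁻¹) • (∫ ζ, G ζ) ∈ P := P.smul_mem _ hI
  have hH2 : (-(Real.pi : ℂ)⁻¹) • (∫ ζ, G ζ)
      ∈ closure ((polynomialFunctions M : Subalgebra ℂ C(M, ℂ)) : Set C(M, ℂ)) := hH
  rw [Metric.mem_closure_iff] at hH2
  obtain ⟨f, hf, hfd⟩ := hH2 ε hε
  rw [polynomialFunctions_coe] at hf
  obtain ⟨q, rfl⟩ := hf
  refine ⟨q, fun w hw => ?_⟩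
  rw [dist_eq_norm, ContinuousMap.norm_lt_iff _ hε] at hfd
  have h5 := hfd ⟨w, hKM hw⟩
  have h6 : ((-(Real.pi : ℂ)⁻¹) • (∫ ζ, G ζ)) ⟨w, hKM hw⟩ = h w := by
    rw [ContinuousMap.smul_apply, hval, smul_eq_mul]
    field_simp
  rw [ContinuousMap.sub_apply, h6] at h5
  exact h5

end Pool.Agent.LOE
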