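import Pool.Agent.LOE.SCW

/-!
# LOE / TRN: the Caratheodory function of a step

`ω = dslope χ 0` is holomorphic on `Dk`, `χ z = z * ω z`, `‖ω z‖ ≤ 1` (`UM.norm_le`),
`ω 0 = deriv χ 0 = exp (-s)`, so `ω` is not of modulus `1` anywhere: by the maximum principle
`‖ω z‖ < 1` on `Dk`.  `p z = τ⁻¹ * (1 - ω z) / (1 + ω z)`, `τ = (1 - exp (-s)) / (1 + exp (-s)) > 0`,
`p 0 = 1`, `Re ((1 - ω) / (1 + ω)) = (1 - |ω|^2) / |1 + ω|^2 > 0`.  Then
`ω (1 + τ p) = 1 - τ p`.
`Carath.bound`: `q = (p - 1) / (p + 1)` maps `Dk` to `Dk`, `q 0 = 0`, so `‖q z‖ ≤ ‖z‖ ≤ 1 / 2` and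
`p = (1 + q) / (1 - q)` has norm `≤ 3`.
-/

set_option autoImplicit false

open Metric Set Filter Topology

namespace Pool.Agent.LOE

/-- the parameter of a step of length `s` -/
noncomputable def tau (s : ℝ) : ℝ := (1 - Real.exp (-s)) / (1 + Real.exp (-s))

private theorem TRN_norm {χ : ℂ → ℂ} (h : UM χ) (hlt : (deriv χ 0).re < 1) {z : ℂ}
    (hz : z ∈ Dk) : ‖dslope χ 0 z‖ < 1 := by
  have hmaps : MapsTo χ (ball 0 1) (closedBall (χ 0) 1) := by
    intro w hw
    rw [h.zero]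
    exact ball_subset_closedBall (h.maps hw)
  have hle : ∀ w ∈ Dk, ‖dslope χ 0 w‖ ≤ 1 := by
    intro w hw
    simpa using Complex.norm_dslope_le_div_of_mapsTo_ball h.diff hmaps hw
  have h0 : ‖dslope χ 0 0‖ < 1 := by
    rw [dslope_same, h.deriv_eq, Complex.norm_real, Real.norm_eq_abs, abs_of_pos h.deriv_pos]
    exact hlt
  have hd : DifferentiableOn ℂ (dslope χ 0) Dk :=
    (Complex.differentiableOn_dslope (isOpen_ball.mem_nhds (mem_ball_self one_pos))).2 h.diff
  by_contra hge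
  have h1 : ‖dslope χ 0 z‖ = 1 := le_antisymm (hle z hz) (not_lt.1 hge)
  have hmax : IsMaxOn (norm ∘ dslope χ 0) Dk z := by
    intro w hw
    show ‖dslope χ 0 w‖ ≤ ‖dslope χ 0 z‖
    rw [h1]
    exact hle w hw
  have h2 := Complex.norm_eqOn_of_isPreconnected_of_isMaxOn (convex_ball (0 : ℂ) 1).isPreconnected
    isOpen_ball hd hz hmax zero_mem_Dk
  simp only [Function.comp_apply, Function.const_apply] at h2
  rw [h2, h1] at h0
  exact lt_irrefl _ h0

private theorem TRN_re {w : ℂ} (hw : ‖w‖ < 1) : 1 + w ≠ 0 ∧ 0 < ((1 - w) / (1 + w)).re := by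
  have h1 : 1 + w ≠ 0 := by
    intro h
    have : w = -1 := by linear_combination h
    rw [this] at hw
    simp at hw
  refine ⟨h1, ?_⟩
  have h2 : 0 < Complex.normSq (1 + w) := Complex.normSq_pos.2 h1
  have h3 : Complex.normSq w < 1 := by
    rw [Complex.normSq_eq_norm_sq]
    nlinarith [norm_nonneg w]
  rw [Complex.div_re, ← add_div]
  apply div_pos _ h2
  rw [Complex.normSq_apply] at h3
  simp only [Complex.sub_re, Complex.add_re, Complex.one_re, Complex.sub_im, Complex.add_im,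
    Complex.one_im]
  nlinarith

theorem transition {χ : ℂ → ℂ} (h : UM χ) {s : ℝ} (hs : 0 < s)
    (hd : (deriv χ 0).re = Real.exp (-s)) :
    ∃ p : ℂ → ℂ, Carath p ∧
      ∀ z ∈ Dk, χ z * (1 + tau s * p z) = z * (1 - tau s * p z) := by
  have he1 : Real.exp (-s) < 1 := by
    rw [Real.exp_lt_one_iff]
    linarith
  have he0 : 0 < Real.exp (-s) := Real.exp_pos _
  have hτ : 0 < tau s := by
    unfold tau
    exact div_pos (by linarith) (by linarith)
  have hlt : ∀ z ∈ Dk, ‖dslope χ 0 z‖ < 1 := fun z hz => TRN_norm h (by rw [hd]; exact he1) hz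
  have hdiff : DifferentiableOn ℂ (dslope χ 0) Dk :=
    (Complex.differentiableOn_dslope (isOpen_ball.mem_nhds (mem_ball_self one_pos))).2 h.diff
  have hτc : ((tau s : ℝ) : ℂ) ≠ 0 := by exact_mod_cast hτ.ne'
  refine ⟨fun z => ((tau s)⁻¹ : ℝ) * ((1 - dslope χ 0 z) / (1 + dslope χ 0 z)), ⟨?_, ?_, ?_⟩, ?_⟩
  · refine (differentiableOn_const _).mul (DifferentiableOn.div ?_ ?_ ?_)
    · exact (differentiableOn_const _).sub hdiff
    · exact (differentiableOn_const _).add hdiff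
    · intro z hz
      exact (TRN_re (hlt z hz)).1
  · show ((tau s)⁻¹ : ℝ) * ((1 - dslope χ 0 0) / (1 + dslope χ 0 0)) = 1
    rw [dslope_same, h.deriv_eq, hd]
    have h5 : (1 : ℂ) + (Real.exp (-s) : ℂ) ≠ 0 := by
      have : (1 : ℝ) + Real.exp (-s) ≠ 0 := by linarith
      exact_mod_cast this
    have h6 : (1 : ℂ) - (Real.exp (-s) : ℂ) ≠ 0 := by
      have : (1 : ℝ) - Real.exp (-s) ≠ 0 := by linarith
      exact_mod_cast this
    have h7 : ((tau s : ℝ) : ℂ) = (1 - (Real.exp (-s) : ℂ)) / (1 + (Real.exp (-s) : ℂ)) := by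
      unfold tau
      rw [Complex.ofReal_div, Complex.ofReal_sub, Complex.ofReal_add, Complex.ofReal_one]
    rw [Complex.ofReal_inv, h7]
    exact inv_mul_cancel₀ (div_ne_zero h6 h5)
  · intro z hz
    show 0 < (((tau s)⁻¹ : ℝ) * ((1 - dslope χ 0 z) / (1 + dslope χ 0 z)) : ℂ).re
    rw [Complex.re_ofReal_mul]
    exact mul_pos (inv_pos.2 hτ) (TRN_re (hlt z hz)).2
  · intro z hz
    have h1 := (TRN_re (hlt z hz)).1
    have h2 : χ z = z * dslope χ 0 z := by
      have h3 := sub_smul_dslope χ 0 z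
      rw [h.zero, sub_zero, sub_zero, smul_eq_mul] at h3
      exact h3.symm
    have h4 : (tau s : ℂ) * (((tau s)⁻¹ : ℝ) * ((1 - dslope χ 0 z) / (1 + dslope χ 0 z)))
        = (1 - dslope χ 0 z) / (1 + dslope χ 0 z) := by
      rw [← mul_assoc]
      push_cast
      rw [mul_inv_cancel₀ hτc, one_mul]
    simp only []
    rw [h4, h2]
    field_simp
    ring

theorem Carath.bound {p : ℂ → ℂ} (hp : Carath p) {z : ℂ} (hz : ‖z‖ ≤ 1 / 2) : ‖p z‖ ≤ 3 := by
  have hne : ∀ w ∈ Dk, p w + 1 ≠ 0 := by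
    intro w hw h0
    have h1 := hp.pos w hw
    have h2 : p w = -1 := by linear_combination h0
    rw [h2] at h1
    simp at h1
    linarith
  have hd : DifferentiableOn ℂ (fun w => (p w - 1) / (p w + 1)) (ball 0 1) :=
    (hp.diff.sub_const 1).div (hp.diff.add_const 1) hne
  have hlt : ∀ w ∈ Dk, ‖(p w - 1) / (p w + 1)‖ < 1 := by
    intro w hw
    have h0 : 0 < ‖p w + 1‖ := norm_pos_iff.2 (hne w hw)
    rw [norm_div, div_lt_one h0]
    have h1 : ‖p w - 1‖ ^ 2 < ‖p w + 1‖ ^ 2 := by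
      rw [← Complex.normSq_eq_norm_sq, ← Complex.normSq_eq_norm_sq, Complex.normSq_apply,
        Complex.normSq_apply]
      have := hp.pos w hw
      simp only [Complex.sub_re, Complex.add_re, Complex.one_re, Complex.sub_im, Complex.add_im,
        Complex.one_im]
      nlinarith
    exact lt_of_pow_lt_pow_left₀ 2 h0.le h1
  have hzD : ‖z‖ < 1 := by linarith
  have h1 := Complex.norm_le_norm_of_mapsTo_ball hd
    (fun w hw => ball_subset_closedBall (mem_ball_zero_iff.2 (hlt w hw)))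
    (by simp [hp.one]) hzD
  have hzm : z ∈ Dk := mem_ball_zero_iff.2 hzD
  set q := (p z - 1) / (p z + 1) with hq
  have hq2 : ‖q‖ ≤ 1 / 2 := h1.trans hz
  have h3 : q * (p z + 1) = p z - 1 := by
    rw [hq, div_mul_cancel₀ _ (hne z hzm)]
  have h4 : p z * (1 - q) = 1 + q := by linear_combination -h3
  have h5 : ‖p z‖ * ‖1 - q‖ ≤ 3 / 2 := by
    rw [← norm_mul, h4]
    refine (norm_add_le _ _).trans ?_
    rw [norm_one]
    linarith
  have h6 : 1 / 2 ≤ ‖1 - q‖ := by
    have := norm_sub_norm_le (1 : ℂ) q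
    rw [norm_one] at this
    linarith
  nlinarith [norm_nonneg (p z)]

end Pool.Agent.LOE
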